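import Pool.Agent.Helper122.Cohop.Defs

set_option autoImplicit false

namespace Pool.Agent.Helper122

variable {α : Type} {Ω : Type}



theorem normalClosure_fin (r x : FreeGroup α) (hx : x ∈ Subgroup.normalClosure {r}) :
    ∃ E : Finset (FreeGroup α), x ∈ Subgroup.closure {y | ∃ g ∈ E, y = g⁻¹ * r * g} := by
  classical
  have hmono : ∀ E E' : Finset (FreeGroup α), E ⊆ E' →
      Subgroup.closure {y | ∃ g ∈ E, y = g⁻¹ * r * g} ≤
        Subgroup.closure {y | ∃ g ∈ E', y = g⁻¹ * r * g} := by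
    intro E E' h
    apply Subgroup.closure_mono
    rintro y ⟨g, hg, rfl⟩
    exact ⟨g, h hg, rfl⟩
  unfold Subgroup.normalClosure at hx
  induction hx using Subgroup.closure_induction with
  | mem y hy =>
    rw [Group.mem_conjugatesOfSet_iff] at hy
    obtain ⟨a, ha, hay⟩ := hy
    rw [Set.mem_singleton_iff] at ha
    subst ha
    obtain ⟨c, hc⟩ := isConj_iff.1 hay
    refine ⟨{c⁻¹}, Subgroup.subset_closure ⟨c⁻¹, by simp, ?_⟩⟩
    rw [← hc]; simp
  | one => exact ⟨∅, Subgroup.one_mem _⟩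
  | mul y z _ _ hy hz =>
    obtain ⟨E1, h1⟩ := hy
    obtain ⟨E2, h2⟩ := hz
    exact ⟨E1 ∪ E2, Subgroup.mul_mem _ (hmono _ _ Finset.subset_union_left h1)
      (hmono _ _ Finset.subset_union_right h2)⟩
  | inv y _ hy =>
    obtain ⟨E1, h1⟩ := hy
    exact ⟨E1, Subgroup.inv_mem _ h1⟩

/-- Completing a finitely generated subgroup lying over a finitely presented one. -/
theorem completion {G : Type} [Group G] [Finite α] (r : FreeGroup α) (π : FreeGroup α →* G)
    (hπ : Function.Surjective π) (hker : π.ker = Subgroup.normalClosure {r})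
    (ψ : G →* G) (hψ : Function.Injective ψ) (Q : Subgroup (FreeGroup α)) (hQ : Q.FG)
    (hQψ : Q.map π = ψ.range) :
    ∃ E : Finset (FreeGroup α), ∀ P : Subgroup (FreeGroup α),
      P = Q ⊔ Subgroup.closure {x | ∃ g ∈ E, x = g⁻¹ * r * g} →
      ∀ x ∈ P, π x = 1 →
        x ∈ Subgroup.closure {x | ∃ g ∈ E, ∃ q ∈ P, x = (g * q)⁻¹ * r * (g * q)} := by
  classical
  have hmono : ∀ E E' : Finset (FreeGroup α), E ⊆ E' →
      Subgroup.closure {y | ∃ g ∈ E, y = g⁻¹ * r * g} ≤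
        Subgroup.closure {y | ∃ g ∈ E', y = g⁻¹ * r * g} := by
    intro E E' h
    apply Subgroup.closure_mono
    rintro y ⟨g, hg, rfl⟩
    exact ⟨g, h hg, rfl⟩
  have hy : ∀ a : α, ∃ q : Q, π (q : FreeGroup α) = ψ (π (FreeGroup.of a)) := by
    intro a
    have : ψ (π (FreeGroup.of a)) ∈ Q.map π := by
      rw [hQψ]; exact ⟨_, rfl⟩
    obtain ⟨q, hq, hqe⟩ := this
    exact ⟨⟨q, hq⟩, hqe⟩
  choose y hy using hy
  set Ψ' : FreeGroup α →* Q := FreeGroup.lift y with hΨ'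
  set Ψ : FreeGroup α →* FreeGroup α := Q.subtype.comp Ψ' with hΨ
  have hΨQ : ∀ w, Ψ w ∈ Q := fun w => (Ψ' w).2
  have hcomp : π.comp Ψ = ψ.comp π := by
    apply FreeGroup.ext_hom
    intro a
    simp [hΨ, hΨ', hy a]
  have hcomp' : ∀ w, π (Ψ w) = ψ (π w) := fun w => DFunLike.congr_fun hcomp w
  obtain ⟨Z, hZ⟩ := hQ
  have hw : ∀ z : FreeGroup α, ∃ w : FreeGroup α, z ∈ Q → π z = ψ (π w) := by
    intro z
    by_cases hz : z ∈ Q
    · have : π z ∈ ψ.range := by
        rw [← hQψ]; exact ⟨z, hz, rfl⟩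
      obtain ⟨g, hg⟩ := this
      obtain ⟨w, hw⟩ := hπ g
      exact ⟨w, fun _ => by rw [hw, hg]⟩
    · exact ⟨1, fun h => absurd h hz⟩
  choose w hw using hw
  have hfin : ∀ x : FreeGroup α, ∃ E : Finset (FreeGroup α), π x = 1 →
      x ∈ Subgroup.closure {y | ∃ g ∈ E, y = g⁻¹ * r * g} := by
    intro x
    by_cases hx : π x = 1
    · have : x ∈ Subgroup.normalClosure {r} := by rw [← hker]; exact hx
      obtain ⟨E, hE⟩ := normalClosure_fin r x this
      exact ⟨E, fun _ => hE⟩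
    · exact ⟨∅, fun h => absurd h hx⟩
  choose E0 hE0 using hfin
  have hr1 : π r = 1 := by
    have : r ∈ π.ker := by rw [hker]; exact Subgroup.subset_normalClosure rfl
    exact this
  refine ⟨(Z.biUnion fun z => E0 (z * (Ψ (w z))⁻¹)) ∪ E0 (Ψ r), ?_⟩
  set E := (Z.biUnion fun z => E0 (z * (Ψ (w z))⁻¹)) ∪ E0 (Ψ r) with hE
  intro P hP x hxP hx1
  set M := Subgroup.closure {x | ∃ g ∈ E, ∃ q ∈ P, x = (g * q)⁻¹ * r * (g * q)} with hM
  have hQP : Q ≤ P := by rw [hP]; exact le_sup_left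
  have hMnorm : ∀ p ∈ P, ∀ m ∈ M, p⁻¹ * m * p ∈ M := by
    intro p hp m hm
    rw [hM] at hm
    induction hm using Subgroup.closure_induction with
    | mem y hy =>
      obtain ⟨g, hg, q, hq, rfl⟩ := hy
      apply Subgroup.subset_closure
      refine ⟨g, hg, q * p, P.mul_mem hq hp, ?_⟩
      group
    | one => simpa using M.one_mem
    | mul y z _ _ hy hz =>
      have : p⁻¹ * (y * z) * p = (p⁻¹ * y * p) * (p⁻¹ * z * p) := by group
      rw [this]
      exact M.mul_mem hy hz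
    | inv y _ hy =>
      have : p⁻¹ * y⁻¹ * p = (p⁻¹ * y * p)⁻¹ := by group
      rw [this]
      exact M.inv_mem hy
  have hMnorm' : ∀ p ∈ P, ∀ m ∈ M, p * m * p⁻¹ ∈ M := by
    intro p hp m hm
    have := hMnorm p⁻¹ (P.inv_mem hp) m hm
    simpa using this
  have hDM : Subgroup.closure {x | ∃ g ∈ E, x = g⁻¹ * r * g} ≤ M := by
    rw [Subgroup.closure_le]
    rintro y ⟨g, hg, rfl⟩
    apply Subgroup.subset_closure
    exact ⟨g, hg, 1, P.one_mem, by simp⟩
  have hzM : ∀ z ∈ Z, z * (Ψ (w z))⁻¹ ∈ M := by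
    intro z hz
    have hzQ : z ∈ Q := by rw [← hZ]; exact Subgroup.subset_closure hz
    have h1 : π (z * (Ψ (w z))⁻¹) = 1 := by
      rw [map_mul, map_inv, hcomp', ← hw z hzQ, mul_inv_cancel]
    apply hDM
    apply hmono _ _ _ (hE0 _ h1)
    intro g hg
    rw [hE, Finset.mem_union, Finset.mem_biUnion]
    exact Or.inl ⟨z, hz, hg⟩
  have hrM : Ψ r ∈ M := by
    have h1 : π (Ψ r) = 1 := by rw [hcomp', hr1, map_one]
    apply hDM
    apply hmono _ _ _ (hE0 _ h1)
    intro g hg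
    rw [hE, Finset.mem_union]
    exact Or.inr hg
  let T : Subgroup (FreeGroup α) :=
    { carrier := {x | ∃ v, ∃ μ ∈ M, x = Ψ v * μ}
      one_mem' := ⟨1, 1, M.one_mem, by simp⟩
      mul_mem' := by
        rintro a b ⟨v, μ, hμ, rfl⟩ ⟨v', μ', hμ', rfl⟩
        refine ⟨v * v', ((Ψ v')⁻¹ * μ * Ψ v') * μ',
          M.mul_mem (hMnorm _ (hQP (hΨQ v')) _ hμ) hμ', ?_⟩
        rw [map_mul]
        group
      inv_mem' := by
        rintro a ⟨v, μ, hμ, rfl⟩
        refine ⟨v⁻¹, Ψ v * μ⁻¹ * (Ψ v)⁻¹, hMnorm' _ (hQP (hΨQ v)) _ (M.inv_mem hμ), ?_⟩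
        rw [map_inv]
        group }
  have hPT : P ≤ T := by
    rw [hP]
    apply sup_le
    · rw [← hZ, Subgroup.closure_le]
      intro z hz
      refine ⟨w z, (Ψ (w z))⁻¹ * (z * (Ψ (w z))⁻¹) * Ψ (w z),
        hMnorm _ (hQP (hΨQ _)) _ (hzM z hz), ?_⟩
      group
    · intro z hz
      exact ⟨1, z, hDM hz, by simp⟩
  obtain ⟨v, μ, hμ, rfl⟩ := hPT hxP
  have hμ1 : ∀ m ∈ M, π m = 1 := by
    have : M ≤ π.ker := by
      rw [hM, Subgroup.closure_le]
      rintro y ⟨g, -, q, -, rfl⟩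
      simp [MonoidHom.mem_ker, hr1]
    exact fun m hm => this hm
  have hv : π v = 1 := by
    rw [map_mul, hμ1 μ hμ, mul_one, hcomp'] at hx1
    exact hψ (by rw [hx1, map_one])
  have hvN : v ∈ Subgroup.normalClosure {r} := by rw [← hker]; exact hv
  have hvM : ∀ v ∈ Subgroup.normalClosure {r}, Ψ v ∈ M := by
    intro v hv
    unfold Subgroup.normalClosure at hv
    induction hv using Subgroup.closure_induction with
    | mem y hy =>
      rw [Group.mem_conjugatesOfSet_iff] at hy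
      obtain ⟨a, ha, hay⟩ := hy
      rw [Set.mem_singleton_iff] at ha
      subst ha
      obtain ⟨c, hc⟩ := isConj_iff.1 hay
      rw [← hc, map_mul, map_mul, map_inv]
      exact hMnorm' _ (hQP (hΨQ c)) _ hrM
    | one => simpa using M.one_mem
    | mul y z _ _ hy hz =>
      rw [map_mul]
      exact M.mul_mem hy hz
    | inv y _ hy =>
      rw [map_inv]
      exact M.inv_mem hy
  exact M.mul_mem (hvM v hvN) hμ

end Pool.Agent.Helper122
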