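import Pool.Agent.Helper122.Main

set_option autoImplicit false

namespace Pool.Agent.Helper122

variable {α : Type} {Ω : Type}

/-- The walk along `L` from `ω` stays in the edge set. -/
def Pth (τ : α → Equiv.Perm Ω) (Γ : Set (Ω × α)) (L : List (α × Bool)) (ω : Ω) : Prop :=
  ∀ e ∈ edges τ L ω, e ∈ Γ

/-- Powers of a word. -/
def rpow (R : List (α × Bool)) (n : ℕ) : List (α × Bool) := (List.replicate n R).flatten

/-- Vertices at which the word `W` closes up inside the edge set. -/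
def CC (τ : α → Equiv.Perm Ω) (Γ : Set (Ω × α)) (W : List (α × Bool)) : Set Ω :=
  {c | walk τ W c = c ∧ Pth τ Γ W c}

/-- The edge `e` is the one traversed by the `i`th letter of `R` when reading `R` from `c`. -/
def Cov (τ : α → Equiv.Perm Ω) (R : List (α × Bool)) (c : Ω) (i : ℕ) (e : Ω × α) : Prop :=
  ∃ (A B : List (α × Bool)) (l : α × Bool), R = A ++ l :: B ∧ A.length = i ∧
    e = edgeOf τ l (walk τ B c)

/-- Every edge is covered by two different strands. -/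
def Irr (τ : α → Equiv.Perm Ω) (Γ : Set (Ω × α)) (R : List (α × Bool)) (n : ℕ) : Prop :=
  ∀ e ∈ Γ, ∃ (c c' : Ω) (i j : ℕ), c ∈ CC τ Γ (rpow R n) ∧ c' ∈ CC τ Γ (rpow R n) ∧ i ≠ j ∧
    Cov τ R c i e ∧ Cov τ R c' j e

/-- Every edge can be reached. -/
def Conn (τ : α → Equiv.Perm Ω) (Γ : Set (Ω × α)) (u : Ω) : Prop :=
  ∀ e ∈ Γ, ∃ L, Pth τ Γ L u ∧ walk τ L u = e.1

section pth
variable {τ : α → Equiv.Perm Ω} {Γ Γ' : Set (Ω × α)}

theorem Pth.nil (ω : Ω) : Pth τ Γ [] ω := by simp [Pth]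

theorem pth_cons {l : α × Bool} {L : List (α × Bool)} {ω : Ω} :
    Pth τ Γ (l :: L) ω ↔ edgeOf τ l (walk τ L ω) ∈ Γ ∧ Pth τ Γ L ω := by
  simp [Pth]

theorem pth_append {A B : List (α × Bool)} {ω : Ω} :
    Pth τ Γ (A ++ B) ω ↔ Pth τ Γ A (walk τ B ω) ∧ Pth τ Γ B ω := by
  constructor
  · intro h
    exact ⟨fun e he => h e (by rw [edges_append]; exact List.mem_append.2 (Or.inl he)),
      fun e he => h e (by rw [edges_append]; exact List.mem_append.2 (Or.inr he))⟩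
  · rintro ⟨h1, h2⟩ e he
    rw [edges_append, List.mem_append] at he
    rcases he with he | he
    · exact h1 e he
    · exact h2 e he

theorem pth_invL {L : List (α × Bool)} {ω : Ω} :
    Pth τ Γ (invL L) (walk τ L ω) ↔ Pth τ Γ L ω := by
  constructor
  · intro h e he
    exact h e ((mem_edges_invL τ L ω e).2 he)
  · intro h e he
    exact h e ((mem_edges_invL τ L ω e).1 he)

theorem Pth.mono {L : List (α × Bool)} {ω : Ω} (h : Pth τ Γ L ω) (hs : Γ ⊆ Γ') :
    Pth τ Γ' L ω := fun e he => hs (h e he)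

theorem mk_invL (L : List (α × Bool)) :
    (FreeGroup.mk (invL L) : FreeGroup α) = (FreeGroup.mk L)⁻¹ := by
  rw [FreeGroup.inv_mk]
  congr 1

theorem mk_app (A B : List (α × Bool)) :
    (FreeGroup.mk (A ++ B) : FreeGroup α) = FreeGroup.mk A * FreeGroup.mk B :=
  FreeGroup.mul_mk.symm

/-- Inverse path. -/
theorem Pth.inv {L : List (α × Bool)} {u w : Ω} (h : Pth τ Γ L u) (hw : walk τ L u = w) :
    Pth τ Γ (invL L) w ∧ walk τ (invL L) w = u := by
  subst hw
  exact ⟨pth_invL.2 h, walk_invL τ L u⟩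

theorem Pth.app {A B : List (α × Bool)} {u v : Ω} (hB : Pth τ Γ B u) (hv : walk τ B u = v)
    (hA : Pth τ Γ A v) : Pth τ Γ (A ++ B) u := by
  rw [pth_append, hv]; exact ⟨hA, hB⟩

theorem walk_app {A B : List (α × Bool)} {u v w : Ω} (hv : walk τ B u = v)
    (hw : walk τ A v = w) : walk τ (A ++ B) u = w := by
  rw [walk_append, hv, hw]

end pth

/-- Closed words based at `u` inside the edge set. -/
def PG (τ : α → Equiv.Perm Ω) (Γ : Set (Ω × α)) (u : Ω) : Subgroup (FreeGroup α) where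
  carrier := {g | ∃ L, Pth τ Γ L u ∧ walk τ L u = u ∧ FreeGroup.mk L = g}
  one_mem' := ⟨[], Pth.nil u, rfl, rfl⟩
  mul_mem' := by
    rintro _ _ ⟨A, hA, hA', rfl⟩ ⟨B, hB, hB', rfl⟩
    exact ⟨A ++ B, hB.app hB' hA, walk_app hB' hA', mk_app A B⟩
  inv_mem' := by
    rintro _ ⟨A, hA, hA', rfl⟩
    exact ⟨invL A, (hA.inv hA').1, (hA.inv hA').2, mk_invL A⟩

/-- The subgroup generated by the relator loops reachable from `u`. -/
def RG (τ : α → Equiv.Perm Ω) (Γ : Set (Ω × α)) (W : List (α × Bool)) (u : Ω) :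
    Subgroup (FreeGroup α) :=
  Subgroup.closure {g | ∃ L, Pth τ Γ L u ∧ walk τ L u ∈ CC τ Γ W ∧
    (FreeGroup.mk L)⁻¹ * FreeGroup.mk W * FreeGroup.mk L = g}

section pg
variable {τ : α → Equiv.Perm Ω} {Γ Γ' : Set (Ω × α)}

theorem mem_PG {u : Ω} {g : FreeGroup α} :
    g ∈ PG τ Γ u ↔ ∃ L, Pth τ Γ L u ∧ walk τ L u = u ∧ FreeGroup.mk L = g := Iff.rfl

theorem PG_mono (h : Γ ⊆ Γ') (u : Ω) : PG τ Γ u ≤ PG τ Γ' u := by
  rintro _ ⟨L, h1, h2, rfl⟩
  exact ⟨L, h1.mono h, h2, rfl⟩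

theorem CC_mono (h : Γ ⊆ Γ') (W : List (α × Bool)) : CC τ Γ W ⊆ CC τ Γ' W :=
  fun _ hc => ⟨hc.1, hc.2.mono h⟩

theorem RG_mono (h : Γ ⊆ Γ') (W : List (α × Bool)) (u : Ω) : RG τ Γ W u ≤ RG τ Γ' W u := by
  unfold RG
  rw [Subgroup.closure_le]
  rintro _ ⟨L, h1, h2, rfl⟩
  exact Subgroup.subset_closure ⟨L, h1.mono h, CC_mono h W h2, rfl⟩

theorem mem_RG {W : List (α × Bool)} {u : Ω} {L : List (α × Bool)} (h1 : Pth τ Γ L u)
    (h2 : walk τ L u ∈ CC τ Γ W) :
    (FreeGroup.mk L)⁻¹ * FreeGroup.mk W * FreeGroup.mk L ∈ RG τ Γ W u :=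
  Subgroup.subset_closure ⟨L, h1, h2, rfl⟩

theorem RG_le_PG (W : List (α × Bool)) (u : Ω) : RG τ Γ W u ≤ PG τ Γ u := by
  unfold RG
  rw [Subgroup.closure_le]
  rintro _ ⟨L, h1, h2, rfl⟩
  obtain ⟨h3, h4⟩ := h1.inv rfl
  refine ⟨invL L ++ (W ++ L), ?_, ?_, ?_⟩
  · exact (h1.app rfl h2.2).app (walk_app rfl h2.1) h3
  · exact walk_app (walk_app rfl h2.1) h4
  · rw [mk_app, mk_app, mk_invL, mul_assoc]

/-- Conjugating by a path moves the base point. -/
theorem PG_conj {L : List (α × Bool)} {u w : Ω} (h : Pth τ Γ L u) (hw : walk τ L u = w)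
    (g : FreeGroup α) : FreeGroup.mk L * g * (FreeGroup.mk L)⁻¹ ∈ PG τ Γ w ↔ g ∈ PG τ Γ u := by
  constructor
  · rintro ⟨A, hA, hA', hA''⟩
    obtain ⟨h3, h4⟩ := h.inv hw
    refine ⟨invL L ++ (A ++ L), (h.app hw hA).app (walk_app hw hA') h3,
      walk_app (walk_app hw hA') h4, ?_⟩
    rw [mk_app, mk_app, mk_invL, hA'']
    group
  · rintro ⟨A, hA, hA', rfl⟩
    obtain ⟨h3, h4⟩ := h.inv hw
    refine ⟨L ++ (A ++ invL L), (h3.app h4 hA).app (walk_app h4 hA') h,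
      walk_app (walk_app h4 hA') hw, ?_⟩
    rw [mk_app, mk_app, mk_invL, mul_assoc]

theorem RG_conj_aux {W : List (α × Bool)} {L : List (α × Bool)} {u w : Ω} (h : Pth τ Γ L u)
    (hw : walk τ L u = w) (g : FreeGroup α) (hg : g ∈ RG τ Γ W u) :
    FreeGroup.mk L * g * (FreeGroup.mk L)⁻¹ ∈ RG τ Γ W w := by
  obtain ⟨h3, h4⟩ := h.inv hw
  have hle : RG τ Γ W u ≤ (RG τ Γ W w).comap (MulAut.conj (FreeGroup.mk L)).toMonoidHom := by
    conv_lhs => unfold RG
    rw [Subgroup.closure_le]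
    rintro _ ⟨A, hA, hA', rfl⟩
    have := mem_RG (W := W) (h3.app h4 hA) (by rw [walk_append, h4]; exact hA')
    rw [mk_app, mk_invL] at this
    simp only [Subgroup.coe_comap, Set.mem_preimage, SetLike.mem_coe, MulEquiv.coe_toMonoidHom,
      MulAut.conj_apply]
    convert this using 1
    group
  exact hle hg

theorem RG_conj {W : List (α × Bool)} {L : List (α × Bool)} {u w : Ω} (h : Pth τ Γ L u)
    (hw : walk τ L u = w) (g : FreeGroup α) :
    FreeGroup.mk L * g * (FreeGroup.mk L)⁻¹ ∈ RG τ Γ W w ↔ g ∈ RG τ Γ W u := by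
  refine ⟨fun h1 => ?_, RG_conj_aux h hw g⟩
  obtain ⟨h3, h4⟩ := h.inv hw
  have := RG_conj_aux h3 h4 _ h1
  rw [mk_invL] at this
  convert this using 1
  group

theorem RG_normal {W : List (α × Bool)} {u : Ω} {q g : FreeGroup α} (hq : q ∈ PG τ Γ u)
    (hg : g ∈ RG τ Γ W u) : q * g * q⁻¹ ∈ RG τ Γ W u := by
  obtain ⟨L, h1, h2, rfl⟩ := hq
  exact (RG_conj h1 h2 g).2 hg

instance RG_sub_normal (W : List (α × Bool)) (u : Ω) :
    ((RG τ Γ W u).subgroupOf (PG τ Γ u)).Normal where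
  conj_mem n hn g := by
    rw [Subgroup.mem_subgroupOf] at hn ⊢
    exact RG_normal g.2 hn

/-- The group of the graph with relator loops filled in. -/
abbrev QG (τ : α → Equiv.Perm Ω) (Γ : Set (Ω × α)) (W : List (α × Bool)) (u : Ω) : Type :=
  PG τ Γ u ⧸ (RG τ Γ W u).subgroupOf (PG τ Γ u)

end pg

section rp
variable {τ : α → Equiv.Perm Ω} {Γ Γ' : Set (Ω × α)}

@[simp] theorem rpow_zero (R : List (α × Bool)) : rpow R 0 = [] := rfl

theorem rpow_succ (R : List (α × Bool)) (n : ℕ) : rpow R (n + 1) = R ++ rpow R n := by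
  simp [rpow, List.replicate_succ]

theorem rpow_add (R : List (α × Bool)) (m n : ℕ) : rpow R (m + n) = rpow R m ++ rpow R n := by
  rw [rpow, rpow, rpow, ← List.replicate_append_replicate, List.flatten_append]

theorem mk_rpow (R : List (α × Bool)) (n : ℕ) :
    (FreeGroup.mk (rpow R n) : FreeGroup α) = FreeGroup.mk R ^ n := by
  induction n with
  | zero => rfl
  | succ n ih => rw [rpow_succ, mk_app, ih, pow_succ']

theorem rpow_succ' (R : List (α × Bool)) (n : ℕ) : rpow R (n + 1) = rpow R n ++ R := by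
  rw [rpow_add]; simp [rpow]

theorem length_rpow (R : List (α × Bool)) (n : ℕ) : (rpow R n).length = n * R.length := by
  simp [rpow]

/-- Relator vertices are permuted by the root word. -/
theorem CC_step {R : List (α × Bool)} {n : ℕ} (hn : 1 ≤ n) {c : Ω}
    (hc : c ∈ CC τ Γ (rpow R n)) : walk τ R c ∈ CC τ Γ (rpow R n) := by
  obtain ⟨m, rfl⟩ : ∃ m, n = m + 1 := ⟨n - 1, by omega⟩
  obtain ⟨h1, h2⟩ := hc
  have h3 : Pth τ Γ R c ∧ Pth τ Γ (rpow R m) (walk τ R c) := by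
    have := h2
    rw [rpow_succ', pth_append] at this
    exact ⟨this.2, this.1⟩
  have h4 : walk τ (rpow R m) (walk τ R c) = c := by
    rw [← walk_append, ← rpow_succ']; exact h1
  refine ⟨?_, ?_⟩
  · rw [rpow_succ, walk_append, h4]
  · rw [rpow_succ, pth_append, h4]; exact h3

theorem CC_pth {R : List (α × Bool)} {n : ℕ} (hn : 1 ≤ n) {c : Ω}
    (hc : c ∈ CC τ Γ (rpow R n)) : Pth τ Γ R c := by
  obtain ⟨m, rfl⟩ : ∃ m, n = m + 1 := ⟨n - 1, by omega⟩
  have := hc.2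
  rw [rpow_succ', pth_append] at this
  exact this.2

theorem CC_iter {R : List (α × Bool)} {n : ℕ} (hn : 1 ≤ n) {c : Ω}
    (hc : c ∈ CC τ Γ (rpow R n)) (j : ℕ) : walk τ (rpow R j) c ∈ CC τ Γ (rpow R n) := by
  induction j with
  | zero => exact hc
  | succ j ih => rw [rpow_succ, walk_append]; exact CC_step hn ih

theorem CC_pth_iter {R : List (α × Bool)} {n : ℕ} (hn : 1 ≤ n) {c : Ω}
    (hc : c ∈ CC τ Γ (rpow R n)) (j : ℕ) : Pth τ Γ (rpow R j) c := by
  induction j with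
  | zero => exact Pth.nil c
  | succ j ih => rw [rpow_succ, pth_append]; exact ⟨CC_pth hn (CC_iter hn hc j), ih⟩

theorem mem_edges_cov {R : List (α × Bool)} {c : Ω} {e : Ω × α} :
    e ∈ edges τ R c ↔ ∃ i, Cov τ R c i e := by
  constructor
  · intro h
    obtain ⟨A, B, l, h1, h2, -⟩ := first_trav τ h
    exact ⟨A.length, A, B, l, h1, rfl, h2⟩
  · rintro ⟨i, A, B, l, h1, -, h2⟩
    rw [h1, edges_append, List.mem_append]
    right
    rw [edges_cons, List.mem_cons]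
    exact Or.inl h2

/-- An edge of a power of `R` is an edge of some strand. -/
theorem mem_edges_rpow {R : List (α × Bool)} {c : Ω} {e : Ω × α} {n : ℕ} :
    e ∈ edges τ (rpow R n) c ↔ ∃ j, j < n ∧ e ∈ edges τ R (walk τ (rpow R j) c) := by
  induction n with
  | zero => simp
  | succ n ih =>
    rw [rpow_succ, edges_append, List.mem_append, ih]
    constructor
    · rintro (h | ⟨j, hj, h⟩)
      · exact ⟨n, Nat.lt_succ_self n, h⟩
      · exact ⟨j, by omega, h⟩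
    · rintro ⟨j, hj, h⟩
      rcases Nat.lt_succ_iff_lt_or_eq.1 hj with h1 | h1
      · exact Or.inr ⟨j, h1, h⟩
      · subst h1; exact Or.inl h

/-- Position and edge determine the base vertex of the strand. -/
theorem Cov.inj {R : List (α × Bool)} {c c' : Ω} {i : ℕ} {e : Ω × α} (h : Cov τ R c i e)
    (h' : Cov τ R c' i e) : c = c' := by
  obtain ⟨A, B, l, h1, h2, h3⟩ := h
  obtain ⟨A', B', l', h1', h2', h3'⟩ := h'
  have hA : A = A' ∧ l :: B = l' :: B' := by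
    apply List.append_inj (by rw [← h1, ← h1']) (by rw [h2, h2'])
  obtain ⟨rfl, hB⟩ := hA
  simp only [List.cons.injEq] at hB
  obtain ⟨rfl, rfl⟩ := hB
  rw [h3] at h3'
  rcases edge_cases τ h3' with ⟨-, h4⟩ | ⟨h4, -⟩
  · have : walk τ (invL B) (walk τ B c') = walk τ (invL B) (walk τ B c) := by rw [h4]
    rw [walk_invL, walk_invL] at this
    exact this.symm
  · exfalso
    rcases l with ⟨x, b⟩
    simp [invl] at h4

end rp

end Pool.Agent.Helper122
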