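import Pool.Agent.Helper122.Cohop.Defs

set_option autoImplicit false

namespace Pool.Agent.Helper122

variable {α : Type} {Ω : Type}


/-- Partial injections of a finite type extend to permutations. -/
theorem ext_perm {X : Type} [Finite X] (D : Set X) (p : X → X) (hp : Set.InjOn p D) :
    ∃ σ : Equiv.Perm X, ∀ x ∈ D, σ x = p x := by
  classical
  have := Fintype.ofFinite X
  let e : {x // x ∈ D} ≃ {x // x ∈ p '' D} := Equiv.Set.imageOfInjOn p D hp
  refine ⟨e.extendSubtype, fun x hx => ?_⟩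
  rw [Equiv.extendSubtype_apply_of_mem e x hx]
  rfl

/-- A finite piece of an action can be moved to a finite set. -/
theorem pg_fin (N : ℕ) (τ : α → Equiv.Perm Ω) (Γ : Set (Ω × α)) (u : Ω) (V : Finset Ω)
    (hV : ∀ e ∈ Γ, e.1 ∈ V ∧ τ e.2 e.1 ∈ V) (hu : u ∈ V) (hN : V.card ≤ N) :
    ∃ (τ' : α → Equiv.Perm (Fin N)) (Γ' : Set (Fin N × α)) (u' : Fin N),
      PG τ' Γ' u' = PG τ Γ u := by
  classical
  have : Nonempty Ω := ⟨u⟩
  have hcard : Fintype.card V ≤ Fintype.card (Fin N) := by simpa using hN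
  obtain ⟨em⟩ := Function.Embedding.nonempty_of_card_le hcard
  let f : Ω → Fin N := fun w => if h : w ∈ V then em ⟨w, h⟩ else em ⟨u, hu⟩
  have hf : ∀ w ∈ V, ∀ w' ∈ V, f w = f w' → w = w' := by
    intro w hw w' hw' h
    simp only [f, hw, hw', dif_pos] at h
    exact congrArg Subtype.val (em.injective h)
  have hex : ∀ x : α, ∃ σ : Equiv.Perm (Fin N), ∀ w ∈ V, τ x w ∈ V → σ (f w) = f (τ x w) := by
    intro x
    let fi : Fin N → Ω := Function.invFunOn f (V : Set Ω)
    have hfi : ∀ w ∈ V, fi (f w) = w := by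
      intro w hw
      have h1 : ∃ a ∈ (V : Set Ω), f a = f w := ⟨w, hw, rfl⟩
      exact hf _ (Function.invFunOn_mem h1) _ hw (Function.invFunOn_eq h1)
    obtain ⟨σ, hσ⟩ := ext_perm (f '' {w | w ∈ V ∧ τ x w ∈ V}) (fun y => f (τ x (fi y))) (by
      rintro _ ⟨w, ⟨hw1, hw2⟩, rfl⟩ _ ⟨w', ⟨hw1', hw2'⟩, rfl⟩ h
      simp only [hfi w hw1, hfi w' hw1'] at h
      have := hf _ hw2 _ hw2' h
      rw [(τ x).injective this])
    refine ⟨σ, fun w hw hw2 => ?_⟩
    rw [hσ _ ⟨w, ⟨hw, hw2⟩, rfl⟩]
    simp only [hfi w hw]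
  choose σ hσ using hex
  let Γ' : Set (Fin N × α) := (fun e : Ω × α => (f e.1, e.2)) '' Γ
  have key : ∀ (l : α × Bool) (w : Ω), w ∈ V →
      (edgeOf σ l (f w) ∈ Γ' ↔ edgeOf τ l w ∈ Γ) ∧
      (edgeOf τ l w ∈ Γ → step τ l w ∈ V ∧ step σ l (f w) = f (step τ l w)) := by
    rintro ⟨x, b⟩ w hw
    cases b
    · -- backwards
      have h1 : edgeOf τ (x, false) w = ((τ x).symm w, x) := by simp [edgeOf]
      have h2 : edgeOf σ (x, false) (f w) = ((σ x).symm (f w), x) := by simp [edgeOf]
      have h3 : step τ (x, false) w = (τ x).symm w := by simp [step]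
      have h4 : step σ (x, false) (f w) = (σ x).symm (f w) := by simp [step]
      rw [h1, h2, h3, h4]
      have h5 : ((τ x).symm w, x) ∈ Γ → (τ x).symm w ∈ V ∧
          (σ x).symm (f w) = f ((τ x).symm w) := by
        intro h
        have h6 := (hV _ h).1
        refine ⟨h6, ?_⟩
        rw [Equiv.symm_apply_eq]
        have h7 := hσ x _ h6 (by simpa using hw)
        rw [Equiv.apply_symm_apply] at h7
        exact h7.symm
      refine ⟨⟨?_, ?_⟩, h5⟩
      · rintro ⟨⟨w0, x0⟩, h6, h7⟩
        simp only [Prod.mk.injEq] at h7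
        obtain ⟨h7, rfl⟩ := h7
        have h8 := hV _ h6
        have h9 := hσ x0 w0 h8.1 h8.2
        rw [h7, Equiv.apply_symm_apply] at h9
        have h10 := hf _ hw _ h8.2 h9
        simp only at h10
        rw [h10, Equiv.symm_apply_apply]
        exact h6
      · intro h
        refine ⟨_, h, ?_⟩
        simp only [(h5 h).2]
    · have h1 : edgeOf τ (x, true) w = (w, x) := by simp [edgeOf]
      have h2 : edgeOf σ (x, true) (f w) = (f w, x) := by simp [edgeOf]
      have h3 : step τ (x, true) w = τ x w := by simp [step]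
      have h4 : step σ (x, true) (f w) = σ x (f w) := by simp [step]
      rw [h1, h2, h3, h4]
      refine ⟨⟨?_, ?_⟩, ?_⟩
      · rintro ⟨⟨w0, x0⟩, h6, h7⟩
        simp only [Prod.mk.injEq] at h7
        obtain ⟨h7, rfl⟩ := h7
        have := hf _ (hV _ h6).1 _ hw h7
        simp only at this
        rw [← this]
        exact h6
      · intro h
        exact ⟨_, h, rfl⟩
      · intro h
        exact ⟨(hV _ h).2, hσ x w hw (hV _ h).2⟩
  have main : ∀ L : List (α × Bool), (Pth σ Γ' L (f u) ↔ Pth τ Γ L u) ∧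
      (Pth τ Γ L u → walk τ L u ∈ V ∧ walk σ L (f u) = f (walk τ L u)) := by
    intro L
    induction L with
    | nil => exact ⟨⟨fun _ => Pth.nil _, fun _ => Pth.nil _⟩, fun _ => ⟨hu, rfl⟩⟩
    | cons l L ih =>
      obtain ⟨ih1, ih2⟩ := ih
      rw [pth_cons, pth_cons, ih1]
      refine ⟨?_, ?_⟩
      · constructor
        · rintro ⟨h1, h2⟩
          obtain ⟨h3, h4⟩ := ih2 h2
          rw [h4] at h1
          exact ⟨(key l _ h3).1.1 h1, h2⟩
        · rintro ⟨h1, h2⟩
          obtain ⟨h3, h4⟩ := ih2 h2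
          rw [h4]
          exact ⟨(key l _ h3).1.2 h1, h2⟩
      · rintro ⟨h1, h2⟩
        obtain ⟨h3, h4⟩ := ih2 h2
        rw [walk_cons, walk_cons, h4]
        exact (key l _ h3).2 h1
  refine ⟨σ, Γ', f u, ?_⟩
  ext g
  rw [mem_PG, mem_PG]
  constructor
  · rintro ⟨L, h1, h2, rfl⟩
    have h3 := (main L).1.1 h1
    obtain ⟨h4, h5⟩ := (main L).2 h3
    rw [h5] at h2
    exact ⟨L, h3, hf _ h4 _ hu h2, rfl⟩
  · rintro ⟨L, h1, h2, rfl⟩
    obtain ⟨h4, h5⟩ := (main L).2 h1
    exact ⟨L, (main L).1.2 h1, by rw [h5, h2], rfl⟩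

/-- The group of a finite edge set is finitely generated. -/
theorem PG_fg (τ : α → Equiv.Perm Ω) (Γ : Finset (Ω × α)) (u : Ω) :
    (PG τ (Γ : Set (Ω × α)) u).FG := by
  classical
  let reach : Ω → Prop := fun w => ∃ L, Pth τ (Γ : Set (Ω × α)) L u ∧ walk τ L u = w
  have hex : ∀ w : Ω, ∃ L : List (α × Bool), (reach w → Pth τ (Γ : Set (Ω × α)) L u ∧
      walk τ L u = w) ∧ (w = u → L = []) := by
    intro w
    by_cases hw : w = u
    · exact ⟨[], fun _ => ⟨Pth.nil _, hw.symm⟩, fun _ => rfl⟩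
    · by_cases hr : reach w
      · obtain ⟨L, h1, h2⟩ := hr
        exact ⟨L, fun _ => ⟨h1, h2⟩, fun h => absurd h hw⟩
      · exact ⟨[], fun h => absurd h hr, fun h => absurd h hw⟩
  choose p hp hpu using hex
  let gen : Ω × α → FreeGroup α := fun e =>
    (FreeGroup.mk (p (τ e.2 e.1)))⁻¹ * FreeGroup.mk [(e.2, true)] * FreeGroup.mk (p e.1)
  let S : Finset (FreeGroup α) := (Γ.filter fun e => reach e.1).image gen
  refine ⟨S, le_antisymm ?_ ?_⟩
  · rw [Subgroup.closure_le]
    intro s hs
    rw [Finset.mem_coe, Finset.mem_image] at hs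
    obtain ⟨⟨w, x⟩, he, rfl⟩ := hs
    rw [Finset.mem_filter] at he
    obtain ⟨he1, he2⟩ := he
    obtain ⟨h1, h2⟩ := hp w he2
    have hstep : Pth τ (Γ : Set (Ω × α)) ((x, true) :: p w) u := by
      rw [pth_cons]
      refine ⟨?_, h1⟩
      rw [h2]
      have : edgeOf τ (x, true) w = (w, x) := by simp [edgeOf]
      rw [this]; exact he1
    have hwalk : walk τ ((x, true) :: p w) u = τ x w := by
      rw [walk_cons, h2]; simp [step]
    have hr2 : reach (τ x w) := ⟨_, hstep, hwalk⟩
    obtain ⟨h3, h4⟩ := hp _ hr2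
    obtain ⟨h5, h6⟩ := h3.inv h4
    refine ⟨invL (p (τ x w)) ++ ((x, true) :: p w), ?_, ?_, ?_⟩
    · exact hstep.app hwalk h5
    · exact walk_app hwalk h6
    · show FreeGroup.mk (invL (p (τ x w)) ++ ([(x, true)] ++ p w)) = _
      rw [mk_app, mk_app, mk_invL, ← mul_assoc]
  · have key : ∀ L : List (α × Bool), Pth τ (Γ : Set (Ω × α)) L u →
        (FreeGroup.mk (p (walk τ L u)))⁻¹ * FreeGroup.mk L ∈
          Subgroup.closure (S : Set (FreeGroup α)) := by
      intro L
      induction L with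
      | nil =>
        intro _
        rw [walk_nil, hpu u rfl]
        have : (FreeGroup.mk ([] : List (α × Bool)))⁻¹ * FreeGroup.mk [] = 1 := inv_mul_cancel _
        rw [this]
        exact Subgroup.one_mem _
      | cons l L ih =>
        intro hL
        have hL' := hL
        rw [pth_cons] at hL
        obtain ⟨h1, h2⟩ := hL
        have h3 := ih h2
        set w := walk τ L u with hw
        have hsplit : (FreeGroup.mk (l :: L) : FreeGroup α) = FreeGroup.mk [l] * FreeGroup.mk L :=
          mk_app [l] L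
        rw [walk_cons, ← hw, hsplit]
        have hfac : (FreeGroup.mk (p (step τ l w)))⁻¹ * (FreeGroup.mk [l] * FreeGroup.mk L) =
            ((FreeGroup.mk (p (step τ l w)))⁻¹ * FreeGroup.mk [l] * FreeGroup.mk (p w)) *
              ((FreeGroup.mk (p w))⁻¹ * FreeGroup.mk L) := by group
        rw [hfac]
        refine Subgroup.mul_mem _ ?_ h3
        rcases l with ⟨x, b⟩
        cases b
        · have h4 : edgeOf τ (x, false) w = ((τ x).symm w, x) := by simp [edgeOf]
          have h5 : step τ (x, false) w = (τ x).symm w := by simp [step]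
          rw [h4] at h1
          rw [h5]
          have hr : reach ((τ x).symm w) := ⟨_, hL', by rw [walk_cons, ← hw, h5]⟩
          have hmem : gen ((τ x).symm w, x) ∈ (S : Set (FreeGroup α)) := by
            rw [Finset.mem_coe, Finset.mem_image]
            exact ⟨_, Finset.mem_filter.2 ⟨h1, hr⟩, rfl⟩
          have h6 := Subgroup.inv_mem _ (Subgroup.subset_closure hmem)
          have h7 : (gen ((τ x).symm w, x))⁻¹ =
              (FreeGroup.mk (p ((τ x).symm w)))⁻¹ * FreeGroup.mk [(x, false)] *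
                FreeGroup.mk (p w) := by
            simp only [gen, Equiv.apply_symm_apply]
            have h8 : (FreeGroup.mk [(x, true)] : FreeGroup α)⁻¹ = FreeGroup.mk [(x, false)] := by
              rw [FreeGroup.inv_mk]; rfl
            rw [mul_inv_rev, mul_inv_rev, inv_inv, h8, mul_assoc]
          rw [← h7]
          exact h6
        · have h4 : edgeOf τ (x, true) w = (w, x) := by simp [edgeOf]
          have h5 : step τ (x, true) w = τ x w := by simp [step]
          rw [h4] at h1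
          rw [h5]
          have hr : reach w := ⟨L, h2, rfl⟩
          have hmem : gen (w, x) ∈ (S : Set (FreeGroup α)) := by
            rw [Finset.mem_coe, Finset.mem_image]
            exact ⟨_, Finset.mem_filter.2 ⟨h1, hr⟩, rfl⟩
          exact Subgroup.subset_closure hmem
    rintro _ ⟨L, h1, h2, rfl⟩
    have h3 := key L h1
    rw [h2, hpu u rfl] at h3
    have h4 : (FreeGroup.mk ([] : List (α × Bool)))⁻¹ * FreeGroup.mk L = FreeGroup.mk L := by
      have : (FreeGroup.mk ([] : List (α × Bool)) : FreeGroup α) = 1 := rfl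
      rw [this, inv_one, one_mul]
    rwa [h4] at h3

/-- Marshall Hall: finitely generated subgroups of free groups are closed. -/
theorem lerf (P : Subgroup (FreeGroup α)) (hP : P.FG) (q : FreeGroup α) (hq : q ∉ P) :
    ∃ (X : Type) (_ : Finite X) (ρ : FreeGroup α →* Equiv.Perm X) (v : X),
      (∀ s ∈ P, ρ s v = v) ∧ ρ q v ≠ v := by
  classical
  obtain ⟨S, hS⟩ := hP
  let τ : α → Equiv.Perm (FreeGroup α ⧸ P) := fun x =>
    MulAction.toPermHom (FreeGroup α) (FreeGroup α ⧸ P) (FreeGroup.of x)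
  let v : FreeGroup α ⧸ P := ((1 : FreeGroup α) : FreeGroup α ⧸ P)
  have hlift : FreeGroup.lift τ = MulAction.toPermHom (FreeGroup α) (FreeGroup α ⧸ P) := by
    apply FreeGroup.ext_hom
    intro x
    simp [τ]
  have hwalk : ∀ L : List (α × Bool), walk τ L v =
      ((FreeGroup.mk L : FreeGroup α) : FreeGroup α ⧸ P) := by
    intro L
    rw [← lift_mk_eq_walk, hlift]
    show (FreeGroup.mk L : FreeGroup α) • v = _
    show ((FreeGroup.mk L * 1 : FreeGroup α) : FreeGroup α ⧸ P) = _
    rw [mul_one]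
  -- the finite set of vertices
  let T : Finset (FreeGroup α) := insert q S
  let V : Finset (FreeGroup α ⧸ P) :=
    insert v (T.biUnion fun s => (s.toWord.tails.map fun L => walk τ L v).toFinset)
  have hVmem : ∀ s ∈ T, ∀ L : List (α × Bool), L <:+ s.toWord → walk τ L v ∈ V := by
    intro s hs L hL
    refine Finset.mem_insert_of_mem (Finset.mem_biUnion.2 ⟨s, hs, ?_⟩)
    rw [List.mem_toFinset, List.mem_map]
    exact ⟨L, (List.mem_tails _ _).2 hL, rfl⟩
  have hv : v ∈ V := Finset.mem_insert_self _ _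
  let X : Type := {w // w ∈ V}
  have hXfin : Finite X := by
    show Finite {w // w ∈ V}
    infer_instance
  have hex : ∀ x : α, ∃ σ : Equiv.Perm X, ∀ (w : X) (hw : τ x w.1 ∈ V),
      σ w = ⟨τ x w.1, hw⟩ := by
    intro x
    obtain ⟨σ, hσ⟩ := ext_perm {w : X | τ x w.1 ∈ V}
      (fun w => if h : τ x w.1 ∈ V then ⟨τ x w.1, h⟩ else w) (by
        intro w hw w' hw' h
        have h1 : τ x w.1 ∈ V := hw
        have h2 : τ x w'.1 ∈ V := hw'
        simp only [h1, h2, dif_pos] at h
        have h3 := congrArg Subtype.val h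
        exact Subtype.ext ((τ x).injective h3))
    refine ⟨σ, fun w hw => ?_⟩
    rw [hσ w hw]
    simp only [hw, dif_pos]
  choose σ hσ using hex
  have hfollow : ∀ s ∈ T, ∀ L : List (α × Bool), L <:+ s.toWord →
      (walk σ L (⟨v, hv⟩ : X)).1 = walk τ L v := by
    intro s hs L
    induction L with
    | nil => intro _; rfl
    | cons l L ih =>
      intro hL
      have hL' : L <:+ s.toWord := (List.suffix_cons l L).trans hL
      have h1 := ih hL'
      have h2 := hVmem s hs _ hL
      have h3 := hVmem s hs _ hL'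
      rw [walk_cons] at h2
      rw [walk_cons, walk_cons]
      have h4 : walk σ L (⟨v, hv⟩ : X) = ⟨walk τ L v, h3⟩ := Subtype.ext h1
      rw [h4]
      rcases l with ⟨x, b⟩
      cases b
      · have e1 : step τ (x, false) (walk τ L v) = (τ x).symm (walk τ L v) := by simp [step]
        have e2 : step σ (x, false) (⟨walk τ L v, h3⟩ : X) =
            (σ x).symm ⟨walk τ L v, h3⟩ := by simp [step]
        rw [e1] at h2
        rw [e1, e2]
        have h5 := hσ x ⟨(τ x).symm (walk τ L v), h2⟩ (by simpa using h3)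
        have h6 : (σ x).symm ⟨walk τ L v, h3⟩ = (⟨(τ x).symm (walk τ L v), h2⟩ : X) := by
          rw [Equiv.symm_apply_eq, h5]
          exact Subtype.ext (by simp)
        rw [h6]
      · have e1 : step τ (x, true) (walk τ L v) = τ x (walk τ L v) := by simp [step]
        have e2 : step σ (x, true) (⟨walk τ L v, h3⟩ : X) =
            σ x ⟨walk τ L v, h3⟩ := by simp [step]
        rw [e1] at h2
        rw [e1, e2, hσ x ⟨walk τ L v, h3⟩ h2]
  have hρ : ∀ s ∈ T, (FreeGroup.lift σ s (⟨v, hv⟩ : X)).1 = ((s : FreeGroup α) :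
      FreeGroup α ⧸ P) := by
    intro s hs
    have h1 := lift_mk_eq_walk σ s.toWord (⟨v, hv⟩ : X)
    rw [FreeGroup.mk_toWord] at h1
    rw [h1, hfollow s hs _ (List.suffix_refl _), hwalk, FreeGroup.mk_toWord]
  refine ⟨X, hXfin, FreeGroup.lift σ, ⟨v, hv⟩, ?_, ?_⟩
  · intro s hs
    rw [← hS] at hs
    induction hs using Subgroup.closure_induction with
    | mem s hs =>
      have h1 := hρ s (Finset.mem_insert_of_mem hs)
      refine Subtype.ext (h1.trans ?_)
      have h2 : s ∈ P := by rw [← hS]; exact Subgroup.subset_closure hs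
      show ((s : FreeGroup α) : FreeGroup α ⧸ P) = ((1 : FreeGroup α) : FreeGroup α ⧸ P)
      rw [eq_comm, QuotientGroup.eq]
      simpa using h2
    | one => simp
    | mul a b _ _ ha hb => rw [map_mul, Equiv.Perm.mul_apply, hb, ha]
    | inv a _ ha =>
      rw [map_inv, Equiv.Perm.inv_def, Equiv.symm_apply_eq, ha]
  · intro h
    have h1 := hρ q (Finset.mem_insert_self _ _)
    rw [h] at h1
    have h2 : ((1 : FreeGroup α) : FreeGroup α ⧸ P) = ((q : FreeGroup α) : FreeGroup α ⧸ P) := h1
    rw [QuotientGroup.eq] at h2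
    exact hq (by simpa using h2)

/-- A finitely generated subgroup of a free group is not conjugate to a proper overgroup. -/
theorem lerf_conj (P : Subgroup (FreeGroup α)) (hP : P.FG) (g : FreeGroup α)
    (h : ∀ q ∈ P, g⁻¹ * q * g ∈ P) (q : FreeGroup α) (hq : g⁻¹ * q * g ∈ P) : q ∈ P := by
  by_contra hcon
  obtain ⟨X, hX, ρ, v, h1, h2⟩ := lerf P hP q hcon
  let A : Set X := {x | ∀ s ∈ P, ρ s x = x}
  let B : Set X := {x | ∀ r : FreeGroup α, g⁻¹ * r * g ∈ P → ρ r x = x}
  have hBA : B ⊆ A := fun x hx s hs => hx s (h s hs)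
  have hAB : ∀ x ∈ A, ρ g x ∈ B := by
    intro x hx r hr
    have h3 := hx _ hr
    rw [map_mul, map_mul, Equiv.Perm.mul_apply, Equiv.Perm.mul_apply, map_inv,
      Equiv.Perm.inv_def, Equiv.symm_apply_eq] at h3
    exact h3
  have hcard : A.ncard ≤ B.ncard :=
    Set.ncard_le_ncard_of_injOn (ρ g) hAB (fun a _ b _ hab => (ρ g).injective hab) (Set.toFinite B)
  have hEq : B = A := Set.eq_of_subset_of_ncard_le hBA hcard (Set.toFinite A)
  have hvA : v ∈ A := h1
  rw [← hEq] at hvA
  exact h2 (hvA q hq)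

end Pool.Agent.Helper122
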