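import Pool.Agent.Helper122.Cohop.Defs

set_option autoImplicit false

namespace Pool.Agent.Helper122

variable {α : Type} {Ω : Type}



section hb
variable {K : Type} [Field K]

/-- Evaluation at an edge. -/
noncomputable def hbEv (K : Type) [Field K] (Γ : Finset (Ω × α)) (e : Ω × α) : (Γ → K) →ₗ[K] K := by
  classical exact if h : e ∈ Γ then LinearMap.proj ⟨e, h⟩ else 0

/-- Period functional. -/
noncomputable def hbPer (K : Type) [Field K] (τ : α → Equiv.Perm Ω) (Γ : Finset (Ω × α)) :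
    List (α × Bool) → Ω → ((Γ → K) →ₗ[K] K)
  | [], _ => 0
  | l :: L, ω => (if l.2 then hbEv K Γ (edgeOf τ l (walk τ L ω))
      else - hbEv K Γ (edgeOf τ l (walk τ L ω))) + hbPer K τ Γ L ω

theorem hbPer_append (τ : α → Equiv.Perm Ω) (Γ : Finset (Ω × α)) (A B : List (α × Bool)) (ω : Ω) :
    hbPer K τ Γ (A ++ B) ω = hbPer K τ Γ A (walk τ B ω) + hbPer K τ Γ B ω := by
  induction A with
  | nil => simp [hbPer]
  | cons l A ih => simp [hbPer, ih, walk_append, add_assoc]

theorem pr_hbPer (τ : α → Equiv.Perm Ω) (Γ : Finset (Ω × α)) (χ : Γ → K) (L : List (α × Bool))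
    (ω : Ω) :
    pr τ (fun e => Multiplicative.ofAdd (hbEv K Γ e χ)) L ω =
      Multiplicative.ofAdd (hbPer K τ Γ L ω χ) := by
  induction L with
  | nil => simp [hbPer]
  | cons l L ih =>
    rw [pr_cons, ih, hbPer]
    simp only [lab]
    split_ifs <;> simp [ofAdd_add, ofAdd_neg]

theorem hbPer_rpow_walk (τ : α → Equiv.Perm Ω) (Γ : Finset (Ω × α)) (R : List (α × Bool)) (n : ℕ)
    (c : Ω) (hc : walk τ (rpow R n) c = c) :
    hbPer K τ Γ (rpow R n) (walk τ R c) = hbPer K τ Γ (rpow R n) c := by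
  have h1 : hbPer K τ Γ (rpow R (n + 1)) c = hbPer K τ Γ R c + hbPer K τ Γ (rpow R n) c := by
    rw [rpow_succ, hbPer_append, hc]
  have h2 : hbPer K τ Γ (rpow R (n + 1)) c =
      hbPer K τ Γ (rpow R n) (walk τ R c) + hbPer K τ Γ R c := by
    rw [rpow_succ', hbPer_append]
  rw [h1, add_comm] at h2
  exact (add_right_cancel h2).symm

theorem hbPer_rpow_fix (τ : α → Equiv.Perm Ω) (Γ : Finset (Ω × α)) (R : List (α × Bool)) (n : ℕ)
    (c : Ω) (hc : walk τ R c = c) :
    walk τ (rpow R n) c = c ∧ hbPer K τ Γ (rpow R n) c = n • hbPer K τ Γ R c := by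
  induction n with
  | zero => simp [hbPer]
  | succ n ih =>
    rw [rpow_succ]
    refine ⟨by rw [walk_append, ih.1, hc], ?_⟩
    rw [hbPer_append, ih.1, ih.2, succ_nsmul, add_comm]

/-- Functionals killed on all generators have no periods. -/
theorem hb_closed {Q : Type} [CommGroup Q] (τ : α → Equiv.Perm Ω) (Γ : Set (Ω × α))
    (μ : Ω × α → Q) (u : Ω) (hconn : Conn τ Γ u) (W : List (α × Bool))
    (hW : ∀ c ∈ CC τ Γ W, pr τ μ W c = 1)
    {ι : Type} (q : ι → FreeGroup α)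
    (hq : ∀ i, ∃ L, walk τ L u = u ∧ FreeGroup.mk L = q i ∧ pr τ μ L u = 1)
    (hgen : ∀ g ∈ PG τ Γ u, ∃ h ∈ Subgroup.closure (Set.range q), h⁻¹ * g ∈ RG τ Γ W u) :
    ∀ ω L, (∀ e ∈ edges τ L ω, e ∈ Γ) → walk τ L ω = ω → pr τ μ L ω = 1 := by
  classical
  -- stabiliser
  let S : Subgroup (FreeGroup α) :=
    (MulAction.stabilizer (Equiv.Perm (Ω × Q)) ((u, 1) : Ω × Q)).comap
      (FreeGroup.lift (skew τ μ))
  have hS : ∀ g, g ∈ S ↔ (FreeGroup.lift (skew τ μ) g) (u, 1) = (u, 1) := by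
    intro g; rfl
  have hSmk : ∀ L, FreeGroup.mk L ∈ S ↔ (walk τ L u = u ∧ pr τ μ L u = 1) := by
    intro L
    rw [hS, lift_mk_eq_walk, walk_skew, Prod.mk.injEq, mul_one]
  have hRG : RG τ Γ W u ≤ S := by
    unfold RG
    rw [Subgroup.closure_le]
    rintro _ ⟨L, h1, h2, rfl⟩
    have e1 : (FreeGroup.mk L)⁻¹ * FreeGroup.mk W * FreeGroup.mk L =
        (FreeGroup.mk (invL L ++ (W ++ L)) : FreeGroup α) := by
      rw [mk_app, mk_app, mk_invL, mul_assoc]
    rw [SetLike.mem_coe, e1, hSmk]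
    have hw : walk τ (W ++ L) u = walk τ L u := by rw [walk_append]; exact h2.1
    refine ⟨by rw [walk_append, hw, walk_invL], ?_⟩
    rw [pr_append, hw, pr_invL, pr_append, hW _ h2, one_mul, inv_mul_cancel]
  have hQ : Subgroup.closure (Set.range q) ≤ S := by
    rw [Subgroup.closure_le]
    rintro _ ⟨i, rfl⟩
    obtain ⟨L, h1, h2, h3⟩ := hq i
    rw [SetLike.mem_coe, ← h2, hSmk]
    exact ⟨h1, h3⟩
  have hbase : ∀ L, Pth τ Γ L u → walk τ L u = u → pr τ μ L u = 1 := by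
    intro L h1 h2
    obtain ⟨h, hh, hh'⟩ := hgen (FreeGroup.mk L) ⟨L, h1, h2, rfl⟩
    have : FreeGroup.mk L ∈ S := by
      have := S.mul_mem (hQ hh) (hRG hh')
      rwa [mul_inv_cancel_left] at this
    exact ((hSmk L).1 this).2
  intro ω L hL hL'
  rcases L with _ | ⟨l, L'⟩
  · rfl
  -- a path from `u` to `ω`
  obtain ⟨P, hP1, hP2⟩ : ∃ P, Pth τ Γ P u ∧ walk τ P u = ω := by
    have he : edgeOf τ l (walk τ L' ω) ∈ Γ := hL _ (by simp)
    obtain ⟨P, h1, h2⟩ := hconn _ he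
    rcases l with ⟨x, b⟩
    cases b
    · refine ⟨P, h1, ?_⟩
      rw [h2]
      simpa [edgeOf, step] using hL'
    · refine ⟨(x, true) :: P, ?_, ?_⟩
      · rw [pth_cons]
        refine ⟨?_, h1⟩
        rw [h2]
        simpa [edgeOf] using he
      · rw [walk_cons, h2]
        simpa [edgeOf, step] using hL'
  have hw : walk τ ((l :: L') ++ P) u = walk τ P u := by rw [walk_append, hP2]; exact hL'
  have key := hbase (invL P ++ ((l :: L') ++ P)) (by
      rw [pth_append, hw, pth_invL]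
      refine ⟨hP1, ?_⟩
      rw [pth_append, hP2]
      exact ⟨hL, hP1⟩) (by rw [walk_append, hw, walk_invL])
  rw [pr_append, hw, pr_invL, pr_append, hP2, mul_comm (pr τ μ (l :: L') ω),
    inv_mul_cancel_left] at key
  exact key

end hb

/-- Homology bound modulo a prime dividing the exponent. -/
theorem homology_bound (p : ℕ) [Fact p.Prime] (n : ℕ) (hn : 1 ≤ n) (hp : p ∣ n)
    (R : List (α × Bool)) (τ : α → Equiv.Perm Ω) (Γ : Finset (Ω × α)) (u : Ω)
    (hconn : Conn τ (Γ : Set (Ω × α)) u) (C V : Finset Ω)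
    (hC : ∀ c, c ∈ C ↔ c ∈ CC τ (Γ : Set (Ω × α)) (rpow R n))
    (hV : ∀ w, w ∈ V ↔ ∃ e ∈ Γ, w = e.1 ∨ w = τ e.2 e.1)
    (m : ℕ) (q : Fin m → FreeGroup α) (hq : ∀ i, q i ∈ PG τ (Γ : Set (Ω × α)) u)
    (hgen : ∀ g ∈ PG τ (Γ : Set (Ω × α)) u, ∃ h ∈ Subgroup.closure (Set.range q),
      h⁻¹ * g ∈ RG τ (Γ : Set (Ω × α)) (rpow R n) u) :
    2 * Γ.card ≤ C.card + 2 * m + 2 * V.card := by
  classical
  let lc : Ω → ((Γ → ZMod p) →ₗ[ZMod p] ZMod p) := fun c => hbPer (ZMod p) τ Γ (rpow R n) c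
  let C' : Finset Ω := C.filter (fun c => lc c ≠ 0)
  let D : Finset ((Γ → ZMod p) →ₗ[ZMod p] ZMod p) := C'.image lc
  have hD : 2 * D.card ≤ C.card := by
    have h1 : C'.card = ∑ d ∈ D, (C'.filter (fun c => lc c = d)).card :=
      Finset.card_eq_sum_card_fiberwise (fun x hx => Finset.mem_image_of_mem lc hx)
    have h2 : ∑ _d ∈ D, 2 ≤ ∑ d ∈ D, (C'.filter (fun c => lc c = d)).card := by
      apply Finset.sum_le_sum
      intro d hd
      obtain ⟨c, hc, rfl⟩ := Finset.mem_image.1 hd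
      have hcC := (Finset.mem_filter.1 hc).1
      have hc0 := (Finset.mem_filter.1 hc).2
      have hcc := (hC c).1 hcC
      have hw : lc (walk τ R c) = lc c := hbPer_rpow_walk τ Γ R n c hcc.1
      have hne : walk τ R c ≠ c := by
        intro h
        apply hc0
        have h3 := (hbPer_rpow_fix (K := ZMod p) τ Γ R n c h).2
        show hbPer (ZMod p) τ Γ (rpow R n) c = 0
        rw [h3, ← Nat.cast_smul_eq_nsmul (ZMod p), (ZMod.natCast_eq_zero_iff n p).2 hp, zero_smul]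
      have : ({c, walk τ R c} : Finset Ω) ⊆ C'.filter (fun c' => lc c' = lc c) := by
        intro x hx
        rw [Finset.mem_insert, Finset.mem_singleton] at hx
        rcases hx with rfl | rfl
        · exact Finset.mem_filter.2 ⟨hc, rfl⟩
        · refine Finset.mem_filter.2 ⟨Finset.mem_filter.2 ⟨(hC _).2 (CC_step hn hcc), ?_⟩, hw⟩
          rw [hw]; exact hc0
      calc 2 = ({c, walk τ R c} : Finset Ω).card := (Finset.card_pair hne.symm).symm
        _ ≤ _ := Finset.card_le_card this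
    have h3 : C'.card ≤ C.card := Finset.card_filter_le _ _
    rw [Finset.sum_const, smul_eq_mul] at h2
    omega
  -- words of the generators
  choose wd hwd1 hwd2 hwd3 using hq
  let Φ : (Γ → ZMod p) →ₗ[ZMod p] ((D → ZMod p) × (Fin m → ZMod p)) :=
    LinearMap.prod (LinearMap.pi (fun d : D => (d : (Γ → ZMod p) →ₗ[ZMod p] ZMod p)))
      (LinearMap.pi (fun i => hbPer (ZMod p) τ Γ (wd i) u))
  let δ : (V → ZMod p) →ₗ[ZMod p] (Γ → ZMod p) :=
    LinearMap.pi (fun e : Γ =>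
      (LinearMap.proj ⟨τ e.1.2 e.1.1, (hV _).2 ⟨e.1, e.2, Or.inr rfl⟩⟩ : (V → ZMod p) →ₗ[ZMod p] ZMod p)
      - LinearMap.proj ⟨e.1.1, (hV _).2 ⟨e.1, e.2, Or.inl rfl⟩⟩)
  have hker : LinearMap.ker Φ ≤ LinearMap.range δ := by
    intro χ hχ
    rw [LinearMap.mem_ker] at hχ
    have hχ1 : ∀ d : D, (d : (Γ → ZMod p) →ₗ[ZMod p] ZMod p) χ = 0 := by
      intro d
      exact congrFun (congrArg Prod.fst hχ) d
    have hχ2 : ∀ i, hbPer (ZMod p) τ Γ (wd i) u χ = 0 := by
      intro i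
      exact congrFun (congrArg Prod.snd hχ) i
    have hclosed := hb_closed τ (Γ : Set (Ω × α))
      (fun e => Multiplicative.ofAdd (hbEv (ZMod p) Γ e χ)) u hconn (rpow R n) (by
        intro c hc
        rw [pr_hbPer]
        by_cases h0 : lc c = 0
        · have : hbPer (ZMod p) τ Γ (rpow R n) c = 0 := h0
          rw [this]; simp
        · have hcD : lc c ∈ D := Finset.mem_image_of_mem lc
            (Finset.mem_filter.2 ⟨(hC c).2 hc, h0⟩)
          have : hbPer (ZMod p) τ Γ (rpow R n) c χ = 0 := hχ1 ⟨lc c, hcD⟩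
          rw [this]; simp) q (by
        intro i
        refine ⟨wd i, hwd2 i, hwd3 i, ?_⟩
        rw [pr_hbPer, hχ2]; simp) hgen
    obtain ⟨φ, hφ⟩ := exists_pot τ (Γ : Set (Ω × α)) _ hclosed
    refine ⟨fun v => Multiplicative.toAdd (φ v.1), ?_⟩
    ext e
    have := hφ e.1.1 e.1.2 e.2
    have h2 := congrArg Multiplicative.toAdd this
    rw [toAdd_ofAdd, toAdd_mul, toAdd_inv] at h2
    have h3 : hbEv (ZMod p) Γ (e.1.1, e.1.2) χ = χ e := by
      have : (e.1.1, e.1.2) ∈ Γ := e.2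
      unfold hbEv
      rw [dif_pos this]
      rfl
    rw [h3] at h2
    rw [h2]
    show Multiplicative.toAdd (φ (τ e.1.2 e.1.1)) - Multiplicative.toAdd (φ e.1.1) = _
    rw [sub_eq_add_neg]
  have hfin1 : Module.finrank (ZMod p) (LinearMap.range Φ) + Module.finrank (ZMod p) (LinearMap.ker Φ)
      = Γ.card := by
    rw [LinearMap.finrank_range_add_finrank_ker, Module.finrank_fintype_fun_eq_card,
      Fintype.card_coe]
  have hfin2 : Module.finrank (ZMod p) (LinearMap.range Φ) ≤ D.card + m := by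
    refine (Submodule.finrank_le _).trans ?_
    rw [Module.finrank_prod, Module.finrank_fintype_fun_eq_card,
      Module.finrank_fintype_fun_eq_card, Fintype.card_coe, Fintype.card_fin]
  have hfin3 : Module.finrank (ZMod p) (LinearMap.ker Φ) ≤ V.card := by
    refine (Submodule.finrank_mono hker).trans ?_
    refine (LinearMap.finrank_range_le _).trans ?_
    rw [Module.finrank_fintype_fun_eq_card, Fintype.card_coe]
  omega

end Pool.Agent.Helper122
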