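import Pool.Agent.Helper122.Cohop.Defs

set_option autoImplicit false

namespace Pool.Agent.Helper122

variable {α : Type} {Ω : Type}



/-- Pushing an irreducible connected edge set forward. -/
theorem irr_push {Ω' : Type} (τ : α → Equiv.Perm Ω) (τ' : α → Equiv.Perm Ω')
    (R : List (α × Bool)) (n : ℕ) (hn : 1 ≤ n) (Δ : Finset (Ω × α)) (u : Ω)
    (hconn : Conn τ (Δ : Set (Ω × α)) u) (hirr : Irr τ (Δ : Set (Ω × α)) R n) (u' : Ω')
    (hst : ∀ L, Pth τ (Δ : Set (Ω × α)) L u → walk τ L u = u → walk τ' L u' = u') :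
    ∃ Δ' : Finset (Ω' × α), Conn τ' (Δ' : Set (Ω' × α)) u' ∧ Irr τ' (Δ' : Set (Ω' × α)) R n ∧
      ∀ L, Pth τ (Δ : Set (Ω × α)) L u → Pth τ' (Δ' : Set (Ω' × α)) L u' := by
  classical
  have hinv : ∀ L : List (α × Bool), invL (invL L) = L := by
    intro L
    simp only [invL, List.map_reverse, List.reverse_reverse, List.map_map]
    conv_rhs => rw [← List.map_id L]
    apply List.map_congr_left
    intro l _
    simp
  have hwd : ∀ L L', Pth τ (Δ : Set (Ω × α)) L u → Pth τ (Δ : Set (Ω × α)) L' u →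
      walk τ L u = walk τ L' u → walk τ' L u' = walk τ' L' u' := by
    intro L L' h1 h2 h3
    obtain ⟨h4, h5⟩ := h2.inv rfl
    have h6 := hst (invL L' ++ L) (h1.app h3 h4) (walk_app h3 h5)
    rw [walk_append] at h6
    have h7 := walk_invL τ' (invL L') (walk τ' L u')
    rw [h6, hinv] at h7
    exact h7.symm
  let f : Ω → Ω' := fun w =>
    if h : ∃ L, Pth τ (Δ : Set (Ω × α)) L u ∧ walk τ L u = w then walk τ' h.choose u' else u'
  have hf : ∀ L, Pth τ (Δ : Set (Ω × α)) L u → f (walk τ L u) = walk τ' L u' := by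
    intro L hL
    have h : ∃ L', Pth τ (Δ : Set (Ω × α)) L' u ∧ walk τ L' u = walk τ L u := ⟨L, hL, rfl⟩
    simp only [f]
    rw [dif_pos h]
    exact hwd _ _ h.choose_spec.1 hL h.choose_spec.2
  have hf2 : ∀ w L0 L, Pth τ (Δ : Set (Ω × α)) L0 u → walk τ L0 u = w →
      Pth τ (Δ : Set (Ω × α)) L w → walk τ' L (f w) = f (walk τ L w) := by
    intro w L0 L h1 h2 h3
    subst h2
    rw [hf L0 h1, ← walk_append, ← walk_append, hf (L ++ L0) (h1.app rfl h3)]
  have hedge : ∀ w L0 l, Pth τ (Δ : Set (Ω × α)) L0 u → walk τ L0 u = w →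
      edgeOf τ l w ∈ (Δ : Set (Ω × α)) →
      edgeOf τ' l (f w) = (f (edgeOf τ l w).1, (edgeOf τ l w).2) := by
    intro w L0 l h1 h2 h3
    have h4 := hf2 w L0 [l] h1 h2 (by rw [pth_cons]; exact ⟨h3, Pth.nil _⟩)
    rcases l with ⟨x, b⟩
    cases b
    · simp only [walk_cons, walk_nil, step, Bool.false_eq_true, if_false] at h4
      simp only [edgeOf, Bool.false_eq_true, if_false]
      rw [h4]
    · simp only [edgeOf, if_true]
  have hmem : ∀ e ∈ Δ, (f e.1, e.2) ∈ ((Δ.image (fun e => (f e.1, e.2)) : Finset (Ω' × α)) :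
      Set (Ω' × α)) := by
    intro e he
    rw [Finset.mem_coe, Finset.mem_image]
    exact ⟨e, he, rfl⟩
  have hpth : ∀ w L0 L, Pth τ (Δ : Set (Ω × α)) L0 u → walk τ L0 u = w →
      Pth τ (Δ : Set (Ω × α)) L w →
      Pth τ' ((Δ.image (fun e => (f e.1, e.2)) : Finset (Ω' × α)) : Set (Ω' × α)) L (f w) := by
    intro w L0 L h1 h2 h3
    induction L with
    | nil => exact Pth.nil _
    | cons l L ih =>
      rw [pth_cons] at h3
      rw [pth_cons]
      refine ⟨?_, ih h3.2⟩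
      rw [hf2 w L0 L h1 h2 h3.2, hedge (walk τ L w) (L ++ L0) l (h1.app h2 h3.2)
        (by rw [walk_append, h2]) h3.1]
      exact hmem _ h3.1
  have hfu : f u = u' := by
    have := hf [] (Pth.nil _)
    simpa using this
  -- reachability of relator vertices
  have hreach : ∀ e ∈ Δ, ∀ c i, c ∈ CC τ (Δ : Set (Ω × α)) (rpow R n) → Cov τ R c i e →
      ∃ L, Pth τ (Δ : Set (Ω × α)) L u ∧ walk τ L u = c := by
    intro e he c i hc hcov
    obtain ⟨L, hL1, hL2⟩ := hconn e he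
    obtain ⟨A, B, l, h1, h2, h3⟩ := hcov
    have hR : Pth τ (Δ : Set (Ω × α)) R c := CC_pth hn hc
    rw [h1, pth_append] at hR
    have hB : Pth τ (Δ : Set (Ω × α)) B c := (pth_cons.1 hR.2).2
    obtain ⟨hB1, hB2⟩ := hB.inv rfl
    have hkey : ∃ L', Pth τ (Δ : Set (Ω × α)) L' u ∧ walk τ L' u = walk τ B c := by
      rcases l with ⟨x, b⟩
      cases b
      · simp only [edgeOf, Bool.false_eq_true, if_false] at h3
        have h4 : e = (e.1, x) := by rw [h3]
        have h5 : Pth τ (Δ : Set (Ω × α)) [(x, true)] e.1 := by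
          rw [pth_cons]
          refine ⟨?_, Pth.nil _⟩
          simp only [edgeOf, if_true, walk_nil]
          rw [← h4]; exact he
        refine ⟨[(x, true)] ++ L, hL1.app hL2 h5, ?_⟩
        rw [walk_append, hL2]
        simp only [walk_cons, walk_nil, step, if_true]
        rw [h3]
        simp
      · simp only [edgeOf, if_true] at h3
        refine ⟨L, hL1, ?_⟩
        rw [hL2, h3]
    obtain ⟨L', h4, h5⟩ := hkey
    exact ⟨invL B ++ L', h4.app h5 hB1, walk_app h5 hB2⟩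
  have hCC : ∀ c L, Pth τ (Δ : Set (Ω × α)) L u → walk τ L u = c →
      c ∈ CC τ (Δ : Set (Ω × α)) (rpow R n) →
      f c ∈ CC τ' ((Δ.image (fun e => (f e.1, e.2)) : Finset (Ω' × α)) : Set (Ω' × α))
        (rpow R n) := by
    intro c L h1 h2 h3
    refine ⟨?_, hpth c L _ h1 h2 h3.2⟩
    rw [hf2 c L _ h1 h2 h3.2, h3.1]
  have hCov : ∀ c L i e, Pth τ (Δ : Set (Ω × α)) L u → walk τ L u = c →
      c ∈ CC τ (Δ : Set (Ω × α)) (rpow R n) → Cov τ R c i e → Cov τ' R (f c) i (f e.1, e.2) := by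
    intro c L i e h1 h2 h3 h4
    obtain ⟨A, B, l, h5, h6, h7⟩ := h4
    refine ⟨A, B, l, h5, h6, ?_⟩
    have hR : Pth τ (Δ : Set (Ω × α)) R c := CC_pth hn h3
    rw [h5, pth_append] at hR
    have hB := pth_cons.1 hR.2
    rw [hf2 c L B h1 h2 hB.2, hedge (walk τ B c) (B ++ L) l (h1.app h2 hB.2)
        (by rw [walk_append, h2]) hB.1, ← h7]
  refine ⟨Δ.image (fun e => (f e.1, e.2)), ?_, ?_, ?_⟩
  · intro e' he'
    rw [Finset.mem_coe, Finset.mem_image] at he'
    obtain ⟨e, he, rfl⟩ := he'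
    obtain ⟨L, h1, h2⟩ := hconn e he
    refine ⟨L, ?_, ?_⟩
    · rw [← hfu]; exact hpth u [] L (Pth.nil _) rfl h1
    · rw [← hf L h1, h2]
  · intro e' he'
    rw [Finset.mem_coe, Finset.mem_image] at he'
    obtain ⟨e, he, rfl⟩ := he'
    obtain ⟨c, c', i, j, h1, h2, h3, h4, h5⟩ := hirr e he
    obtain ⟨L, h6, h7⟩ := hreach e he c i h1 h4
    obtain ⟨L', h8, h9⟩ := hreach e he c' j h2 h5
    exact ⟨f c, f c', i, j, hCC c L h6 h7 h1, hCC c' L' h8 h9 h2, h3,
      hCov c L i e h6 h7 h1 h4, hCov c' L' j e h8 h9 h2 h5⟩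
  · intro L hL
    rw [← hfu]
    exact hpth u [] L (Pth.nil _) rfl hL

end Pool.Agent.Helper122
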