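import Pool.Agent.Helper122.Cohop.Red3
import Pool.Agent.Helper122.Cohop.Compl
import Pool.Agent.Helper122.Cohop.Push
import Pool.Agent.Helper122.Cohop.Fin

set_option autoImplicit false

namespace Pool.Agent.Helper122

variable {α : Type} {Ω : Type} {G : Type} [Group G]

theorem exists_mk' (w : FreeGroup α) : ∃ L, FreeGroup.mk L = w := by
  classical
  exact ⟨w.toWord, FreeGroup.mk_toWord⟩

theorem reach_edge (τ : α → Equiv.Perm Ω) (M : List (α × Bool)) (v : Ω) (e : Ω × α)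
    (he : e ∈ edges τ M v) :
    ∃ L, (∀ f ∈ edges τ L v, f ∈ edges τ M v) ∧ walk τ L v = e.1 := by
  obtain ⟨A, B, l, h1, h2, -⟩ := first_trav τ he
  rcases edgeOf_ends τ l (walk τ B v) with ⟨-, h3, -⟩ | ⟨-, h3, -⟩
  · refine ⟨B, ?_, ?_⟩
    · intro f hf
      rw [h1, edges_append, List.mem_append, edges_cons, List.mem_cons]
      exact Or.inr (Or.inr hf)
    · rw [h2, h3]
  · refine ⟨l :: B, ?_, ?_⟩
    · intro f hf
      rw [h1, edges_append, List.mem_append]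
      exact Or.inr hf
    · rw [h2, h3, walk_cons]

theorem complete_model [Finite α] (π : FreeGroup α →* G) (hπ : Function.Surjective π)
    (R : List (α × Bool)) (n : ℕ)
    (hker : π.ker = Subgroup.normalClosure {FreeGroup.mk (rpow R n)})
    (ψ : G →* G) (hψ : Function.Injective ψ) (Q : Subgroup (FreeGroup α)) (hQ : Q.FG)
    (hQψ : Q.map π = ψ.range) :
    ∃ (Ω : Type) (τ : α → Equiv.Perm Ω) (v : Ω) (Γ0 : Set (Ω × α)), Γ0.Finite ∧
      Conn τ Γ0 v ∧ (∀ q ∈ Q, (FreeGroup.lift τ q : Equiv.Perm Ω) v = v) ∧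
      (∀ x, (FreeGroup.lift τ x : Equiv.Perm Ω) v = v → π x ∈ ψ.range) ∧
      ∀ Γ, Γ0 ⊆ Γ → Conn τ Γ v → Mdl π τ v (rpow R n) ψ.range Γ [] := by
  classical
  obtain ⟨E, hE⟩ := completion (FreeGroup.mk (rpow R n)) π hπ hker ψ hψ Q hQ hQψ
  obtain ⟨r, hr⟩ : ∃ r : FreeGroup α, r = FreeGroup.mk (rpow R n) := ⟨_, rfl⟩
  rw [← hr] at hE hker
  have hπr : π r = 1 := by
    rw [← MonoidHom.mem_ker, hker]
    exact Subgroup.subset_normalClosure rfl
  obtain ⟨P, hP⟩ : ∃ P : Subgroup (FreeGroup α),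
    P = Q ⊔ Subgroup.closure {x | ∃ g ∈ E, x = g⁻¹ * r * g} := ⟨_, rfl⟩
  have hcomp := hE P hP
  have hEfin : Set.Finite {x | ∃ g ∈ E, x = g⁻¹ * r * g} := by
    have : {x | ∃ g ∈ E, x = g⁻¹ * r * g} = (fun g => g⁻¹ * r * g) '' (E : Set (FreeGroup α)) := by
      ext x
      simp only [Set.mem_ofPred_eq, Set.mem_image, Finset.mem_coe]
      constructor
      · rintro ⟨g, h1, h2⟩; exact ⟨g, h1, h2.symm⟩
      · rintro ⟨g, h1, h2⟩; exact ⟨g, h1, h2.symm⟩
    rw [this]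
    exact (Finset.finite_toSet E).image _
  have hPfg : P.FG := by
    rw [hP]
    refine Subgroup.FG.sup hQ ?_
    exact (Subgroup.fg_iff _).2 ⟨_, rfl, hEfin⟩
  have hEP : ∀ g ∈ E, g⁻¹ * r * g ∈ P := by
    intro g hg
    rw [hP]
    exact Subgroup.mem_sup_right (Subgroup.subset_closure ⟨g, hg, rfl⟩)
  have hQP : Q ≤ P := by rw [hP]; exact le_sup_left
  have hPψ : P.map π = ψ.range := by
    rw [hP, Subgroup.map_sup, hQψ, sup_eq_left, Subgroup.map_le_iff_le_comap,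
      Subgroup.closure_le]
    rintro _ ⟨g, -, rfl⟩
    rw [SetLike.mem_coe, Subgroup.mem_comap, map_mul, map_mul, hπr, map_inv]
    have : (π g)⁻¹ * 1 * π g = 1 := by group
    rw [this]
    exact Subgroup.one_mem _
  -- the action
  let τ : α → Equiv.Perm (FreeGroup α ⧸ P) := fun x => MulAction.toPerm (FreeGroup.of x)
  have hlift : ∀ (g : FreeGroup α) (ω : FreeGroup α ⧸ P),
      (FreeGroup.lift τ g : Equiv.Perm (FreeGroup α ⧸ P)) ω = g • ω := by
    have h1 : FreeGroup.lift τ = MulAction.toPermHom (FreeGroup α) (FreeGroup α ⧸ P) := by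
      apply FreeGroup.ext_hom
      intro a
      rw [FreeGroup.lift_apply_of]
      rfl
    intro g ω
    rw [h1]
    rfl
  let v : FreeGroup α ⧸ P := ((1 : FreeGroup α) : FreeGroup α ⧸ P)
  have hstab : ∀ g : FreeGroup α,
      (FreeGroup.lift τ g : Equiv.Perm (FreeGroup α ⧸ P)) v = v ↔ g ∈ P := by
    intro g
    rw [hlift]
    show ((g * 1 : FreeGroup α) : FreeGroup α ⧸ P) = ((1 : FreeGroup α) : FreeGroup α ⧸ P) ↔ _
    rw [QuotientGroup.eq, mul_one, mul_one, inv_mem_iff]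
  choose f hf using (exists_mk' (α := α))
  obtain ⟨S, hS⟩ := hPfg
  obtain ⟨Wd, hWd⟩ : ∃ Wd : Finset (List (α × Bool)),
    Wd = S.image f ∪ E.image (fun g => rpow R n ++ f g) := ⟨_, rfl⟩
  obtain ⟨Γ0, hΓ0⟩ : ∃ Γ0 : Set ((FreeGroup α ⧸ P) × α),
    Γ0 = {e | ∃ M ∈ Wd, e ∈ edges τ M v} := ⟨_, rfl⟩
  have m0 : ∀ e, e ∈ Γ0 ↔ ∃ M ∈ Wd, e ∈ edges τ M v := by intro e; rw [hΓ0]; exact Iff.rfl
  have hS' : ∀ s ∈ S, ∀ e ∈ edges τ (f s) v, e ∈ Γ0 := by
    intro s hs e he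
    have hm : f s ∈ Wd := by
      rw [hWd]
      exact Finset.mem_union_left _ (Finset.mem_image_of_mem f hs)
    exact (m0 e).2 ⟨f s, hm, he⟩
  have hE' : ∀ g ∈ E, ∀ e ∈ edges τ (rpow R n ++ f g) v, e ∈ Γ0 := by
    intro g hg e he
    have hm : rpow R n ++ f g ∈ Wd := by
      rw [hWd]
      exact Finset.mem_union_right _ (Finset.mem_image_of_mem (fun g => rpow R n ++ f g) hg)
    exact (m0 e).2 ⟨rpow R n ++ f g, hm, he⟩
  refine ⟨FreeGroup α ⧸ P, τ, v, Γ0, ?_, ?_, ?_, ?_, ?_⟩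
  · have : Γ0 = ⋃ M ∈ Wd, {e | e ∈ edges τ M v} := by
      ext e
      rw [m0]
      simp
    rw [this]
    apply Set.Finite.biUnion (Finset.finite_toSet Wd)
    intro M _
    exact List.finite_toSet _
  · intro e he
    obtain ⟨M, hM, hMe⟩ := (m0 e).1 he
    obtain ⟨L, h1, h2⟩ := reach_edge τ M v e hMe
    exact ⟨L, fun f' hf' => (m0 f').2 ⟨M, hM, h1 f' hf'⟩, h2⟩
  · intro q hq
    exact (hstab q).2 (hQP hq)
  · intro x hx
    rw [← hPψ]
    exact Subgroup.mem_map_of_mem π ((hstab x).1 hx)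
  · intro Γ hΓ hconn
    have hPG : PG τ Γ v = P := by
      apply le_antisymm
      · rintro _ ⟨L, h1, h2, rfl⟩
        rw [← hstab, lift_mk_eq_walk]; exact h2
      · conv_lhs => rw [← hS]
        rw [Subgroup.closure_le]
        intro s hs
        refine ⟨f s, fun e he => hΓ (hS' s hs e he), ?_, hf s⟩
        rw [← lift_mk_eq_walk, hf, hstab, ← hS]
        exact Subgroup.subset_closure hs
    have hone : π (FreeGroup.mk ([] : List (α × Bool))) = 1 := map_one π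
    refine ⟨hconn, ?_, ?_⟩
    · intro g
      rw [walk_nil, hPG, hone, ← hPψ, Subgroup.mem_map]
      simp
    · intro q hq hq1
      rw [walk_nil] at hq ⊢
      rw [hPG] at hq
      have h1 := hcomp q hq hq1
      refine (Subgroup.closure_le _).2 ?_ h1
      rintro _ ⟨g, hg, q', hq', rfl⟩
      rw [← hPG] at hq'
      obtain ⟨L', hL1, hL2, rfl⟩ := hq'
      have hp : Pth τ Γ (rpow R n ++ f g) v := fun e he => hΓ (hE' g hg e he)
      rw [pth_append] at hp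
      have hc : walk τ (rpow R n) (walk τ (f g) v) = walk τ (f g) v := by
        have h2 := (hstab _).2 (hEP g hg)
        rw [map_mul, map_mul, map_inv, Equiv.Perm.mul_apply, Equiv.Perm.mul_apply,
          Equiv.Perm.inv_def, Equiv.symm_apply_eq, ← hf g, hr, lift_mk_eq_walk,
          lift_mk_eq_walk] at h2
        exact h2
      have := mem_RG (τ := τ) (Γ := Γ) (W := rpow R n) (u := v) (L := f g ++ L')
        (hL1.app hL2 hp.2) (by
          rw [walk_append, hL2]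
          exact ⟨hc, hp.1⟩)
      rw [mk_app, hf g, ← hr] at this
      exact this

/-- A nonempty path inside a connected edge set starts at a reachable vertex. -/
theorem reach_of_pth {τ : α → Equiv.Perm Ω} {Γ : Set (Ω × α)} {u w : Ω} (hc : Conn τ Γ u)
    (L : List (α × Bool)) (hL : Pth τ Γ L w) (hne : L ≠ []) :
    ∃ P, Pth τ Γ P u ∧ walk τ P u = w := by
  rcases List.eq_nil_or_concat L with rfl | ⟨L0, l0, rfl⟩
  · exact absurd rfl hne
  · rw [List.concat_eq_append, pth_append] at hL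
    have h1 := hL.2
    rw [pth_cons, walk_nil] at h1
    obtain ⟨P, hP1, hP2⟩ := hc _ h1.1
    rcases edgeOf_ends τ l0 w with ⟨-, h3, -⟩ | ⟨-, h3, h4⟩
    · exact ⟨P, hP1, hP2.trans h3⟩
    · refine ⟨((edgeOf τ l0 w).2, true) :: P, ?_, ?_⟩
      · rw [pth_cons, hP2]
        refine ⟨?_, hP1⟩
        simpa [edgeOf] using h1.1
      · rw [walk_cons, hP2]
        simpa [step] using h4

/-- Irreducible complete subgroups over a conjugate of `H`. -/
def Cls (π : FreeGroup α →* G) (R : List (α × Bool)) (n : ℕ) (H : Subgroup G)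
    (P : Subgroup (FreeGroup α)) (a : G) : Prop :=
  ∃ (Ω : Type) (τ : α → Equiv.Perm Ω) (v : Ω) (Γ : Set (Ω × α)), Γ.Finite ∧ Conn τ Γ v ∧
    Irr τ Γ R n ∧ P = PG τ Γ v ∧ (∀ g, g ∈ H ↔ ∃ q ∈ P, π q = a * g * a⁻¹) ∧
    ∀ q ∈ P, π q = 1 → q ∈ RG τ Γ (rpow R n) v

theorem cls_of_mdl {π : FreeGroup α →* G} {R : List (α × Bool)} {n : ℕ} {H : Subgroup G}
    {τ : α → Equiv.Perm Ω} {v : Ω} {Γ : Set (Ω × α)} {A : List (α × Bool)}
    (hfin : Γ.Finite) (hM : Mdl π τ v (rpow R n) H Γ A) (hirr : Irr τ Γ R n) :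
    Cls π R n H (PG τ Γ (walk τ A v)) (π (FreeGroup.mk A)) :=
  ⟨Ω, τ, walk τ A v, Γ, hfin, hM.conn, hirr, rfl, hM.img, hM.comp⟩

theorem exists_cls [Finite α] (π : FreeGroup α →* G) (hπ : Function.Surjective π)
    (R : List (α × Bool)) (hRne : R ≠ []) (n : ℕ) (hn : 1 ≤ n)
    (hker : π.ker = Subgroup.normalClosure {FreeGroup.mk (rpow R n)})
    (ψ : G →* G) (hψ : Function.Injective ψ)
    (hI : ∀ (A B : Type) [Group A] [Group B], Nontrivial A → Nontrivial B →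
      IsEmpty (ψ.range ≃* Monoid.Coprod A B))
    (hZ : ∀ m : ℕ, IsEmpty (ψ.range ≃* Multiplicative (ZMod m))) :
    ∃ P a, Cls π R n ψ.range P a := by
  classical
  have hW : π (FreeGroup.mk (rpow R n)) = 1 := by
    rw [← MonoidHom.mem_ker, hker]
    exact Subgroup.subset_normalClosure rfl
  obtain ⟨lft, hlft⟩ := hπ.hasRightInverse
  obtain ⟨Q, hQ⟩ : ∃ Q : Subgroup (FreeGroup α),
    Q = Subgroup.closure (Set.range (fun a : α => lft (ψ (π (FreeGroup.of a))))) := ⟨_, rfl⟩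
  have hQfg : Q.FG := (Subgroup.fg_iff _).2 ⟨_, hQ.symm, Set.finite_range _⟩
  have hQψ : Q.map π = ψ.range := by
    have h1 : ψ.range = (⊤ : Subgroup (FreeGroup α)).map (ψ.comp π) := by
      rw [← Subgroup.map_map, Subgroup.map_top_of_surjective π hπ, MonoidHom.range_eq_map]
    rw [h1, ← FreeGroup.closure_range_of, MonoidHom.map_closure, hQ, MonoidHom.map_closure]
    congr 1
    ext g
    simp only [Set.mem_image, Set.mem_range, exists_exists_eq_and, MonoidHom.comp_apply]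
    constructor
    · rintro ⟨a, rfl⟩; exact ⟨a, (hlft _).symm⟩
    · rintro ⟨a, rfl⟩; exact ⟨a, hlft _⟩
  obtain ⟨Ω, τ, v, Γ0, h1, h2, h3, h4, h5⟩ := complete_model π hπ R n hker ψ hψ Q hQfg hQψ
  have hM := h5 Γ0 (Set.Subset.refl _) h2
  obtain ⟨Γ', A', g1, g2, g3, -⟩ := reduction π τ v R hRne n hn hW ψ.range hI hZ _ Γ0 [] h1 rfl hM
  exact ⟨_, _, cls_of_mdl (h1.subset g1) g2 g3⟩

theorem join_cls [Finite α] (π : FreeGroup α →* G) (hπ : Function.Surjective π)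
    (R : List (α × Bool)) (hRne : R ≠ []) (n : ℕ) (hn : 1 ≤ n)
    (hker : π.ker = Subgroup.normalClosure {FreeGroup.mk (rpow R n)})
    (ψ : G →* G) (hψ : Function.Injective ψ)
    (hI : ∀ (A B : Type) [Group A] [Group B], Nontrivial A → Nontrivial B →
      IsEmpty (ψ.range ≃* Monoid.Coprod A B))
    (hZ : ∀ m : ℕ, IsEmpty (ψ.range ≃* Multiplicative (ZMod m)))
    (H' : Subgroup G) (hH' : H' ≤ ψ.range) (hne : ∃ g ∈ H', g ≠ 1)
    (P' : Subgroup (FreeGroup α)) (a' : G) (hP' : Cls π R n H' P' a') :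
    ∃ P a, Cls π R n ψ.range P a ∧ ∃ b : FreeGroup α, (∀ q ∈ P', b⁻¹ * q * b ∈ P) ∧
      ∀ g, g ∈ ψ.range ↔ ∃ q, b⁻¹ * q * b ∈ P ∧ π q = a' * g * a'⁻¹ := by
  classical
  have hW : π (FreeGroup.mk (rpow R n)) = 1 := by
    rw [← MonoidHom.mem_ker, hker]
    exact Subgroup.subset_normalClosure rfl
  obtain ⟨lft, hlft⟩ := hπ.hasRightInverse
  obtain ⟨Q1, hQ1⟩ : ∃ Q : Subgroup (FreeGroup α),
    Q = Subgroup.closure (Set.range (fun a : α => lft (ψ (π (FreeGroup.of a))))) := ⟨_, rfl⟩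
  have hQfg1 : Q1.FG := (Subgroup.fg_iff _).2 ⟨_, hQ1.symm, Set.finite_range _⟩
  have hQψ1 : Q1.map π = ψ.range := by
    have h1 : ψ.range = (⊤ : Subgroup (FreeGroup α)).map (ψ.comp π) := by
      rw [← Subgroup.map_map, Subgroup.map_top_of_surjective π hπ, MonoidHom.range_eq_map]
    rw [h1, ← FreeGroup.closure_range_of, MonoidHom.map_closure, hQ1, MonoidHom.map_closure]
    congr 1
    ext g
    simp only [Set.mem_image, Set.mem_range, exists_exists_eq_and, MonoidHom.comp_apply]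
    constructor
    · rintro ⟨a, rfl⟩; exact ⟨a, (hlft _).symm⟩
    · rintro ⟨a, rfl⟩; exact ⟨a, hlft _⟩
  obtain ⟨Ω1, τ1, v1, Δ, hΔfin, hΔconn, hΔirr, hPΔ, himg, -⟩ := hP'
  obtain ⟨s, hs⟩ := hπ a'
  obtain ⟨P2, hP2⟩ : ∃ P2 : Subgroup (FreeGroup α),
    P2 = P'.map (MulAut.conj s⁻¹).toMonoidHom := ⟨_, rfl⟩
  have hPfg : P'.FG := by
    rw [hPΔ]
    have := PG_fg τ1 hΔfin.toFinset v1
    rwa [Set.Finite.coe_toFinset] at this
  have hP2fg : P2.FG := by
    obtain ⟨T, hT⟩ := hPfg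
    rw [hP2, ← hT, MonoidHom.map_closure]
    exact (Subgroup.fg_iff _).2 ⟨_, rfl, (Finset.finite_toSet T).image _⟩
  have hP2map : P2.map π ≤ ψ.range := by
    rw [hP2, Subgroup.map_map]
    rintro _ ⟨q, hq, rfl⟩
    apply hH'
    rw [himg]
    refine ⟨q, hq, ?_⟩
    simp [hs]
    group
  obtain ⟨Q, hQ⟩ : ∃ Q, Q = Q1 ⊔ P2 := ⟨_, rfl⟩
  have hQfg : Q.FG := by rw [hQ]; exact hQfg1.sup hP2fg
  have hQψ : Q.map π = ψ.range := by
    rw [hQ, Subgroup.map_sup, hQψ1, sup_eq_left]; exact hP2map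
  obtain ⟨Ω, τ, v, Γ0, h1, h2, h3, h4, h5⟩ := complete_model π hπ R n hker ψ hψ Q hQfg hQψ
  obtain ⟨S, hS⟩ := exists_mk' s
  obtain ⟨u, hu⟩ : ∃ u, u = walk τ S v := ⟨_, rfl⟩
  have hfix : ∀ q ∈ P', (FreeGroup.lift τ q : Equiv.Perm Ω) u = u := by
    intro q hq
    have h6 : s⁻¹ * q * s ∈ Q := by
      rw [hQ]
      apply Subgroup.mem_sup_right
      rw [hP2]
      refine ⟨q, hq, ?_⟩
      simp
    have h7 := h3 _ h6
    rw [map_mul, map_mul, map_inv, Equiv.Perm.mul_apply, Equiv.Perm.mul_apply,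
      Equiv.Perm.inv_def, Equiv.symm_apply_eq, ← hS, lift_mk_eq_walk, ← hu] at h7
    exact h7
  obtain ⟨Δ', hc', hi', hpth⟩ := irr_push τ1 τ R n hn hΔfin.toFinset v1 (by
    rw [Set.Finite.coe_toFinset]; exact hΔconn) (by
    rw [Set.Finite.coe_toFinset]; exact hΔirr) u (by
    intro L hL hL'
    rw [Set.Finite.coe_toFinset] at hL
    have := hfix (FreeGroup.mk L) (by rw [hPΔ]; exact ⟨L, hL, hL', rfl⟩)
    rw [lift_mk_eq_walk] at this
    exact this)
  rw [Set.Finite.coe_toFinset] at hpth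
  obtain ⟨Γ, hΓ⟩ : ∃ Γ : Set (Ω × α), Γ = Γ0 ∪ (Δ' : Set (Ω × α)) ∪ {e | e ∈ edges τ S v} :=
    ⟨_, rfl⟩
  have s0 : Γ0 ⊆ Γ := by rw [hΓ]; intro e he; exact Or.inl (Or.inl he)
  have s1 : (Δ' : Set (Ω × α)) ⊆ Γ := by rw [hΓ]; intro e he; exact Or.inl (Or.inr he)
  have s2 : ∀ e ∈ edges τ S v, e ∈ Γ := by rw [hΓ]; intro e he; exact Or.inr he
  have hΓfin : Γ.Finite := by
    rw [hΓ]
    exact (h1.union (Finset.finite_toSet _)).union (List.finite_toSet _)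
  have hconn : Conn τ Γ v := by
    intro e he
    rw [hΓ] at he
    rcases he with (he | he) | he
    · obtain ⟨L, g1, g2⟩ := h2 e he
      exact ⟨L, g1.mono s0, g2⟩
    · obtain ⟨L, g1, g2⟩ := hc' e he
      refine ⟨L ++ S, ?_, ?_⟩
      · rw [pth_append, ← hu]
        exact ⟨g1.mono s1, s2⟩
      · rw [walk_append, ← hu, g2]
    · obtain ⟨L, g1, g2⟩ := reach_edge τ S v e he
      exact ⟨L, fun f hf => s2 f (g1 f hf), g2⟩
  have hM := h5 Γ s0 hconn
  obtain ⟨Γ', A', g1, g2, g3, g4⟩ :=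
    reduction π τ v R hRne n hn hW ψ.range hI hZ _ Γ [] hΓfin rfl hM
  -- the image of P' is nontrivial
  have hPle : ∀ q ∈ P', q ∈ PG τ (Δ' : Set (Ω × α)) u := by
    intro q hq
    have hq' := hq
    rw [hPΔ] at hq'
    obtain ⟨L, k1, k2, rfl⟩ := hq'
    refine ⟨L, hpth L k1, ?_, rfl⟩
    have := hfix _ hq
    rwa [lift_mk_eq_walk] at this
  obtain ⟨q0, hq0, hq0'⟩ : ∃ q ∈ P', π q ≠ 1 := by
    obtain ⟨g, hg, hg1⟩ := hne
    obtain ⟨q, hq, hq'⟩ := (himg g).1 hg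
    refine ⟨q, hq, ?_⟩
    rw [hq']
    intro h
    exact hg1 (conj_eq_one_iff.1 h)
  have hΔΓ' : (Δ' : Set (Ω × α)) ⊆ Γ' := g4 _ u s1 hi' hc' ⟨q0, hPle q0 hq0, hq0'⟩
  obtain ⟨D, hD1, hD2⟩ : ∃ D, Pth τ Γ' D (walk τ A' v) ∧ walk τ D (walk τ A' v) = u := by
    obtain ⟨L, k1, k2, k3⟩ := hPle q0 hq0
    refine reach_of_pth g2.conn L (k1.mono hΔΓ') ?_
    rintro rfl
    apply hq0'
    rw [← k3]
    exact map_one π
  refine ⟨_, _, cls_of_mdl (hΓfin.subset g1) g2 g3, FreeGroup.mk D, ?_, ?_⟩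
  · intro q hq
    rw [← PG_conj hD1 hD2]
    have := PG_mono hΔΓ' u (hPle q hq)
    convert this using 1
    group
  · -- comparison of conjugating elements
    have hst : (FreeGroup.lift τ (s⁻¹ * (FreeGroup.mk D * FreeGroup.mk A')) :
        Equiv.Perm Ω) v = v := by
      rw [map_mul, map_mul, map_inv, Equiv.Perm.mul_apply, Equiv.Perm.mul_apply,
        Equiv.Perm.inv_def, Equiv.symm_apply_eq, ← hS, lift_mk_eq_walk, lift_mk_eq_walk,
        lift_mk_eq_walk, hD2, hu]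
    obtain ⟨h, hh⟩ : ∃ h, h = π (s⁻¹ * (FreeGroup.mk D * FreeGroup.mk A')) := ⟨_, rfl⟩
    have hhψ : h ∈ ψ.range := by rw [hh]; exact h4 _ hst
    have hh' : π (FreeGroup.mk D) * π (FreeGroup.mk A') = a' * h := by
      rw [hh, map_mul, map_mul, map_inv, hs]; group
    have hD' : π (FreeGroup.mk D) = a' * h * (π (FreeGroup.mk A'))⁻¹ := by
      rw [← hh']; group
    intro g
    constructor
    · intro hg
      have hg' : h⁻¹ * g * h ∈ ψ.range :=
        Subgroup.mul_mem _ (Subgroup.mul_mem _ (Subgroup.inv_mem _ hhψ) hg) hhψ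
      obtain ⟨q, hq, hq'⟩ := (g2.img _).1 hg'
      refine ⟨FreeGroup.mk D * q * (FreeGroup.mk D)⁻¹, ?_, ?_⟩
      · convert hq using 1
        group
      · rw [map_mul, map_mul, map_inv, hq', hD']
        group
    · rintro ⟨q, hq, hq'⟩
      have hg' : h⁻¹ * g * h ∈ ψ.range := by
        rw [g2.img]
        refine ⟨_, hq, ?_⟩
        rw [map_mul, map_mul, map_inv, hq', hD']
        group
      have := Subgroup.mul_mem _ (Subgroup.mul_mem _ hhψ hg') (Subgroup.inv_mem _ hhψ)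
      convert this using 1
      group

end Pool.Agent.Helper122
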