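import Pool.Agent.Helper122.Cohop.Defs

set_option autoImplicit false

namespace Pool.Agent.Helper122

variable {α : Type} {Ω : Type}




section ns
variable {τ : α → Equiv.Perm Ω} {Γ Γ' : Set (Ω × α)}

/-- Reachable vertices. -/
def Rch (τ : α → Equiv.Perm Ω) (Γ : Set (Ω × α)) (u w : Ω) : Prop :=
  ∃ L, Pth τ Γ L u ∧ walk τ L u = w

theorem Rch.refl (u : Ω) : Rch τ Γ u u := ⟨[], Pth.nil u, rfl⟩

theorem Rch.go {u w : Ω} (h : Rch τ Γ u w) {L : List (α × Bool)} (hL : Pth τ Γ L w) :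
    Rch τ Γ u (walk τ L w) := by
  obtain ⟨A, hA, hA'⟩ := h
  exact ⟨L ++ A, hA.app hA' hL, walk_app hA' rfl⟩

theorem pth_single {f : Ω × α} (hf : f ∈ Γ) : Pth τ Γ [(f.2, true)] f.1 := by
  intro e he
  simp only [edges_cons, walk_nil, edgeOf, if_true, edges_nil, List.mem_cons, List.not_mem_nil,
    or_false] at he
  rw [he]; exact hf

theorem Rch.edge {u : Ω} {f : Ω × α} (hf : f ∈ Γ) (h : Rch τ Γ u f.1) :
    Rch τ Γ u (τ f.2 f.1) := by
  have := h.go (pth_single (τ := τ) hf)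
  simpa [step] using this

theorem Rch.mono {u w : Ω} (h : Rch τ Γ u w) (hs : Γ ⊆ Γ') : Rch τ Γ' u w := by
  obtain ⟨A, hA, hA'⟩ := h
  exact ⟨A, hA.mono hs, hA'⟩

theorem exists_P (τ : α → Equiv.Perm Ω) (Γ : Set (Ω × α)) (u : Ω) :
    ∃ P : Ω → List (α × Bool), P u = [] ∧
      ∀ w, Rch τ Γ u w → Pth τ Γ (P w) u ∧ walk τ (P w) u = w := by
  classical
  have h : ∀ w, ∃ L : List (α × Bool), (w = u → L = []) ∧
      (Rch τ Γ u w → Pth τ Γ L u ∧ walk τ L u = w) := by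
    intro w
    by_cases hw : w = u
    · exact ⟨[], fun _ => rfl, fun _ => ⟨Pth.nil u, hw.symm⟩⟩
    · by_cases hR : Rch τ Γ u w
      · obtain ⟨L, h1, h2⟩ := hR
        exact ⟨L, fun h => absurd h hw, fun _ => ⟨h1, h2⟩⟩
      · exact ⟨[], fun _ => rfl, fun h => absurd h hR⟩
  choose P hP using h
  exact ⟨P, (hP u).1 rfl, fun w => (hP w).2⟩

theorem tri_mem {A B L : List (α × Bool)} {u w1 w2 : Ω} (hA : Pth τ Γ A u)
    (hA' : walk τ A u = w1) (hL : Pth τ Γ L w1) (hL' : walk τ L w1 = w2)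
    (hB : Pth τ Γ B u) (hB' : walk τ B u = w2) :
    (FreeGroup.mk B)⁻¹ * FreeGroup.mk L * FreeGroup.mk A ∈ PG τ Γ u := by
  obtain ⟨h3, h4⟩ := hB.inv hB'
  refine ⟨invL B ++ (L ++ A), (hA.app hA' hL).app (walk_app hA' hL') h3,
    walk_app (walk_app hA' hL') h4, ?_⟩
  rw [mk_app, mk_app, mk_invL, mul_assoc]

theorem of_eq_mk (x : α) : (FreeGroup.of x : FreeGroup α) = FreeGroup.mk [(x, true)] := rfl

/-- Telescoping along paths with values multiplicative on closed words. -/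
theorem tele_path {Q : Type} [Group Q] (μ : Ω × α → Q) (F : FreeGroup α → Q) (u : Ω)
    (hF1 : F 1 = 1) (hF : ∀ g h, g ∈ PG τ Γ u → h ∈ PG τ Γ u → F (g * h) = F g * F h)
    (P : Ω → List (α × Bool))
    (hP : ∀ w, Rch τ Γ u w → Pth τ Γ (P w) u ∧ walk τ (P w) u = w)
    (hR : ∀ f ∈ Γ, Rch τ Γ u f.1)
    (hμ : ∀ f ∈ Γ, μ f = F ((FreeGroup.mk (P (τ f.2 f.1)))⁻¹ * FreeGroup.of f.2 *
      FreeGroup.mk (P f.1)))
    (L : List (α × Bool)) (w : Ω) (hw : Rch τ Γ u w) (hL : Pth τ Γ L w) :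
    pr τ μ L w = F ((FreeGroup.mk (P (walk τ L w)))⁻¹ * FreeGroup.mk L * FreeGroup.mk (P w)) := by
  have hFi : ∀ g, g ∈ PG τ Γ u → F g⁻¹ = (F g)⁻¹ := by
    intro g hg
    have := hF g⁻¹ g (inv_mem hg) hg
    rw [inv_mul_cancel, hF1] at this
    exact eq_inv_of_mul_eq_one_left this.symm
  induction L with
  | nil =>
    rw [pr_nil, walk_nil]
    have : (FreeGroup.mk [] : FreeGroup α) = 1 := rfl
    rw [this, mul_one, inv_mul_cancel, hF1]
  | cons l L ih =>
    rw [pth_cons] at hL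
    have ih' := ih hL.2
    have hr' : Rch τ Γ u (walk τ L w) := hw.go hL.2
    obtain ⟨v, hv⟩ : ∃ v, v = walk τ L w := ⟨_, rfl⟩
    rw [pr_cons, ih', walk_cons]
    have hLv : Pth τ Γ L w := hL.2
    have he := hL.1
    rw [← hv] at he hr' ⊢
    rcases l with ⟨x, b⟩
    have hmL := tri_mem (hP w hw).1 (hP w hw).2 hLv hv.symm (hP v hr').1 (hP v hr').2
    have hcons : (FreeGroup.mk ((x, b) :: L) : FreeGroup α) =
        FreeGroup.mk [(x, b)] * FreeGroup.mk L := by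
      rw [← mk_app]; rfl
    rw [hcons]
    cases b
    · simp only [edgeOf, Bool.false_eq_true, if_false] at he
      simp only [lab, edgeOf, step, Bool.false_eq_true, if_false]
      obtain ⟨v', hv'⟩ : ∃ v', v' = (τ x).symm v := ⟨_, rfl⟩
      have hτ : τ x v' = v := by rw [hv']; simp
      rw [← hv'] at he ⊢
      rw [hμ _ he]
      have hr1 := hR _ he
      simp only [hτ] at hr1 ⊢
      have hm1 : (FreeGroup.mk (P v))⁻¹ * FreeGroup.of x * FreeGroup.mk (P v') ∈ PG τ Γ u := by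
        rw [of_eq_mk]
        exact tri_mem (hP v' hr1).1 (hP v' hr1).2 (pth_single (τ := τ) he) (by simp [step, hτ])
          (hP v hr').1 (hP v hr').2
      rw [← hFi _ hm1, ← hF _ _ (inv_mem hm1) hmL]
      congr 1
      have : (FreeGroup.mk [(x, false)] : FreeGroup α) = (FreeGroup.of x)⁻¹ := rfl
      rw [this]
      group
    · simp only [edgeOf, if_true] at he
      simp only [lab, edgeOf, step, if_true]
      rw [hμ _ he]
      have hr1 := hR _ he
      have hr2 := Rch.edge he hr1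
      simp only at hr2 ⊢
      have hm1 : (FreeGroup.mk (P (τ x v)))⁻¹ * FreeGroup.of x * FreeGroup.mk (P v) ∈
          PG τ Γ u := by
        rw [of_eq_mk]
        exact tri_mem (hP v hr').1 (hP v hr').2 (pth_single (τ := τ) he) (by simp [step])
          (hP _ hr2).1 (hP _ hr2).2
      rw [← hF _ _ hm1 hmL]
      congr 1
      have : (FreeGroup.mk [(x, true)] : FreeGroup α) = FreeGroup.of x := rfl
      rw [this]
      group

theorem walk_rpow_fix {L : List (α × Bool)} {ω : Ω} (h : walk τ L ω = ω) (n : ℕ) :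
    walk τ (rpow L n) ω = ω := by
  induction n with
  | zero => rfl
  | succ n ih => rw [rpow_succ, walk_append, ih, h]

theorem pr_rpow_fix {Q : Type} [Group Q] (μ : Ω × α → Q) {L : List (α × Bool)} {ω : Ω}
    (h : walk τ L ω = ω) (n : ℕ) : pr τ μ (rpow L n) ω = pr τ μ L ω ^ n := by
  induction n with
  | zero => simp
  | succ n ih => rw [rpow_succ, pr_append, walk_rpow_fix h, ih, pow_succ']

theorem pr_zpow {Q : Type} [Group Q] (μ : Ω × α → Q) {L M : List (α × Bool)} {ω : Ω} {ε : ℤ}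
    (h : walk τ L ω = ω)
    (hM : (FreeGroup.mk M : FreeGroup α) = FreeGroup.mk L ^ ε) :
    pr τ μ M ω = pr τ μ L ω ^ ε := by
  obtain ⟨n, rfl | rfl⟩ := ε.eq_nat_or_neg
  · rw [zpow_natCast, ← pr_rpow_fix μ h]
    apply pr_eq_of_mk_eq
    rw [hM, mk_rpow, zpow_natCast]
  · rw [zpow_neg, zpow_natCast, ← pr_rpow_fix μ h, ← pr_invL, walk_rpow_fix h]
    apply pr_eq_of_mk_eq
    rw [hM, mk_invL, mk_rpow, zpow_neg, zpow_natCast]

/-- Cocycle of a free group element. -/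
def coc {Q : Type} [Group Q] (τ : α → Equiv.Perm Ω) (μ : Ω × α → Q) (g : FreeGroup α) (ω : Ω) :
    Q := ((FreeGroup.lift (skew τ μ) g : Equiv.Perm (Ω × Q)) (ω, 1)).2

theorem coc_mk {Q : Type} [Group Q] (μ : Ω × α → Q) (L : List (α × Bool)) (ω : Ω) :
    coc τ μ (FreeGroup.mk L) ω = pr τ μ L ω := by
  unfold coc; rw [lift_mk_eq_walk, walk_skew]; simp

/-- The cocycle as a homomorphism on closed words. -/
def cocHom {Q : Type} [Group Q] (τ : α → Equiv.Perm Ω) (Γ : Set (Ω × α)) (μ : Ω × α → Q) (u : Ω) :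
    PG τ Γ u →* Q where
  toFun g := coc τ μ g.1 u
  map_one' := by
    show coc τ μ (FreeGroup.mk []) u = 1
    rw [coc_mk, pr_nil]
  map_mul' := by
    rintro ⟨_, A, hA, hA', rfl⟩ ⟨_, B, hB, hB', rfl⟩
    show coc τ μ (FreeGroup.mk A * FreeGroup.mk B) u = coc τ μ (FreeGroup.mk A) u *
      coc τ μ (FreeGroup.mk B) u
    rw [← mk_app, coc_mk, coc_mk, coc_mk, pr_append, hB']

theorem cocHom_apply {Q : Type} [Group Q] (μ : Ω × α → Q) (u : Ω) (L : List (α × Bool))
    (h : (FreeGroup.mk L : FreeGroup α) ∈ PG τ Γ u) :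
    cocHom τ Γ μ u ⟨FreeGroup.mk L, h⟩ = pr τ μ L u := coc_mk μ L u

/-- If all relator loops have trivial label, the cocycle descends. -/
theorem cocHom_kill {Q : Type} [Group Q] (μ : Ω × α → Q) (u : Ω) (W : List (α × Bool))
    (h : ∀ c ∈ CC τ Γ W, pr τ μ W c = 1) :
    (RG τ Γ W u).subgroupOf (PG τ Γ u) ≤ (cocHom τ Γ μ u).ker := by
  intro g hg
  rw [Subgroup.mem_subgroupOf] at hg
  have hle : RG τ Γ W u ≤ (cocHom τ Γ μ u).ker.map (PG τ Γ u).subtype := by
    unfold RG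
    rw [Subgroup.closure_le]
    rintro _ ⟨L, h1, h2, rfl⟩
    obtain ⟨h3, h4⟩ := h1.inv rfl
    have hmem : (FreeGroup.mk L)⁻¹ * FreeGroup.mk W * FreeGroup.mk L ∈ PG τ Γ u :=
      RG_le_PG W u (mem_RG h1 h2)
    refine ⟨⟨_, hmem⟩, ?_, rfl⟩
    show coc τ μ ((FreeGroup.mk L)⁻¹ * FreeGroup.mk W * FreeGroup.mk L) u = 1
    have : (FreeGroup.mk L)⁻¹ * FreeGroup.mk W * FreeGroup.mk L =
        (FreeGroup.mk (invL L ++ (W ++ L)) : FreeGroup α) := by
      rw [mk_app, mk_app, mk_invL, mul_assoc]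
    rw [this, coc_mk, pr_append, pr_append, walk_append, h2.1, pr_invL, h _ h2, one_mul,
      inv_mul_cancel]
  obtain ⟨g', hg', hg''⟩ := hle hg
  have : g' = g := Subtype.ext hg''
  rw [← this]; exact hg'

/-- Class of an element of the free group in the quotient, trivial outside. -/
noncomputable def qc (τ : α → Equiv.Perm Ω) (Γ : Set (Ω × α)) (W : List (α × Bool)) (u : Ω)
    (g : FreeGroup α) : QG τ Γ W u := by
  classical exact if h : g ∈ PG τ Γ u then QuotientGroup.mk ⟨g, h⟩ else 1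

theorem qc_of_mem {W : List (α × Bool)} {u : Ω} {g : FreeGroup α} (h : g ∈ PG τ Γ u) :
    qc τ Γ W u g = QuotientGroup.mk ⟨g, h⟩ := by
  unfold qc; rw [dif_pos h]

theorem qc_mul {W : List (α × Bool)} {u : Ω} {g g' : FreeGroup α} (h : g ∈ PG τ Γ u)
    (h' : g' ∈ PG τ Γ u) : qc τ Γ W u (g * g') = qc τ Γ W u g * qc τ Γ W u g' := by
  rw [qc_of_mem h, qc_of_mem h', qc_of_mem (mul_mem h h')]; rfl

theorem qc_one {W : List (α × Bool)} {u : Ω} : qc τ Γ W u 1 = 1 := by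
  rw [qc_of_mem (one_mem _)]; rfl

theorem qc_of_RG {W : List (α × Bool)} {u : Ω} {g : FreeGroup α} (h : g ∈ RG τ Γ W u) :
    qc τ Γ W u g = 1 := by
  rw [qc_of_mem (RG_le_PG W u h), QuotientGroup.eq_one_iff, Subgroup.mem_subgroupOf]
  exact h

/-- Inclusion induced map. -/
def incl (h : Γ' ⊆ Γ) (W : List (α × Bool)) (u : Ω) : QG τ Γ' W u →* QG τ Γ W u :=
  QuotientGroup.map _ _ (Subgroup.inclusion (PG_mono h u)) (by
    intro g hg
    rw [Subgroup.mem_comap, Subgroup.mem_subgroupOf]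
    rw [Subgroup.mem_subgroupOf] at hg
    exact RG_mono h W u hg)

theorem incl_qc (h : Γ' ⊆ Γ) (W : List (α × Bool)) (u : Ω) {g : FreeGroup α}
    (hg : g ∈ PG τ Γ' u) : incl h W u (qc τ Γ' W u g) = qc τ Γ W u g := by
  rw [qc_of_mem hg, qc_of_mem (PG_mono h u hg)]
  rfl

theorem ns_pr_map {Q Q' : Type} [Group Q] [Group Q'] (f : Q →* Q') (μ : Ω × α → Q)
    (L : List (α × Bool)) (ω : Ω) : f (pr τ μ L ω) = pr τ (fun e => f (μ e)) L ω := by
  induction L with
  | nil => simp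
  | cons l L ih =>
    rw [pr_cons, pr_cons, map_mul, ih]
    congr 1
    unfold lab
    split_ifs <;> simp

theorem conj_one_aux {G : Type} [Group G] {a b : G} (h : a⁻¹ * (b * a) = 1) : b = 1 := by
  rw [inv_mul_eq_one] at h
  have h2 : b * a = 1 * a := by rw [one_mul]; exact h.symm
  exact mul_right_cancel h2

/-- Homomorphism from a cyclic group. -/
theorem exists_zhom {G : Type} [Group G] (m : ℕ) (g : G) (h : g ^ m = 1) :
    ∃ f : Multiplicative (ZMod m) →* G, f (Multiplicative.ofAdd 1) = g := by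
  let f0 : ℤ →+ Additive G := zmultiplesHom _ (Additive.ofMul g)
  have hf0 : f0 m = 0 := by
    simp only [f0, zmultiplesHom_apply, natCast_zsmul]
    rw [← ofMul_pow, h]; rfl
  refine ⟨AddMonoidHom.toMultiplicativeLeft (ZMod.lift m ⟨f0, hf0⟩), ?_⟩
  have h1 : ZMod.lift m ⟨f0, hf0⟩ (1 : ZMod m) = Additive.ofMul g := by
    have := ZMod.lift_coe m ⟨f0, hf0⟩ 1
    rw [Int.cast_one] at this
    rw [this]
    simp [f0]
  show Additive.toMul (ZMod.lift m ⟨f0, hf0⟩ (1 : ZMod m)) = g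
  rw [h1]; rfl

theorem zhom_ext {G : Type} [Group G] (m : ℕ) (f f' : Multiplicative (ZMod m) →* G)
    (h : f (Multiplicative.ofAdd 1) = f' (Multiplicative.ofAdd 1)) : f = f' := by
  refine MonoidHom.ext fun x => ?_
  obtain ⟨n, hn⟩ := ZMod.intCast_surjective (n := m) (Multiplicative.toAdd x)
  have : x = (Multiplicative.ofAdd (1 : ZMod m)) ^ n := by
    rw [← ofAdd_zsmul]
    apply Multiplicative.toAdd.injective
    rw [← hn]; simp
  rw [this, map_zpow, map_zpow, h]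

theorem z_zpow (m : ℕ) (ε : ℤ) (h : (m : ℤ) ∣ ε) :
    (Multiplicative.ofAdd (1 : ZMod m)) ^ ε = 1 := by
  rw [← ofAdd_zsmul]
  have : ε • (1 : ZMod m) = 0 := by
    rw [zsmul_one]
    exact (ZMod.intCast_zmod_eq_zero_iff_dvd ε m).2 h
  rw [this]; rfl

end ns

/-- Removing a non-separating edge splits off a cyclic free factor. -/
theorem ns_split (τ : α → Equiv.Perm Ω) (Γ : Set (Ω × α)) (W : List (α × Bool)) (u : Ω)
    (e : Ω × α) (he : e ∈ Γ) (δ : List (α × Bool)) (hδ : Pth τ (Γ \ {e}) δ e.1)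
    (hδ' : walk τ δ e.1 = τ e.2 e.1) (hconn : Conn τ (Γ \ {e}) u)
    (hue : ∃ L, Pth τ (Γ \ {e}) L u ∧ walk τ L u = e.1) (m : ℕ)
    (H1 : ∀ c ∈ CC τ Γ W, c ∈ CC τ (Γ \ {e}) W ∨ ∃ D, walk τ D e.1 = c ∧ ∃ ε : ℤ, (m : ℤ) ∣ ε ∧
      (FreeGroup.mk D)⁻¹ * FreeGroup.mk W * FreeGroup.mk D =
        ((FreeGroup.mk δ)⁻¹ * FreeGroup.of e.2) ^ ε)
    (H2 : m = 0 ∨ ∃ D, Pth τ Γ D e.1 ∧ walk τ D e.1 ∈ CC τ Γ W ∧
      ∃ ε : ℤ, (ε = (m : ℤ) ∨ ε = -(m : ℤ)) ∧
      (FreeGroup.mk D)⁻¹ * FreeGroup.mk W * FreeGroup.mk D =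
        ((FreeGroup.mk δ)⁻¹ * FreeGroup.of e.2) ^ ε) :
    ∃ Θ : QG τ Γ W u ≃* Monoid.Coprod (QG τ (Γ \ {e}) W u) (Multiplicative (ZMod m)),
      ∀ (g : FreeGroup α) (h1 : g ∈ PG τ (Γ \ {e}) u) (h2 : g ∈ PG τ Γ u),
        Θ (QuotientGroup.mk ⟨g, h2⟩) = Monoid.Coprod.inl (QuotientGroup.mk ⟨g, h1⟩) := by
  classical
  obtain ⟨P, hPu, hP⟩ := exists_P τ (Γ \ {e}) u
  obtain ⟨Γ', hΓ'⟩ : ∃ Γ', Γ' = Γ \ {e} := ⟨_, rfl⟩
  rw [← hΓ'] at hδ hconn hue H1 hP ⊢
  have hsub : Γ' ⊆ Γ := by rw [hΓ']; exact Set.sdiff_subset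
  have hor : ∀ f ∈ Γ, f ∈ Γ' ∨ f = e := by
    intro f hf
    by_cases h : f = e
    · exact Or.inr h
    · left; rw [hΓ']; exact ⟨hf, h⟩
  have heΓ' : e ∉ Γ' := by rw [hΓ']; intro h; exact h.2 rfl
  -- reachability
  have hRe : Rch τ Γ' u e.1 := hue
  have hRe2 : Rch τ Γ' u (τ e.2 e.1) := by rw [← hδ']; exact hRe.go hδ
  have hR' : ∀ f ∈ Γ', Rch τ Γ' u f.1 := hconn
  have hRf : ∀ f ∈ Γ, Rch τ Γ' u f.1 := by
    intro f hf
    rcases hor f hf with h | h
    · exact hR' f h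
    · rw [h]; exact hRe
  have hRf2 : ∀ f ∈ Γ, Rch τ Γ' u (τ f.2 f.1) := by
    intro f hf
    rcases hor f hf with h | h
    · exact Rch.edge h (hR' f h)
    · rw [h]; exact hRe2
  have hRR : ∀ (L : List (α × Bool)) (w : Ω), Rch τ Γ' u w → Pth τ Γ L w →
      Rch τ Γ' u (walk τ L w) := by
    intro L
    induction L with
    | nil => intro w h _; exact h
    | cons l L ih =>
      intro w h hL
      rw [pth_cons] at hL
      have h1 := ih w h hL.2
      rcases l with ⟨x, b⟩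
      have h2 := hRf _ hL.1
      have h3 := hRf2 _ hL.1
      rw [walk_cons]
      cases b
      · simpa [edgeOf, step] using h2
      · simpa [edgeOf, step] using h3
  have hPΓ : ∀ w, Rch τ Γ u w → Pth τ Γ (P w) u ∧ walk τ (P w) u = w := by
    rintro w ⟨L, hL, rfl⟩
    have := hP _ (hRR L u (Rch.refl u) hL)
    exact ⟨this.1.mono hsub, this.2⟩
  -- the free product
  let K := Monoid.Coprod (QG τ Γ' W u) (Multiplicative (ZMod m))
  let z : K := Monoid.Coprod.inr (Multiplicative.ofAdd (1 : ZMod m))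
  let F' : FreeGroup α → K := fun g => Monoid.Coprod.inl (qc τ Γ' W u g)
  let μ : Ω × α → K := fun f =>
    if f ∈ Γ' then F' ((FreeGroup.mk (P (τ f.2 f.1)))⁻¹ * FreeGroup.of f.2 *
      FreeGroup.mk (P f.1))
    else if f = e then F' ((FreeGroup.mk (P (τ e.2 e.1)))⁻¹ * FreeGroup.mk δ *
      FreeGroup.mk (P e.1)) * z else 1
  have hμ' : ∀ f ∈ Γ', μ f = F' ((FreeGroup.mk (P (τ f.2 f.1)))⁻¹ * FreeGroup.of f.2 *
      FreeGroup.mk (P f.1)) := by
    intro f hf
    simp only [μ]; rw [if_pos hf]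
  have hμe : μ e = F' ((FreeGroup.mk (P (τ e.2 e.1)))⁻¹ * FreeGroup.mk δ *
      FreeGroup.mk (P e.1)) * z := by
    simp only [μ]; rw [if_neg heΓ']; simp
  have hF1 : F' 1 = 1 := by simp only [F']; rw [qc_one, map_one]
  have hFm : ∀ g h, g ∈ PG τ Γ' u → h ∈ PG τ Γ' u → F' (g * h) = F' g * F' h := by
    intro g h hg hh
    simp only [F']
    rw [qc_mul hg hh, map_mul]
  have ha : ∀ (L : List (α × Bool)) (w : Ω), Rch τ Γ' u w → Pth τ Γ' L w →
      pr τ μ L w = F' ((FreeGroup.mk (P (walk τ L w)))⁻¹ * FreeGroup.mk L *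
        FreeGroup.mk (P w)) :=
    fun L w => tele_path μ F' u hF1 hFm P hP hR' hμ' L w
  -- the loop through e
  have hT : (FreeGroup.mk (invL δ ++ [(e.2, true)]) : FreeGroup α) =
      (FreeGroup.mk δ)⁻¹ * FreeGroup.of e.2 := by
    rw [mk_app, mk_invL, of_eq_mk]
  have hTw : walk τ (invL δ ++ [(e.2, true)]) e.1 = e.1 := by
    rw [walk_append]
    simp only [walk_cons, walk_nil, step, if_true]
    rw [← hδ', walk_invL]
  have hTp : Pth τ Γ (invL δ ++ [(e.2, true)]) e.1 := by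
    rw [pth_append]
    refine ⟨?_, pth_single he⟩
    simp only [walk_cons, walk_nil, step, if_true]
    rw [← hδ', pth_invL]
    exact hδ.mono hsub
  have hb : pr τ μ (invL δ ++ [(e.2, true)]) e.1 = z := by
    rw [pr_append]
    simp only [walk_cons, walk_nil, step, if_true, pr_cons, pr_nil, mul_one, lab, edgeOf]
    rw [hμe]
    conv_lhs => enter [1]; rw [← hδ']
    rw [pr_invL, ha δ e.1 hRe hδ, hδ', inv_mul_cancel_left]
  -- relator loops are killed
  have hc : ∀ c ∈ CC τ Γ W, pr τ μ W c = 1 := by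
    intro c hcc
    rcases H1 c hcc with h | ⟨D, hD, ε, hε, hDW⟩
    · by_cases hW : W = []
      · have hnil : ∀ V : List (α × Bool), V = [] → pr τ μ V c = 1 := by
          rintro _ rfl; rfl
        exact hnil W hW
      · have hRc : Rch τ Γ' u c := by
          obtain ⟨A, l, hAl⟩ : ∃ A l, W = A ++ [l] := by
            obtain ⟨A, l, h⟩ := List.eq_nil_or_concat' W |>.resolve_left hW
            exact ⟨A, l, h⟩
          have hp := h.2
          rw [hAl, pth_append] at hp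
          have hl := hp.2 (edgeOf τ l c) (by simp)
          rcases l with ⟨x, b⟩
          have h2 := hR' _ hl
          have h3 := Rch.edge hl h2
          cases b
          · simpa [edgeOf] using h3
          · simpa [edgeOf] using h2
        rw [ha W c hRc h.2, h.1]
        simp only [F']
        have := mem_RG (W := W) (hP c hRc).1 (by rw [(hP c hRc).2]; exact h)
        rw [qc_of_RG this, map_one]
    · have h1 : pr τ μ (invL D ++ (W ++ D)) e.1 = 1 := by
        rw [pr_zpow (ε := ε) μ hTw, hb]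
        · simp only [z]
          rw [← map_zpow, z_zpow m ε hε, map_one]
        · rw [hT, mk_app, mk_app, mk_invL, ← mul_assoc]; exact hDW
      rw [pr_append, pr_append, walk_append, hD, hcc.1] at h1
      conv at h1 => lhs; enter [1]; rw [← hD]
      rw [pr_invL] at h1
      exact conj_one_aux h1
  -- the map forward
  let Θ0 : QG τ Γ W u →* K := QuotientGroup.lift _ (cocHom τ Γ μ u)
    (fun g hg => cocHom_kill μ u W hc hg)
  have hΘ0 : ∀ (L : List (α × Bool)) (h : (FreeGroup.mk L : FreeGroup α) ∈ PG τ Γ u),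
      Θ0 (QuotientGroup.mk ⟨FreeGroup.mk L, h⟩) = pr τ μ L u := by
    intro L h
    simp only [Θ0]
    rw [QuotientGroup.lift_mk, cocHom_apply]
  have hΘ1 : ∀ (g : FreeGroup α) (h1 : g ∈ PG τ Γ' u) (h2 : g ∈ PG τ Γ u),
      Θ0 (QuotientGroup.mk ⟨g, h2⟩) = Monoid.Coprod.inl (QuotientGroup.mk ⟨g, h1⟩) := by
    intro g h1 h2
    obtain ⟨L, hL, hL', rfl⟩ := id h1
    have h3 : ((FreeGroup.mk [])⁻¹ * FreeGroup.mk L * FreeGroup.mk [] : FreeGroup α) =
        FreeGroup.mk L := by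
      have : (FreeGroup.mk [] : FreeGroup α) = 1 := rfl
      rw [this]; group
    have h4 : pr τ μ L u = F' (FreeGroup.mk L) := by
      rw [ha L u (Rch.refl u) hL, hL', hPu, h3]
    rw [hΘ0, h4]
    simp only [F']
    rw [qc_of_mem h1]
  -- the map backward
  have htm : (FreeGroup.mk (P e.1))⁻¹ * ((FreeGroup.mk δ)⁻¹ * FreeGroup.of e.2) *
      FreeGroup.mk (P e.1) ∈ PG τ Γ u := by
    rw [← hT]
    exact tri_mem ((hP _ hRe).1.mono hsub) (hP _ hRe).2 hTp hTw ((hP _ hRe).1.mono hsub)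
      (hP _ hRe).2
  have htpow : ∀ k : ℤ, (qc τ Γ W u ((FreeGroup.mk (P e.1))⁻¹ *
      ((FreeGroup.mk δ)⁻¹ * FreeGroup.of e.2) * FreeGroup.mk (P e.1))) ^ k =
      qc τ Γ W u ((FreeGroup.mk (P e.1))⁻¹ *
      ((FreeGroup.mk δ)⁻¹ * FreeGroup.of e.2) ^ k * FreeGroup.mk (P e.1)) := by
    intro k
    have h1 : (FreeGroup.mk (P e.1))⁻¹ *
      ((FreeGroup.mk δ)⁻¹ * FreeGroup.of e.2) ^ k * FreeGroup.mk (P e.1) =
      ((FreeGroup.mk (P e.1))⁻¹ *
      ((FreeGroup.mk δ)⁻¹ * FreeGroup.of e.2) * FreeGroup.mk (P e.1)) ^ k := by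
      have := conj_zpow (i := k) (a := (FreeGroup.mk (P e.1))⁻¹)
        (b := (FreeGroup.mk δ)⁻¹ * FreeGroup.of e.2)
      rw [inv_inv] at this
      exact this.symm
    rw [h1, qc_of_mem htm, qc_of_mem (zpow_mem htm k)]
    rfl
  have hord : (qc τ Γ W u ((FreeGroup.mk (P e.1))⁻¹ *
      ((FreeGroup.mk δ)⁻¹ * FreeGroup.of e.2) * FreeGroup.mk (P e.1))) ^ m = 1 := by
    rcases H2 with h | ⟨D, hD, hD', ε, hε, hDW⟩
    · rw [h, pow_zero]
    · have h1 : (qc τ Γ W u ((FreeGroup.mk (P e.1))⁻¹ *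
          ((FreeGroup.mk δ)⁻¹ * FreeGroup.of e.2) * FreeGroup.mk (P e.1))) ^ ε = 1 := by
        rw [htpow, ← hDW]
        have h2 := mem_RG (W := W) (((hP _ hRe).1.mono hsub).app (hP _ hRe).2 hD)
          (by rw [walk_append, (hP _ hRe).2]; exact hD')
        rw [mk_app] at h2
        have h3 : (FreeGroup.mk (P e.1))⁻¹ * ((FreeGroup.mk D)⁻¹ * FreeGroup.mk W *
            FreeGroup.mk D) * FreeGroup.mk (P e.1) = (FreeGroup.mk D * FreeGroup.mk (P e.1))⁻¹ *
            FreeGroup.mk W * (FreeGroup.mk D * FreeGroup.mk (P e.1)) := by group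
        rw [h3]
        exact qc_of_RG h2
      rcases hε with h | h
      · rw [h, zpow_natCast] at h1; exact h1
      · rw [h, zpow_neg, zpow_natCast, inv_eq_one] at h1; exact h1
  obtain ⟨zf, hzf⟩ := exists_zhom m _ hord
  let ι : K →* QG τ Γ W u := Monoid.Coprod.lift (incl hsub W u) zf
  have hιF : ∀ g, g ∈ PG τ Γ' u → ι (F' g) = qc τ Γ W u g := by
    intro g hg
    simp only [ι, F']
    rw [Monoid.Coprod.lift_apply_inl, incl_qc hsub W u hg]
  have hιz : ι z = qc τ Γ W u ((FreeGroup.mk (P e.1))⁻¹ *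
      ((FreeGroup.mk δ)⁻¹ * FreeGroup.of e.2) * FreeGroup.mk (P e.1)) := by
    simp only [ι, z]
    rw [Monoid.Coprod.lift_apply_inr, hzf]
  have hιμ : ∀ f ∈ Γ, ι (μ f) = qc τ Γ W u ((FreeGroup.mk (P (τ f.2 f.1)))⁻¹ *
      FreeGroup.of f.2 * FreeGroup.mk (P f.1)) := by
    intro f hf
    rcases hor f hf with h | h
    · rw [hμ' f h, hιF]
      rw [of_eq_mk]
      exact tri_mem (hP _ (hR' f h)).1 (hP _ (hR' f h)).2 (pth_single h) (by simp [step])
        (hP _ (hRf2 f hf)).1 (hP _ (hRf2 f hf)).2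
    · rw [h, hμe, map_mul, hιz]
      have hm : (FreeGroup.mk (P (τ e.2 e.1)))⁻¹ * FreeGroup.mk δ * FreeGroup.mk (P e.1) ∈
          PG τ Γ' u :=
        tri_mem (hP _ hRe).1 (hP _ hRe).2 hδ hδ' (hP _ hRe2).1 (hP _ hRe2).2
      rw [hιF _ hm, ← qc_mul (PG_mono hsub u hm) htm]
      congr 1
      group
  -- backward after forward
  have hf : ∀ x, ι (Θ0 x) = x := by
    intro x
    induction x using QuotientGroup.induction_on with
    | H x =>
      obtain ⟨g, hg⟩ := x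
      obtain ⟨L, hL, hL', rfl⟩ := id hg
      have h0 := hΘ0 L hg
      refine (congrArg ι h0).trans ?_
      have h3 : ((FreeGroup.mk [])⁻¹ * FreeGroup.mk L * FreeGroup.mk [] : FreeGroup α) =
          FreeGroup.mk L := by
        have : (FreeGroup.mk [] : FreeGroup α) = 1 := rfl
        rw [this]; group
      have h4 : pr τ (fun f => ι (μ f)) L u = qc τ Γ W u (FreeGroup.mk L) := by
        rw [tele_path (Γ := Γ) (fun f => ι (μ f)) (qc τ Γ W u) u qc_one
          (fun g h hg hh => qc_mul hg hh) P hPΓ (fun f hf => (hRf f hf).mono hsub) hιμ L u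
          (Rch.refl u) hL, hL', hPu, h3]
      rw [ns_pr_map, h4]
      exact qc_of_mem hg
  have hg : ∀ k, Θ0 (ι k) = k := by
    have hcomp : Θ0.comp ι = MonoidHom.id K := by
      apply Monoid.Coprod.hom_ext
      · refine MonoidHom.ext fun x => ?_
        induction x using QuotientGroup.induction_on with
        | H x =>
          obtain ⟨g, hg⟩ := x
          simp only [MonoidHom.comp_apply, ι]
          rw [Monoid.Coprod.lift_apply_inl]
          exact hΘ1 g hg (PG_mono hsub u hg)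
      · apply zhom_ext
        simp only [MonoidHom.comp_apply, ι]
        rw [Monoid.Coprod.lift_apply_inr, hzf]
        have h1 : ((FreeGroup.mk (P e.1))⁻¹ *
            ((FreeGroup.mk δ)⁻¹ * FreeGroup.of e.2) * FreeGroup.mk (P e.1) : FreeGroup α) =
            FreeGroup.mk (invL (P e.1) ++ ((invL δ ++ [(e.2, true)]) ++ P e.1)) := by
          rw [mk_app, mk_app, hT, mk_invL, mul_assoc]
        have h2 : ∀ (g : FreeGroup α) (L : List (α × Bool)), g = FreeGroup.mk L →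
            g ∈ PG τ Γ u → Θ0 (qc τ Γ W u g) = pr τ μ L u := by
          rintro g L rfl hgm
          rw [qc_of_mem hgm]
          exact hΘ0 L hgm
        rw [h2 _ _ h1 htm, pr_append, pr_append, walk_append, (hP _ hRe).2, hTw, hb]
        have h3 : pr τ μ (invL (P e.1)) e.1 = (pr τ μ (P e.1) u)⁻¹ := by
          have := pr_invL τ μ (P e.1) u
          rw [(hP _ hRe).2] at this
          exact this
        have h4 : pr τ μ (P e.1) u = 1 := by
          rw [ha (P e.1) u (Rch.refl u) (hP _ hRe).1, (hP _ hRe).2, hPu]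
          have : (FreeGroup.mk [] : FreeGroup α) = 1 := rfl
          rw [this, mul_one, inv_mul_cancel, hF1]
        rw [h3, h4, inv_one, one_mul, mul_one]
        rfl
    intro k
    have := DFunLike.congr_fun hcomp k
    simpa using this
  refine ⟨{ toFun := Θ0, invFun := ι, left_inv := hf, right_inv := hg, map_mul' := map_mul Θ0 },
    fun g h1 h2 => hΘ1 g h1 h2⟩

end Pool.Agent.Helper122
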