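import Pool.Agent.Helper122.Cohop.Defs

set_option autoImplicit false

namespace Pool.Agent.Helper122

variable {α : Type} {Ω : Type}

section reroute
variable {τ : α → Equiv.Perm Ω} {Γ : Set (Ω × α)}

/-- Endpoints of an edge in terms of a letter traversing it. -/
theorem edgeOf_ends (τ : α → Equiv.Perm Ω) (l : α × Bool) (w : Ω) :
    (l.2 = true ∧ (edgeOf τ l w).1 = w ∧ τ (edgeOf τ l w).2 (edgeOf τ l w).1 = step τ l w) ∨
    (l.2 = false ∧ (edgeOf τ l w).1 = step τ l w ∧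
      τ (edgeOf τ l w).2 (edgeOf τ l w).1 = w) := by
  rcases l with ⟨x, b⟩
  cases b
  · right; simp [edgeOf, step]
  · left; simp [edgeOf, step]

/-- Paths can be rerouted around an edge. -/
theorem reroute (e : Ω × α) (δ : List (α × Bool)) (hδ : Pth τ (Γ \ {e}) δ e.1)
    (hδ' : walk τ δ e.1 = τ e.2 e.1) (L : List (α × Bool)) (u : Ω) (hL : Pth τ Γ L u) :
    ∃ L', Pth τ (Γ \ {e}) L' u ∧ walk τ L' u = walk τ L u := by
  induction L with
  | nil => exact ⟨[], Pth.nil u, rfl⟩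
  | cons l L ih =>
    rw [pth_cons] at hL
    obtain ⟨L', h1, h2⟩ := ih hL.2
    by_cases he : edgeOf τ l (walk τ L u) = e
    · rcases edgeOf_ends τ l (walk τ L u) with ⟨-, h3, h4⟩ | ⟨-, h3, h4⟩
      · rw [he] at h3 h4
        refine ⟨δ ++ L', ?_, ?_⟩
        · rw [pth_append, h2, ← h3]; exact ⟨hδ, h1⟩
        · rw [walk_append, h2, ← h3, hδ', h4, walk_cons]
      · rw [he] at h3 h4
        obtain ⟨h5, h6⟩ := hδ.inv hδ'
        refine ⟨invL δ ++ L', ?_, ?_⟩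
        · rw [pth_append, h2, ← h4]; exact ⟨h5, h1⟩
        · rw [walk_append, h2, ← h4, h6, h3, walk_cons]
    · refine ⟨l :: L', ?_, ?_⟩
      · rw [pth_cons, h2]; exact ⟨⟨hL.1, he⟩, h1⟩
      · rw [walk_cons, h2, walk_cons]

theorem conn_erase (e : Ω × α) (he : e ∈ Γ) (δ : List (α × Bool))
    (hδ : Pth τ (Γ \ {e}) δ e.1) (hδ' : walk τ δ e.1 = τ e.2 e.1) {u : Ω}
    (hc : Conn τ Γ u) : Conn τ (Γ \ {e}) u ∧ ∃ L, Pth τ (Γ \ {e}) L u ∧ walk τ L u = e.1 := by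
  refine ⟨?_, ?_⟩
  · intro f hf
    obtain ⟨L, h1, h2⟩ := hc f hf.1
    obtain ⟨L', h3, h4⟩ := reroute e δ hδ hδ' L u h1
    exact ⟨L', h3, h4.trans h2⟩
  · obtain ⟨L, h1, h2⟩ := hc e he
    obtain ⟨L', h3, h4⟩ := reroute e δ hδ hδ' L u h1
    exact ⟨L', h3, h4.trans h2⟩

end reroute

section once
variable {τ : α → Equiv.Perm Ω} {Γ : Set (Ω × α)}

theorem Cov.of_split {R A B : List (α × Bool)} {l : α × Bool} (h : R = A ++ l :: B) (c : Ω) :
    Cov τ R c A.length (edgeOf τ l (walk τ B c)) := ⟨A, B, l, h, rfl, rfl⟩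

theorem walk_rpow_iter (R : List (α × Bool)) (j : ℕ) (c : Ω) :
    walk τ (rpow R j) c = (walk τ R)^[j] c := by
  induction j generalizing c with
  | zero => rfl
  | succ j ih => rw [rpow_succ', walk_append, ih, Function.iterate_succ_apply]

/-- An edge covered exactly once lies on a closed path that passes it once. -/
theorem cover_once {R : List (α × Bool)} {n : ℕ} (hn : 1 ≤ n) (e : Ω × α)
    (c0 : Ω) (i0 : ℕ) (hc0 : c0 ∈ CC τ Γ (rpow R n)) (hcov : Cov τ R c0 i0 e)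
    (huniq : ∀ c ∈ CC τ Γ (rpow R n), ∀ i, Cov τ R c i e → c = c0 ∧ i = i0) :
    ∃ (δ : List (α × Bool)) (m : ℕ), 1 ≤ m ∧ Pth τ (Γ \ {e}) δ e.1 ∧
      walk τ δ e.1 = τ e.2 e.1 ∧
      (∀ c ∈ CC τ Γ (rpow R n), c ∈ CC τ (Γ \ {e}) (rpow R n) ∨
        ∃ D, walk τ D e.1 = c ∧ ∃ ε : ℤ, (m : ℤ) ∣ ε ∧
        (FreeGroup.mk D)⁻¹ * FreeGroup.mk (rpow R n) * FreeGroup.mk D =
          ((FreeGroup.mk δ)⁻¹ * FreeGroup.of e.2) ^ ε) ∧
      (∃ D, Pth τ Γ D e.1 ∧ walk τ D e.1 ∈ CC τ Γ (rpow R n) ∧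
        ∃ ε : ℤ, (ε = (m : ℤ) ∨ ε = -(m : ℤ)) ∧
        (FreeGroup.mk D)⁻¹ * FreeGroup.mk (rpow R n) * FreeGroup.mk D =
          ((FreeGroup.mk δ)⁻¹ * FreeGroup.of e.2) ^ ε) := by
  obtain ⟨A0, B, l, hR, hA0, he⟩ := hcov
  obtain ⟨k, hk⟩ : ∃ k, k = Function.minimalPeriod (walk τ R) c0 := ⟨_, rfl⟩
  have hper : Function.IsPeriodicPt (walk τ R) n c0 := by
    have := hc0.1
    rw [walk_rpow_iter] at this
    exact this
  have hkpos : 0 < k := by rw [hk]; exact hper.minimalPeriod_pos (by omega)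
  obtain ⟨m, hm⟩ : k ∣ n := by rw [hk]; exact hper.minimalPeriod_dvd
  have hm1 : 1 ≤ m := by
    rcases Nat.eq_zero_or_pos m with rfl | h
    · omega
    · exact h
  have hkc : walk τ (rpow R k) c0 = c0 := by
    rw [walk_rpow_iter, hk]; exact Function.isPeriodicPt_minimalPeriod _ _
  have hmin : ∀ j, 0 < j → j < k → walk τ (rpow R j) c0 ≠ c0 := by
    intro j hj hjk h
    rw [walk_rpow_iter] at h
    have : Function.minimalPeriod (walk τ R) c0 ≤ j :=
      Function.IsPeriodicPt.minimalPeriod_le hj h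
    omega
  obtain ⟨k', hk'⟩ : ∃ k', k = k' + 1 := ⟨k - 1, by omega⟩
  obtain ⟨A, hA⟩ : ∃ A, A = rpow R k' ++ A0 := ⟨_, rfl⟩
  have hRk : rpow R k = A ++ l :: B := by
    rw [hk', rpow_succ', hA]
    nth_rewrite 2 [hR]
    simp
  obtain ⟨p, hp⟩ : ∃ p, p = walk τ B c0 := ⟨_, rfl⟩
  obtain ⟨q, hq⟩ : ∃ q, q = step τ l p := ⟨_, rfl⟩
  rw [← hp] at he
  have hwR : walk τ R c0 = walk τ A0 q := by
    rw [hR, walk_append, walk_cons, ← hp, ← hq]
  have hAq : walk τ A q = c0 := by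
    have := hkc
    rw [hRk, walk_append, walk_cons, ← hp, ← hq] at this
    exact this
  have hRΓ : Pth τ Γ (rpow R k) c0 := CC_pth_iter hn hc0 k
  have hΓB : Pth τ (Γ \ {e}) B c0 := by
    intro f hf
    refine ⟨?_, ?_⟩
    · apply hRΓ
      rw [hRk, edges_append, List.mem_append]
      right
      simp [hf]
    · rintro rfl
      obtain ⟨B1, B2, l', h1, h2, -⟩ := first_trav τ hf
      have := (huniq c0 hc0 (A0 ++ l :: B1).length (by
        rw [h2]
        apply Cov.of_split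
        rw [hR, h1]; simp)).2
      simp at this
      omega
  have hΓA : Pth τ (Γ \ {e}) A q := by
    intro f hf
    refine ⟨?_, ?_⟩
    · apply hRΓ
      rw [hRk, edges_append, List.mem_append, walk_cons, ← hp, ← hq]
      left
      exact hf
    · rintro rfl
      rw [hA, edges_append, List.mem_append, ← hwR] at hf
      rcases hf with hf | hf
      · rw [mem_edges_rpow] at hf
        obtain ⟨j, hj, hf⟩ := hf
        rw [← walk_append, ← rpow_succ'] at hf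
        obtain ⟨i, hi⟩ := mem_edges_cov.1 hf
        exact hmin (j + 1) (by omega) (by omega)
          (huniq _ (CC_iter hn hc0 (j + 1)) i hi).1
      · obtain ⟨B1, B2, l', h1, h2, -⟩ := first_trav τ hf
        have hB2 : walk τ B2 q = walk τ (B2 ++ l :: B) c0 := by
          rw [walk_append, walk_cons, ← hp, ← hq]
        rw [hB2] at h2
        have := (huniq c0 hc0 B1.length (by
          rw [h2]
          apply Cov.of_split
          rw [hR, h1]; simp)).2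
        rw [← hA0, h1] at this
        simp at this
  have hWm : (FreeGroup.mk (rpow R n) : FreeGroup α) = FreeGroup.mk (rpow R k) ^ m := by
    rw [mk_rpow, mk_rpow, hm, pow_mul]
  have hRk' : (FreeGroup.mk (rpow R k) : FreeGroup α) =
      FreeGroup.mk A * (FreeGroup.mk [l] * FreeGroup.mk B) := by
    rw [hRk, mk_app, ← mk_app [l] B]; rfl
  -- the transport of H1 to all vertices
  have transp : ∀ (δ D0 : List (α × Bool)) (ε : ℤ), (m : ℤ) ∣ ε → walk τ D0 e.1 = c0 →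
      (FreeGroup.mk D0)⁻¹ * FreeGroup.mk (rpow R n) * FreeGroup.mk D0 =
          ((FreeGroup.mk δ)⁻¹ * FreeGroup.of e.2) ^ ε →
      ∀ c ∈ CC τ Γ (rpow R n), c ∈ CC τ (Γ \ {e}) (rpow R n) ∨
        ∃ D, walk τ D e.1 = c ∧ ∃ ε : ℤ, (m : ℤ) ∣ ε ∧
        (FreeGroup.mk D)⁻¹ * FreeGroup.mk (rpow R n) * FreeGroup.mk D =
          ((FreeGroup.mk δ)⁻¹ * FreeGroup.of e.2) ^ ε := by
    intro δ D0 ε hε hD0 hD c hc
    by_cases hec : e ∈ edges τ (rpow R n) c
    · right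
      rw [mem_edges_rpow] at hec
      obtain ⟨j, hj, hf⟩ := hec
      obtain ⟨i, hi⟩ := mem_edges_cov.1 hf
      have hj0 := (huniq _ (CC_iter hn hc j) i hi).1
      refine ⟨invL (rpow R j) ++ D0, ?_, ε, hε, ?_⟩
      · rw [walk_append, hD0, ← hj0, walk_invL]
      · rw [← hD, mk_app, mk_invL, mk_rpow, mk_rpow]
        have : (FreeGroup.mk R : FreeGroup α) ^ n =
            FreeGroup.mk R ^ j * FreeGroup.mk R ^ n * (FreeGroup.mk R ^ j)⁻¹ := by
          rw [← pow_add, add_comm, pow_add]; group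
        nth_rewrite 2 [this]
        group
    · left
      refine ⟨hc.1, fun f hf => ⟨hc.2 f hf, ?_⟩⟩
      rintro rfl
      exact hec hf
  rcases edgeOf_ends τ l p with ⟨hl, h3, h4⟩ | ⟨hl, h3, h4⟩
  · rw [← he] at h3 h4
    rw [← hq] at h4
    have hx : (FreeGroup.mk [l] : FreeGroup α) = FreeGroup.of e.2 := by
      rw [he]; rcases l with ⟨x, b⟩; simp only at hl; rw [hl]; rfl
    obtain ⟨b1, b2⟩ := hΓB.inv hp.symm
    obtain ⟨a1, a2⟩ := hΓA.inv hAq
    have hT : (FreeGroup.mk (invL A ++ invL B) : FreeGroup α)⁻¹ * FreeGroup.of e.2 =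
        FreeGroup.mk B * FreeGroup.mk (rpow R k) * (FreeGroup.mk B)⁻¹ := by
      rw [mk_app, mk_invL, mk_invL, hRk', hx]
      group
    refine ⟨invL A ++ invL B, m, hm1, ?_, ?_, ?_, ?_⟩
    · rw [h3]; exact b1.app b2 a1
    · rw [h3, walk_append, b2, a2, ← h3, h4]
    · refine transp _ (invL B) m (dvd_refl _) (by rw [h3, b2]) ?_
      rw [hT, mk_invL, inv_inv, hWm, ← conj_pow, zpow_natCast]
    · refine ⟨invL B, ?_, ?_, m, Or.inl rfl, ?_⟩
      · rw [h3]; exact b1.mono Set.sdiff_subset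
      · rw [h3, b2]; exact hc0
      · rw [hT, mk_invL, inv_inv, hWm, ← conj_pow, zpow_natCast]
  · rw [← he] at h3 h4
    rw [← hq] at h3
    have hx : (FreeGroup.mk [l] : FreeGroup α) = (FreeGroup.of e.2)⁻¹ := by
      rw [he]; rcases l with ⟨x, b⟩; simp only at hl; rw [hl]; rfl
    have hT : (FreeGroup.mk (B ++ A) : FreeGroup α)⁻¹ * FreeGroup.of e.2 =
        ((FreeGroup.mk A)⁻¹ * FreeGroup.mk (rpow R k) * FreeGroup.mk A)⁻¹ := by
      rw [mk_app, hRk', hx]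
      group
    have hfin : (FreeGroup.mk A)⁻¹ * FreeGroup.mk (rpow R n) * FreeGroup.mk A =
        ((FreeGroup.mk (B ++ A) : FreeGroup α)⁻¹ * FreeGroup.of e.2) ^ (-(m : ℤ)) := by
      rw [hT, inv_zpow, zpow_neg, inv_inv, zpow_natCast, hWm]
      have : (FreeGroup.mk A)⁻¹ * FreeGroup.mk (rpow R k) * FreeGroup.mk A =
        (FreeGroup.mk A)⁻¹ * FreeGroup.mk (rpow R k) * ((FreeGroup.mk A)⁻¹)⁻¹ := by
        rw [inv_inv]
      rw [this, conj_pow, inv_inv]
    refine ⟨B ++ A, m, hm1, ?_, ?_, ?_, ?_⟩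
    · rw [h3]; exact hΓA.app hAq hΓB
    · rw [h3, walk_append, hAq, ← hp, ← h4, h3]
    · exact transp _ A (-(m : ℤ)) (by simp) (by rw [h3, hAq]) hfin
    · refine ⟨A, ?_, ?_, -(m : ℤ), Or.inr rfl, hfin⟩
      · rw [h3]; exact hΓA.mono Set.sdiff_subset
      · rw [h3, hAq]; exact hc0

end once

end Pool.Agent.Helper122
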