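import Pool.Agent.Helper122.Cohop.Defs

set_option autoImplicit false

namespace Pool.Agent.Helper122

variable {α : Type} {Ω : Type}



section sepsplit
variable {τ : α → Equiv.Perm Ω}

/-- Naturality of label products. -/
theorem sep_pr_map {Q Q' : Type} [Group Q] [Group Q'] (φ : Q →* Q') (μ : Ω × α → Q)
    (L : List (α × Bool)) (ω : Ω) : φ (pr τ μ L ω) = pr τ (fun f => φ (μ f)) L ω := by
  induction L with
  | nil => simp
  | cons l L ih =>
    rw [pr_cons, pr_cons, map_mul, ih]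
    congr 1
    simp only [lab]
    split_ifs <;> simp

theorem pth_stay {Γ : Set (Ω × α)} {K : Set Ω} (hK : ∀ f ∈ Γ, f.1 ∈ K ∧ τ f.2 f.1 ∈ K)
    (L : List (α × Bool)) (w : Ω) (hL : Pth τ Γ L w) (hw : w ∈ K) : walk τ L w ∈ K := by
  induction L with
  | nil => exact hw
  | cons l L ih =>
    rw [pth_cons] at hL
    have h1 := hK _ hL.1
    rcases l with ⟨a, b⟩
    cases b
    · simp only [walk_cons, step, Bool.false_eq_true, if_false]
      simpa [edgeOf] using h1.1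
    · simp only [walk_cons, step, if_true]
      simpa [edgeOf] using h1.2

/-- Both endpoints of the edge traversed by a step. -/
theorem edge_ends {S : Set Ω} {l : α × Bool} {x : Ω}
    (h : (edgeOf τ l x).1 ∈ S ∧ τ (edgeOf τ l x).2 (edgeOf τ l x).1 ∈ S) :
    x ∈ S ∧ step τ l x ∈ S := by
  rcases l with ⟨a, b⟩
  cases b
  · simp only [edgeOf, step, Bool.false_eq_true, if_false, Equiv.apply_symm_apply] at h ⊢
    exact ⟨h.2, h.1⟩
  · simp only [edgeOf, step, if_true] at h ⊢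
    exact h

theorem pth_start {Γ : Set (Ω × α)} {S : Set Ω} (hS : ∀ f ∈ Γ, f.1 ∈ S ∧ τ f.2 f.1 ∈ S)
    (L : List (α × Bool)) (w : Ω) (hL : Pth τ Γ L w) (hne : L ≠ []) : w ∈ S := by
  induction L with
  | nil => exact absurd rfl hne
  | cons l L ih =>
    rw [pth_cons] at hL
    by_cases h : L = []
    · subst h
      exact (edge_ends (hS _ hL.1)).1
    · exact ih hL.2 h

/-- Representatives turn paths into loops. -/
theorem rep_mem {Γ : Set (Ω × α)} {v : Ω} {p : Ω → FreeGroup α} {S : Set Ω}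
    (hp : ∀ w ∈ S, ∃ L, Pth τ Γ L v ∧ walk τ L v = w ∧ FreeGroup.mk L = p w)
    (M : List (α × Bool)) {x y : Ω} (hx : x ∈ S) (hy : y ∈ S) (hM : Pth τ Γ M x)
    (hxy : walk τ M x = y) : (p y)⁻¹ * FreeGroup.mk M * p x ∈ PG τ Γ v := by
  obtain ⟨A, hA, hA', hA''⟩ := hp x hx
  obtain ⟨C, hC, hC', hC''⟩ := hp y hy
  obtain ⟨h3, h4⟩ := hC.inv hC'
  refine ⟨invL C ++ (M ++ A), (hA.app hA' hM).app (walk_app hA' hxy) h3,
    walk_app (walk_app hA' hxy) h4, ?_⟩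
  rw [mk_app, mk_app, mk_invL, hA'', hC'', mul_assoc]

theorem pr_tree {Q : Type} [Group Q] {Γ : Set (Ω × α)} {v : Ω} {p : Ω → FreeGroup α}
    {S : Set Ω} (hp : ∀ w ∈ S, ∃ L, Pth τ Γ L v ∧ walk τ L v = w ∧ FreeGroup.mk L = p w)
    (hS : ∀ f ∈ Γ, f.1 ∈ S ∧ τ f.2 f.1 ∈ S)
    (φ : FreeGroup α → Q) (hφ1 : φ 1 = 1)
    (hφ : ∀ g h, g ∈ PG τ Γ v → h ∈ PG τ Γ v → φ (g * h) = φ g * φ h)
    (μ : Ω × α → Q) (hμ : ∀ f ∈ Γ, μ f = φ ((p (τ f.2 f.1))⁻¹ * FreeGroup.of f.2 * p f.1))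
    (L : List (α × Bool)) (w : Ω) (hw : w ∈ S) (hL : Pth τ Γ L w) :
    walk τ L w ∈ S ∧ pr τ μ L w = φ ((p (walk τ L w))⁻¹ * FreeGroup.mk L * p w) := by
  have hinv : ∀ g ∈ PG τ Γ v, φ g⁻¹ = (φ g)⁻¹ := by
    intro g hg
    have := hφ g⁻¹ g (inv_mem hg) hg
    rw [inv_mul_cancel, hφ1] at this
    exact eq_inv_of_mul_eq_one_left this.symm
  induction L with
  | nil =>
    refine ⟨hw, ?_⟩
    rw [pr_nil, walk_nil]
    have : (p w)⁻¹ * FreeGroup.mk [] * p w = 1 := by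
      have h1 : (FreeGroup.mk [] : FreeGroup α) = 1 := rfl
      rw [h1]; group
    rw [this, hφ1]
  | cons l L ih =>
    rw [pth_cons] at hL
    obtain ⟨ih1, ih2⟩ := ih hL.2
    have hends := edge_ends (hS _ hL.1)
    refine ⟨hends.2, ?_⟩
    rw [pr_cons, ih2, walk_cons]
    have hB := rep_mem hp L hw ih1 hL.2 rfl
    have hA := rep_mem hp [l] ih1 hends.2 (by rw [pth_cons]; exact ⟨hL.1, Pth.nil _⟩) rfl
    have hmk : (FreeGroup.mk (l :: L) : FreeGroup α) = FreeGroup.mk [l] * FreeGroup.mk L :=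
      mk_app [l] L
    have hlab : lab τ μ l (walk τ L w) =
        φ ((p (step τ l (walk τ L w)))⁻¹ * FreeGroup.mk [l] * p (walk τ L w)) := by
      have h1 := hμ _ hL.1
      generalize walk τ L w = x at *
      rcases l with ⟨a, b⟩
      cases b
      · simp only [lab, Bool.false_eq_true, if_false]
        rw [h1, ← inv_inj, inv_inv, ← hinv _ hA]
        have h2 : (FreeGroup.mk [(a, false)] : FreeGroup α) = (FreeGroup.of a)⁻¹ := rfl
        rw [h2]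
        congr 1
        simp only [edgeOf, step, Bool.false_eq_true, if_false, Equiv.apply_symm_apply]
        group
      · simp only [lab, if_true]
        rw [h1]
        rfl
    rw [hlab, ← hφ _ _ hA hB, hmk]
    congr 1
    group

/-- The quotient map, extended by 1. -/
noncomputable def qx (τ : α → Equiv.Perm Ω) (Γ : Set (Ω × α)) (W : List (α × Bool)) (u : Ω)
    (g : FreeGroup α) : QG τ Γ W u := by
  classical exact if h : g ∈ PG τ Γ u then QuotientGroup.mk ⟨g, h⟩ else 1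

theorem qx_of_mem {Γ : Set (Ω × α)} (W : List (α × Bool)) {u : Ω} {g : FreeGroup α}
    (h : g ∈ PG τ Γ u) : qx τ Γ W u g = QuotientGroup.mk ⟨g, h⟩ := by
  simp only [qx]
  rw [dif_pos h]

theorem qx_one (Γ : Set (Ω × α)) (W : List (α × Bool)) (u : Ω) : qx τ Γ W u 1 = 1 := by
  rw [qx_of_mem W (one_mem _)]
  rfl

theorem qx_mul {Γ : Set (Ω × α)} (W : List (α × Bool)) {u : Ω} {g h : FreeGroup α}
    (hg : g ∈ PG τ Γ u) (hh : h ∈ PG τ Γ u) :
    qx τ Γ W u (g * h) = qx τ Γ W u g * qx τ Γ W u h := by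
  rw [qx_of_mem W hg, qx_of_mem W hh, qx_of_mem W (mul_mem hg hh)]
  rfl

theorem qx_inv {Γ : Set (Ω × α)} (W : List (α × Bool)) {u : Ω} {g : FreeGroup α}
    (hg : g ∈ PG τ Γ u) : qx τ Γ W u g⁻¹ = (qx τ Γ W u g)⁻¹ := by
  rw [qx_of_mem W hg, qx_of_mem W (inv_mem hg)]
  rfl

theorem qx_RG {Γ : Set (Ω × α)} {W : List (α × Bool)} {u : Ω} {g : FreeGroup α}
    (hg : g ∈ RG τ Γ W u) : qx τ Γ W u g = 1 := by
  rw [qx_of_mem W (RG_le_PG W u hg)]
  rw [QuotientGroup.eq_one_iff]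
  exact hg

/-- Labellings killing the relator loops define homomorphisms. -/
theorem exists_hom {Q : Type} [Group Q] (Γ : Set (Ω × α)) (W : List (α × Bool)) (u : Ω)
    (μ : Ω × α → Q) (hμ : ∀ c ∈ CC τ Γ W, pr τ μ W c = 1) :
    ∃ Θ : QG τ Γ W u →* Q, ∀ (L : List (α × Bool)) (h : FreeGroup.mk L ∈ PG τ Γ u),
      Θ (QuotientGroup.mk ⟨FreeGroup.mk L, h⟩) = pr τ μ L u := by
  have key : ∀ L : List (α × Bool),
      (FreeGroup.lift (skew τ μ) (FreeGroup.mk L) (u, 1)).2 = pr τ μ L u := by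
    intro L
    rw [lift_mk_eq_walk, walk_skew, mul_one]
  let Φ : PG τ Γ u →* Q :=
    { toFun := fun g => (FreeGroup.lift (skew τ μ) g.1 (u, 1)).2
      map_one' := by simp
      map_mul' := by
        rintro ⟨g, hg⟩ ⟨h, hh⟩
        obtain ⟨A, hA, hA', rfl⟩ := hg
        obtain ⟨C, hC, hC', rfl⟩ := hh
        show (FreeGroup.lift (skew τ μ) (FreeGroup.mk A * FreeGroup.mk C) (u, 1)).2 = _
        rw [← mk_app, key, key, key, pr_append, hC'] }
  have hΦ : ∀ (L : List (α × Bool)) (h : FreeGroup.mk L ∈ PG τ Γ u),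
      Φ ⟨FreeGroup.mk L, h⟩ = pr τ μ L u := fun L h => key L
  have hle : RG τ Γ W u ≤ Φ.ker.map (PG τ Γ u).subtype := by
    conv_lhs => unfold RG
    rw [Subgroup.closure_le]
    rintro _ ⟨L, h1, h2, rfl⟩
    have hmem := RG_le_PG W u (mem_RG h1 h2)
    refine ⟨⟨_, hmem⟩, ?_, rfl⟩
    rw [SetLike.mem_coe, MonoidHom.mem_ker]
    have he : (FreeGroup.mk L)⁻¹ * FreeGroup.mk W * FreeGroup.mk L =
        FreeGroup.mk (invL L ++ (W ++ L)) := by
      rw [mk_app, mk_app, mk_invL, mul_assoc]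
    have h3 : FreeGroup.mk (invL L ++ (W ++ L)) ∈ PG τ Γ u := he ▸ hmem
    have h4 : (⟨_, hmem⟩ : PG τ Γ u) = ⟨_, h3⟩ := Subtype.ext he
    rw [h4, hΦ, pr_append, pr_append, walk_append, h2.1, pr_invL, hμ _ h2]
    group
  refine ⟨QuotientGroup.lift _ Φ ?_, ?_⟩
  · intro x hx
    obtain ⟨y, hy, hyx⟩ := hle (Subgroup.mem_subgroupOf.1 hx)
    have : y = x := Subtype.ext hyx
    rw [← this]
    exact hy
  · intro L h
    rw [QuotientGroup.lift_mk]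
    exact hΦ L h

theorem exists_iota (Γ Γ' : Set (Ω × α)) (W : List (α × Bool)) (u u' : Ω) (b : FreeGroup α)
    (h1 : ∀ g ∈ PG τ Γ' u', b⁻¹ * g * b ∈ PG τ Γ u)
    (h2 : ∀ g ∈ RG τ Γ' W u', b⁻¹ * g * b ∈ RG τ Γ W u) :
    ∃ ι : QG τ Γ' W u' →* QG τ Γ W u, ∀ (g : FreeGroup α) (h : g ∈ PG τ Γ' u'),
      ι (QuotientGroup.mk ⟨g, h⟩) = QuotientGroup.mk ⟨b⁻¹ * g * b, h1 g h⟩ := by
  let f : PG τ Γ' u' →* PG τ Γ u :=
    { toFun := fun g => ⟨b⁻¹ * g.1 * b, h1 g.1 g.2⟩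
      map_one' := by
        apply Subtype.ext
        simp
      map_mul' := by
        intro x y
        apply Subtype.ext
        show b⁻¹ * (x.1 * y.1) * b = (b⁻¹ * x.1 * b) * (b⁻¹ * y.1 * b)
        group }
  refine ⟨QuotientGroup.map _ _ f ?_, ?_⟩
  · intro x hx
    rw [Subgroup.mem_comap, Subgroup.mem_subgroupOf]
    exact h2 _ (Subgroup.mem_subgroupOf.1 hx)
  · intro g h
    rw [QuotientGroup.map_mk]
    rfl

end sepsplit

/-- Removing an uncovered separating edge gives a free product. -/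
theorem sep_split (τ : α → Equiv.Perm Ω) (Γ1 Γ2 : Set (Ω × α)) (W : List (α × Bool))
    (hW : W ≠ []) (u u' : Ω) (e : Ω × α) (K : Set Ω)
    (hK1 : ∀ f ∈ Γ1, f.1 ∈ K ∧ τ f.2 f.1 ∈ K) (hK2 : ∀ f ∈ Γ2, f.1 ∉ K ∧ τ f.2 f.1 ∉ K)
    (hu : u ∈ K) (B : List (α × Bool)) (hB : Pth τ Γ1 B u) (l : α × Bool)
    (hl : edgeOf τ l (walk τ B u) = e) (hu' : walk τ (l :: B) u = u') (hu'K : u' ∉ K)
    (hc1 : Conn τ Γ1 u) (hc2 : Conn τ Γ2 u')
    (hcov : ∀ c ∈ CC τ (Γ1 ∪ Γ2 ∪ {e}) W, e ∉ edges τ W c) :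
    ∃ Θ : QG τ (Γ1 ∪ Γ2 ∪ {e}) W u ≃* Monoid.Coprod (QG τ Γ1 W u) (QG τ Γ2 W u'),
      (∀ (g : FreeGroup α) (h1 : g ∈ PG τ Γ1 u) (h2 : g ∈ PG τ (Γ1 ∪ Γ2 ∪ {e}) u),
        Θ (QuotientGroup.mk ⟨g, h2⟩) = Monoid.Coprod.inl (QuotientGroup.mk ⟨g, h1⟩)) ∧
      (∀ (g : FreeGroup α) (h1 : g ∈ PG τ Γ2 u')
        (h2 : (FreeGroup.mk (l :: B))⁻¹ * g * FreeGroup.mk (l :: B) ∈
          PG τ (Γ1 ∪ Γ2 ∪ {e}) u),
        Θ (QuotientGroup.mk ⟨_, h2⟩) = Monoid.Coprod.inr (QuotientGroup.mk ⟨g, h1⟩)) := by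
  classical
  have hs1 : Γ1 ⊆ Γ1 ∪ Γ2 ∪ {e} := fun f hf => Or.inl (Or.inl hf)
  have hs2 : Γ2 ⊆ Γ1 ∪ Γ2 ∪ {e} := fun f hf => Or.inl (Or.inr hf)
  have heΓ : e ∈ Γ1 ∪ Γ2 ∪ {e} := Or.inr rfl
  have hcase : ∀ f ∈ Γ1 ∪ Γ2 ∪ {e}, f ∈ Γ1 ∨ f ∈ Γ2 ∨ f = e := by
    intro f hf
    rcases hf with (hf | hf) | hf
    · exact Or.inl hf
    · exact Or.inr (Or.inl hf)
    · exact Or.inr (Or.inr hf)
  generalize Γ1 ∪ Γ2 ∪ {e} = Γ at *
  obtain ⟨w0, hw0⟩ : ∃ w0, w0 = walk τ B u := ⟨_, rfl⟩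
  have hw0K : w0 ∈ K := by rw [hw0]; exact pth_stay hK1 B u hB hu
  have hst : step τ l w0 = u' := by rw [hw0]; exact hu'
  rw [← hw0] at hl
  -- the edge e has one endpoint on each side
  have heK : (e.1 ∈ K ∧ τ e.2 e.1 ∉ K) ∨ (e.1 ∉ K ∧ τ e.2 e.1 ∈ K) := by
    rcases l with ⟨a, b⟩
    cases b
    · simp only [edgeOf, step, Bool.false_eq_true, if_false] at hl hst
      rw [← hl]
      simp only [Equiv.apply_symm_apply]
      rw [hst]
      exact Or.inr ⟨hu'K, hw0K⟩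
    · simp only [edgeOf, step, if_true] at hl hst
      rw [← hl]
      simp only
      rw [hst]
      exact Or.inl ⟨hw0K, hu'K⟩
  have he1 : e ∉ Γ1 := by
    intro h
    have := hK1 e h
    tauto
  have he2 : e ∉ Γ2 := by
    intro h
    have := hK2 e h
    tauto
  have h12 : ∀ f ∈ Γ1, f ∉ Γ2 := fun f h1 h2 => (hK2 f h2).1 (hK1 f h1).1
  -- representatives
  let R1 : Set Ω := {w | ∃ L, Pth τ Γ1 L u ∧ walk τ L u = w}
  let R2 : Set Ω := {w | ∃ L, Pth τ Γ2 L u' ∧ walk τ L u' = w}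
  have hex1 : ∃ p : Ω → FreeGroup α, p u = 1 ∧ ∀ w ∈ R1, ∃ L, Pth τ Γ1 L u ∧
      walk τ L u = w ∧ FreeGroup.mk L = p w := by
    refine ⟨fun w => if w = u then 1 else if h : w ∈ R1 then FreeGroup.mk h.choose else 1,
      by simp, ?_⟩
    intro w hw
    by_cases h : w = u
    · subst h
      exact ⟨[], Pth.nil _, rfl, by simp; rfl⟩
    · refine ⟨hw.choose, hw.choose_spec.1, hw.choose_spec.2, ?_⟩
      simp only [h, if_false]
      rw [dif_pos hw]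
  have hex2 : ∃ p : Ω → FreeGroup α, p u' = 1 ∧ ∀ w ∈ R2, ∃ L, Pth τ Γ2 L u' ∧
      walk τ L u' = w ∧ FreeGroup.mk L = p w := by
    refine ⟨fun w => if w = u' then 1 else if h : w ∈ R2 then FreeGroup.mk h.choose else 1,
      by simp, ?_⟩
    intro w hw
    by_cases h : w = u'
    · subst h
      exact ⟨[], Pth.nil _, rfl, by simp; rfl⟩
    · refine ⟨hw.choose, hw.choose_spec.1, hw.choose_spec.2, ?_⟩
      simp only [h, if_false]
      rw [dif_pos hw]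
  obtain ⟨p, hpu, hp⟩ := hex1
  obtain ⟨q, hqu, hq⟩ := hex2
  have hconn : ∀ {Γ' : Set (Ω × α)} {v : Ω}, Conn τ Γ' v → ∀ f ∈ Γ',
      (∃ L, Pth τ Γ' L v ∧ walk τ L v = f.1) ∧ (∃ L, Pth τ Γ' L v ∧ walk τ L v = τ f.2 f.1) := by
    intro Γ' v hc f hf
    obtain ⟨L, h1, h2⟩ := hc f hf
    refine ⟨⟨L, h1, h2⟩, (f.2, true) :: L, ?_, ?_⟩
    · rw [pth_cons]
      refine ⟨?_, h1⟩
      rw [h2]
      simpa [edgeOf] using hf
    · rw [walk_cons, h2]
      simp [step]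
  have hS1 : ∀ f ∈ Γ1, f.1 ∈ R1 ∧ τ f.2 f.1 ∈ R1 := hconn hc1
  have hS2 : ∀ f ∈ Γ2, f.1 ∈ R2 ∧ τ f.2 f.1 ∈ R2 := hconn hc2
  have huR : u ∈ R1 := ⟨[], Pth.nil _, rfl⟩
  have hu'R : u' ∈ R2 := ⟨[], Pth.nil _, rfl⟩
  have hw0R : w0 ∈ R1 := ⟨B, hB, hw0.symm⟩
  -- the labelling
  let I1 : FreeGroup α → Monoid.Coprod (QG τ Γ1 W u) (QG τ Γ2 W u') :=
    fun g => Monoid.Coprod.inl (qx τ Γ1 W u g)
  let I2 : FreeGroup α → Monoid.Coprod (QG τ Γ1 W u) (QG τ Γ2 W u') :=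
    fun g => Monoid.Coprod.inr (qx τ Γ2 W u' g)
  have hI1 : ∀ g, I1 g = Monoid.Coprod.inl (qx τ Γ1 W u g) := fun g => rfl
  have hI2 : ∀ g, I2 g = Monoid.Coprod.inr (qx τ Γ2 W u' g) := fun g => rfl
  have hI1one : I1 1 = 1 := by rw [hI1, qx_one, map_one]
  have hI2one : I2 1 = 1 := by rw [hI2, qx_one, map_one]
  have hI1mul : ∀ g h, g ∈ PG τ Γ1 u → h ∈ PG τ Γ1 u → I1 (g * h) = I1 g * I1 h := by
    intro g h hg hh
    rw [hI1, hI1, hI1, qx_mul W hg hh, map_mul]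
  have hI2mul : ∀ g h, g ∈ PG τ Γ2 u' → h ∈ PG τ Γ2 u' → I2 (g * h) = I2 g * I2 h := by
    intro g h hg hh
    rw [hI2, hI2, hI2, qx_mul W hg hh, map_mul]
  obtain ⟨lam, hlam1, hlam2, hlame⟩ : ∃ lam : Ω × α →
      Monoid.Coprod (QG τ Γ1 W u) (QG τ Γ2 W u'),
      (∀ f ∈ Γ1, lam f = I1 ((p (τ f.2 f.1))⁻¹ * FreeGroup.of f.2 * p f.1)) ∧
      (∀ f ∈ Γ2, lam f = I2 ((q (τ f.2 f.1))⁻¹ * FreeGroup.of f.2 * q f.1)) ∧
      lam e = (if l.2 then I1 ((FreeGroup.mk B)⁻¹ * p w0)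
        else (I1 ((FreeGroup.mk B)⁻¹ * p w0))⁻¹) := by
    refine ⟨fun f => if f ∈ Γ1 then I1 ((p (τ f.2 f.1))⁻¹ * FreeGroup.of f.2 * p f.1)
      else if f ∈ Γ2 then I2 ((q (τ f.2 f.1))⁻¹ * FreeGroup.of f.2 * q f.1)
      else (if l.2 then I1 ((FreeGroup.mk B)⁻¹ * p w0)
        else (I1 ((FreeGroup.mk B)⁻¹ * p w0))⁻¹), ?_, ?_, ?_⟩
    · intro f hf
      simp only [hf, if_true]
    · intro f hf
      have : f ∉ Γ1 := fun h => h12 f h hf
      simp only [hf, this, if_true, if_false]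
    · simp only [he1, he2, if_false]
  have hT1 := fun (L : List (α × Bool)) (w : Ω) (hw : w ∈ R1) (hL : Pth τ Γ1 L w) =>
    pr_tree hp hS1 I1 hI1one hI1mul lam hlam1 L w hw hL
  have hT2 := fun (L : List (α × Bool)) (w : Ω) (hw : w ∈ R2) (hL : Pth τ Γ2 L w) =>
    pr_tree hq hS2 I2 hI2one hI2mul lam hlam2 L w hw hL
  have hBmem : (FreeGroup.mk B)⁻¹ * p w0 ∈ PG τ Γ1 u := by
    have := rep_mem hp B huR hw0R hB hw0.symm
    rw [hpu, mul_one] at this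
    have := inv_mem this
    rwa [mul_inv_rev, inv_inv] at this
  have hprb : pr τ lam (l :: B) u = 1 := by
    rw [pr_cons, (hT1 B u huR hB).2, hpu, mul_one, ← hw0]
    have h1 : lab τ lam l w0 = I1 ((FreeGroup.mk B)⁻¹ * p w0) := by
      simp only [lab]
      rw [hl, hlame]
      split_ifs <;> simp
    rw [h1, ← hI1mul _ _ hBmem (by
      have := inv_mem hBmem
      rwa [mul_inv_rev, inv_inv] at this), ← hI1one]
    congr 1
    group
  -- relator loops are killed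
  have hkill : ∀ c ∈ CC τ Γ W, pr τ lam W c = 1 := by
    intro c hc
    have hav : ∀ f ∈ edges τ W c, f ∈ Γ1 ∨ f ∈ Γ2 := by
      intro f hf
      rcases hcase f (hc.2 f hf) with h | h | h
      · exact Or.inl h
      · exact Or.inr h
      · exact absurd (h ▸ hf) (hcov c hc)
    have hside : ∀ (L : List (α × Bool)) (w : Ω), (∀ f ∈ edges τ L w, f ∈ Γ1 ∨ f ∈ Γ2) →
        (w ∈ K → Pth τ Γ1 L w ∧ walk τ L w ∈ K) ∧ (w ∉ K → Pth τ Γ2 L w ∧ walk τ L w ∉ K) := by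
      intro L
      induction L with
      | nil => intro w _; exact ⟨fun h => ⟨Pth.nil _, h⟩, fun h => ⟨Pth.nil _, h⟩⟩
      | cons m L ih =>
        intro w hw
        obtain ⟨i1, i2⟩ := ih w (fun f hf => hw f (by rw [edges_cons]; exact List.mem_cons_of_mem _ hf))
        have hm := hw (edgeOf τ m (walk τ L w)) (by simp)
        constructor
        · intro hk
          obtain ⟨j1, j2⟩ := i1 hk
          rcases hm with hm | hm
          · refine ⟨pth_cons.2 ⟨hm, j1⟩, ?_⟩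
            exact (edge_ends (S := K) (hK1 _ hm)).2
          · exact absurd j2 (edge_ends (S := Kᶜ) (hK2 _ hm)).1
        · intro hk
          obtain ⟨j1, j2⟩ := i2 hk
          rcases hm with hm | hm
          · exact absurd (edge_ends (S := K) (hK1 _ hm)).1 j2
          · refine ⟨pth_cons.2 ⟨hm, j1⟩, ?_⟩
            exact (edge_ends (S := Kᶜ) (hK2 _ hm)).2
    by_cases hcK : c ∈ K
    · have hP := ((hside W c hav).1 hcK).1
      have hcR : c ∈ R1 := pth_start hS1 W c hP hW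
      have := (hT1 W c hcR hP).2
      rw [hc.1] at this
      rw [this, hI1]
      obtain ⟨L, h1, h2, h3⟩ := hp c hcR
      have h4 := mem_RG (W := W) h1 (by rw [h2]; exact ⟨hc.1, hP⟩)
      rw [← h3, qx_RG h4, map_one]
    · have hP := ((hside W c hav).2 hcK).1
      have hcR : c ∈ R2 := pth_start hS2 W c hP hW
      have := (hT2 W c hcR hP).2
      rw [hc.1] at this
      rw [this, hI2]
      obtain ⟨L, h1, h2, h3⟩ := hq c hcR
      have h4 := mem_RG (W := W) h1 (by rw [h2]; exact ⟨hc.1, hP⟩)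
      rw [← h3, qx_RG h4, map_one]
  obtain ⟨Θ0, hΘ0⟩ := exists_hom Γ W u lam hkill
  obtain ⟨b, hb⟩ : ∃ b, b = (FreeGroup.mk (l :: B) : FreeGroup α) := ⟨_, rfl⟩
  have hbP : Pth τ Γ (l :: B) u := by
    rw [pth_cons, ← hw0, hl]
    exact ⟨heΓ, hB.mono hs1⟩
  have hprop1 : ∀ (g : FreeGroup α) (h1 : g ∈ PG τ Γ1 u) (h2 : g ∈ PG τ Γ u),
        Θ0 (QuotientGroup.mk ⟨g, h2⟩) = Monoid.Coprod.inl (QuotientGroup.mk ⟨g, h1⟩) := by
    intro g h1 h2
    obtain ⟨L, h3, h4, rfl⟩ := id h1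
    rw [hΘ0, (hT1 L u huR h3).2, h4, hpu, hI1]
    rw [← qx_of_mem W h1]
    congr 2
    group
  have hprop2 : ∀ (g : FreeGroup α) (h1 : g ∈ PG τ Γ2 u') (h2 : b⁻¹ * g * b ∈ PG τ Γ u),
        Θ0 (QuotientGroup.mk ⟨_, h2⟩) = Monoid.Coprod.inr (QuotientGroup.mk ⟨g, h1⟩) := by
    intro g h1 h2
    obtain ⟨L, h3, h4, rfl⟩ := id h1
    have he : b⁻¹ * FreeGroup.mk L * b = FreeGroup.mk (invL (l :: B) ++ (L ++ (l :: B))) := by
      rw [mk_app, mk_app, mk_invL, hb, mul_assoc]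
    have h5 : FreeGroup.mk (invL (l :: B) ++ (L ++ (l :: B))) ∈ PG τ Γ u := he ▸ h2
    have h6 : (⟨_, h2⟩ : PG τ Γ u) = ⟨_, h5⟩ := Subtype.ext he
    rw [h6, hΘ0, pr_append, pr_append, walk_append, hu', h4]
    have h7 := pr_invL τ lam (l :: B) u
    rw [hu', hprb, inv_one] at h7
    rw [h7, hprb, (hT2 L u' hu'R h3).2, h4, hqu, hI2, ← qx_of_mem W h1, one_mul, mul_one]
    congr 2
    group
  -- the inverse map
  obtain ⟨ι1, hι1⟩ := exists_iota Γ Γ1 W u u 1 (fun g hg => by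
    have := PG_mono hs1 u hg
    simpa using this) (fun g hg => by
    have := RG_mono hs1 W u hg
    simpa using this)
  obtain ⟨hb3, hb4⟩ := hbP.inv hu'
  obtain ⟨ι2, hι2⟩ := exists_iota Γ Γ2 W u u' b (fun g hg => by
    have := (PG_conj hb3 hb4 g).2 (PG_mono hs2 u' hg)
    rwa [mk_invL, inv_inv, ← hb] at this) (fun g hg => by
    have := (RG_conj hb3 hb4 g).2 (RG_mono hs2 W u' hg)
    rwa [mk_invL, inv_inv, ← hb] at this)
  let ι : Monoid.Coprod (QG τ Γ1 W u) (QG τ Γ2 W u') →* QG τ Γ W u := Monoid.Coprod.lift ι1 ι2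
  have hιl : ∀ x, ι (Monoid.Coprod.inl x) = ι1 x := fun x => Monoid.Coprod.lift_apply_inl ι1 ι2 x
  have hιr : ∀ x, ι (Monoid.Coprod.inr x) = ι2 x := fun x => Monoid.Coprod.lift_apply_inr ι1 ι2 x
  have hj1 : ∀ g ∈ PG τ Γ1 u, ι (I1 g) = qx τ Γ W u g := by
    intro g hg
    rw [hI1, hιl, qx_of_mem W hg, hι1, ← qx_of_mem W]
    congr 1
    group
  have hj2 : ∀ g ∈ PG τ Γ2 u', ι (I2 g) = qx τ Γ W u (b⁻¹ * g * b) := by
    intro g hg
    rw [hI2, hιr, qx_of_mem W hg, hι2, ← qx_of_mem W]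
  let pp : Ω → FreeGroup α := fun w => if w ∈ K then p w else q w * b
  have hpp1 : ∀ w, w ∈ K → pp w = p w := fun w hw => if_pos hw
  have hpp2 : ∀ w, w ∉ K → pp w = q w * b := fun w hw => if_neg hw
  let S : Set Ω := {w | (w ∈ K ∧ w ∈ R1) ∨ (w ∉ K ∧ w ∈ R2)}
  have hppS : ∀ w ∈ S, ∃ L, Pth τ Γ L u ∧ walk τ L u = w ∧ FreeGroup.mk L = pp w := by
    rintro w (⟨h1, h2⟩ | ⟨h1, h2⟩)
    · obtain ⟨L, h3, h4, h5⟩ := hp w h2
      exact ⟨L, h3.mono hs1, h4, by rw [hpp1 w h1, h5]⟩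
    · obtain ⟨L, h3, h4, h5⟩ := hq w h2
      exact ⟨L ++ (l :: B), hbP.app hu' (h3.mono hs2), walk_app hu' h4, by
        rw [hpp2 w h1, mk_app, h5, hb]⟩
  have hSe : w0 ∈ S ∧ u' ∈ S := ⟨Or.inl ⟨hw0K, hw0R⟩, Or.inr ⟨hu'K, hu'R⟩⟩
  have hSS : ∀ f ∈ Γ, f.1 ∈ S ∧ τ f.2 f.1 ∈ S := by
    intro f hf
    rcases hcase f hf with h | h | h
    · exact ⟨Or.inl ⟨(hK1 f h).1, (hS1 f h).1⟩, Or.inl ⟨(hK1 f h).2, (hS1 f h).2⟩⟩
    · exact ⟨Or.inr ⟨(hK2 f h).1, (hS2 f h).1⟩, Or.inr ⟨(hK2 f h).2, (hS2 f h).2⟩⟩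
    · rw [h, ← hl]
      rcases l with ⟨a, c⟩
      cases c
      · simp only [edgeOf, step, Bool.false_eq_true, if_false, Equiv.apply_symm_apply] at hst ⊢
        rw [hst]
        exact ⟨hSe.2, hSe.1⟩
      · simp only [edgeOf, step, if_true] at hst ⊢
        rw [hst]
        exact hSe
  have hμ : ∀ f ∈ Γ, ι (lam f) = qx τ Γ W u ((pp (τ f.2 f.1))⁻¹ * FreeGroup.of f.2 * pp f.1) := by
    intro f hf
    rcases hcase f hf with h | h | h
    · rw [hlam1 f h, hj1 _ (by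
        have := rep_mem hp [(f.2, true)] (hS1 f h).1 (hS1 f h).2 (by
          rw [pth_cons]
          exact ⟨by simpa [edgeOf] using h, Pth.nil _⟩) (by simp [step])
        exact this), hpp1 _ (hK1 f h).1, hpp1 _ (hK1 f h).2]
    · rw [hlam2 f h, hj2 _ (by
        have := rep_mem hq [(f.2, true)] (hS2 f h).1 (hS2 f h).2 (by
          rw [pth_cons]
          exact ⟨by simpa [edgeOf] using h, Pth.nil _⟩) (by simp [step])
        exact this), hpp2 _ (hK2 f h).1, hpp2 _ (hK2 f h).2]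
      congr 1
      group
    · rw [h, hlame]
      have hbl : b = FreeGroup.mk [l] * FreeGroup.mk B := by rw [hb]; exact mk_app [l] B
      rcases l with ⟨a, c⟩
      cases c
      · simp only [Bool.false_eq_true, if_false]
        simp only [edgeOf, step, Bool.false_eq_true, if_false] at hl hst
        have hA : (FreeGroup.mk [(a, false)] : FreeGroup α) = (FreeGroup.of a)⁻¹ := rfl
        rw [map_inv, hj1 _ hBmem, ← qx_inv W (PG_mono hs1 u hBmem), ← hl]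
        simp only [Equiv.apply_symm_apply]
        rw [hst, hpp1 _ hw0K, hpp2 _ hu'K, hqu, hbl, hA]
        congr 1
        group
      · simp only [if_true]
        simp only [edgeOf, step, if_true] at hl hst
        have hA : (FreeGroup.mk [(a, true)] : FreeGroup α) = FreeGroup.of a := rfl
        rw [hj1 _ hBmem, ← hl]
        simp only
        rw [hst, hpp1 _ hw0K, hpp2 _ hu'K, hqu, hbl, hA]
        congr 1
        group
  have huS : u ∈ S := Or.inl ⟨hu, huR⟩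
  have hcomp1 : ∀ x, ι (Θ0 x) = x := by
    intro x
    obtain ⟨⟨g, hg⟩, rfl⟩ := QuotientGroup.mk_surjective x
    obtain ⟨L, h3, h4, rfl⟩ := id hg
    rw [hΘ0, sep_pr_map]
    have := (pr_tree hppS hSS (qx τ Γ W u) (qx_one Γ W u) (fun g h hg hh => qx_mul W hg hh)
      (fun f => ι (lam f)) hμ L u huS h3).2
    rw [this, h4, hpp1 _ hu, hpu]
    rw [← qx_of_mem W hg]
    congr 1
    group
  have hcomp2 : Θ0.comp ι = MonoidHom.id _ := by
    apply Monoid.Coprod.hom_ext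
    · apply MonoidHom.ext
      intro x
      obtain ⟨⟨g, hg⟩, rfl⟩ := QuotientGroup.mk_surjective x
      simp only [MonoidHom.comp_apply, MonoidHom.id_apply]
      rw [hιl, hι1]
      rw [hprop1 _ (by simpa using hg)]
      congr 2
      apply Subtype.ext
      simp
    · apply MonoidHom.ext
      intro x
      obtain ⟨⟨g, hg⟩, rfl⟩ := QuotientGroup.mk_surjective x
      simp only [MonoidHom.comp_apply, MonoidHom.id_apply]
      rw [hιr, hι2]
      rw [hprop2 _ hg]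
  refine ⟨MonoidHom.toMulEquiv Θ0 ι ?_ hcomp2, ?_, ?_⟩
  · apply MonoidHom.ext
    exact hcomp1
  · intro g h1 h2
    exact hprop1 g h1 h2
  · intro g h1 h2
    subst hb
    exact hprop2 g h1 h2

end Pool.Agent.Helper122
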