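import Pool.Agent.Helper122.Cohop.Red1
import Pool.Agent.Helper122.Cohop.NS
import Pool.Agent.Helper122.Cohop.Sep

set_option autoImplicit false

namespace Pool.Agent.Helper122

variable {α : Type} {Ω : Type}

/-- The two sides of a separating edge. -/
theorem sep_data (τ : α → Equiv.Perm Ω) (Γ : Set (Ω × α)) (u : Ω) (hconn : Conn τ Γ u)
    (e : Ω × α) (he : e ∈ Γ)
    (hno : ¬ ∃ δ, Pth τ (Γ \ {e}) δ e.1 ∧ walk τ δ e.1 = τ e.2 e.1) :
    ∃ (K : Set Ω) (Γ1 Γ2 : Set (Ω × α)) (B : List (α × Bool)) (l : α × Bool) (u' : Ω),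
      Γ = Γ1 ∪ Γ2 ∪ {e} ∧
      (∀ f ∈ Γ1, f.1 ∈ K ∧ τ f.2 f.1 ∈ K) ∧ (∀ f ∈ Γ2, f.1 ∉ K ∧ τ f.2 f.1 ∉ K) ∧
      u ∈ K ∧ Pth τ Γ1 B u ∧ edgeOf τ l (walk τ B u) = e ∧ walk τ (l :: B) u = u' ∧ u' ∉ K ∧
      Conn τ Γ1 u ∧ Conn τ Γ2 u' ∧ e ∉ Γ1 ∧ e ∉ Γ2 := by
  obtain ⟨K, hK⟩ : ∃ K : Set Ω, K = {w | ∃ L, Pth τ (Γ \ {e}) L u ∧ walk τ L u = w} := ⟨_, rfl⟩
  have hmemK : ∀ w, w ∈ K ↔ ∃ L, Pth τ (Γ \ {e}) L u ∧ walk τ L u = w := by
    intro w; rw [hK]; exact Iff.rfl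
  have huK : u ∈ K := (hmemK u).2 ⟨[], Pth.nil u, rfl⟩
  have hadj1 : ∀ w l', edgeOf τ l' w ∈ Γ \ {e} → w ∈ K → step τ l' w ∈ K := by
    intro w l' h1 h2
    obtain ⟨L, h3, h4⟩ := (hmemK w).1 h2
    exact (hmemK _).2 ⟨l' :: L, pth_cons.2 ⟨by rw [h4]; exact h1, h3⟩, by rw [walk_cons, h4]⟩
  have hadj : ∀ w l', edgeOf τ l' w ∈ Γ \ {e} → (step τ l' w ∈ K ↔ w ∈ K) := by
    intro w l' h1
    constructor
    · intro h
      have := hadj1 (step τ l' w) (invl l') (by rw [edgeOf_invl]; exact h1) h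
      simpa using this
    · exact hadj1 w l' h1
  have hends : ∀ f ∈ Γ \ {e}, (τ f.2 f.1 ∈ K ↔ f.1 ∈ K) := by
    intro f hf
    have := hadj f.1 (f.2, true) (by simpa [edgeOf] using hf)
    simpa [step] using this
  obtain ⟨Γ1, hΓ1⟩ : ∃ Γ1 : Set (Ω × α), Γ1 = {f | f ∈ Γ \ {e} ∧ f.1 ∈ K} := ⟨_, rfl⟩
  obtain ⟨Γ2, hΓ2⟩ : ∃ Γ2 : Set (Ω × α), Γ2 = {f | f ∈ Γ \ {e} ∧ f.1 ∉ K} := ⟨_, rfl⟩
  have m1 : ∀ f, f ∈ Γ1 ↔ f ∈ Γ \ {e} ∧ f.1 ∈ K := by intro f; rw [hΓ1]; exact Iff.rfl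
  have m2 : ∀ f, f ∈ Γ2 ↔ f ∈ Γ \ {e} ∧ f.1 ∉ K := by intro f; rw [hΓ2]; exact Iff.rfl
  have hedgeK : ∀ w l', edgeOf τ l' w ∈ Γ \ {e} → ((edgeOf τ l' w).1 ∈ K ↔ w ∈ K) := by
    intro w l' h1
    rcases edgeOf_ends τ l' w with ⟨-, h3, -⟩ | ⟨-, h3, -⟩
    · rw [h3]
    · rw [h3]; exact hadj w l' h1
  have hin : ∀ (L : List (α × Bool)) (w : Ω), Pth τ (Γ \ {e}) L w → w ∈ K →
      Pth τ Γ1 L w ∧ walk τ L w ∈ K := by
    intro L w hL hw
    induction L with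
    | nil => exact ⟨Pth.nil w, hw⟩
    | cons l' L ih =>
      rw [pth_cons] at hL
      obtain ⟨i1, i2⟩ := ih hL.2
      refine ⟨pth_cons.2 ⟨(m1 _).2 ⟨hL.1, (hedgeK _ _ hL.1).2 i2⟩, i1⟩, ?_⟩
      rw [walk_cons, hadj _ _ hL.1]; exact i2
  have hout : ∀ (L : List (α × Bool)) (w : Ω), Pth τ (Γ \ {e}) L w → w ∉ K →
      Pth τ Γ2 L w ∧ walk τ L w ∉ K := by
    intro L w hL hw
    induction L with
    | nil => exact ⟨Pth.nil w, hw⟩
    | cons l' L ih =>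
      rw [pth_cons] at hL
      obtain ⟨i1, i2⟩ := ih hL.2
      refine ⟨pth_cons.2 ⟨(m2 _).2 ⟨hL.1, fun h => i2 ((hedgeK _ _ hL.1).1 h)⟩, i1⟩, ?_⟩
      rw [walk_cons, hadj _ _ hL.1]; exact i2
  -- first arrival at e
  obtain ⟨B, l, hB, hl⟩ : ∃ B l, Pth τ (Γ \ {e}) B u ∧ edgeOf τ l (walk τ B u) = e := by
    obtain ⟨L, h1, h2⟩ := hconn e he
    by_cases hel : e ∈ edges τ L u
    · obtain ⟨A', B', l', h3, h4, h5⟩ := first_trav τ hel
      refine ⟨B', l', ?_, h4.symm⟩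
      intro f hf
      refine ⟨h1 f (by rw [h3, edges_append, edges_cons]; simp [hf]), ?_⟩
      rintro rfl
      exact h5 hf
    · refine ⟨L, (e.2, true), ?_, ?_⟩
      · intro f hf
        refine ⟨h1 f hf, ?_⟩
        rintro rfl
        exact hel hf
      · rw [h2]; simp [edgeOf]
  obtain ⟨hB1, hBK⟩ := hin B u hB huK
  have hu'K : walk τ (l :: B) u ∉ K := by
    intro h
    apply hno
    rw [walk_cons] at h
    obtain ⟨p1, h1, h1'⟩ := (hmemK _).1 hBK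
    obtain ⟨p2, h2, h2'⟩ := (hmemK _).1 h
    obtain ⟨i1, i1'⟩ := h1.inv h1'
    obtain ⟨i2, i2'⟩ := h2.inv h2'
    rcases edgeOf_ends τ l (walk τ B u) with ⟨-, h3, h4⟩ | ⟨-, h3, h4⟩
    · rw [hl] at h3 h4
      rw [h4, h3]
      exact ⟨p2 ++ invL p1, i1.app i1' h2, walk_app i1' h2'⟩
    · rw [hl] at h3 h4
      rw [h4, h3]
      exact ⟨p1 ++ invL p2, i2.app i2' h1, walk_app i2' h1'⟩
  refine ⟨K, Γ1, Γ2, B, l, walk τ (l :: B) u, ?_, ?_, ?_, huK, hB1, hl, rfl, hu'K, ?_, ?_, ?_, ?_⟩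
  · ext f
    simp only [Set.mem_union, m1, m2, Set.mem_sdiff, Set.mem_singleton_iff]
    by_cases h1 : f = e
    · simp [h1, he]
    · tauto
  · intro f hf
    have := (m1 f).1 hf
    exact ⟨this.2, (hends f this.1).2 this.2⟩
  · intro f hf
    have := (m2 f).1 hf
    exact ⟨this.2, fun h => this.2 ((hends f this.1).1 h)⟩
  · intro f hf
    have := (m1 f).1 hf
    obtain ⟨L, h1, h2⟩ := (hmemK _).1 this.2
    exact ⟨L, (hin L u h1 huK).1, h2⟩
  · intro f hf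
    have hf' := (m2 f).1 hf
    obtain ⟨L, h1, h2⟩ := hconn f hf'.1.1
    have claim : ∀ (L : List (α × Bool)), Pth τ Γ L u → walk τ L u ∈ K ∨
        ∃ L2, Pth τ (Γ \ {e}) L2 (walk τ (l :: B) u) ∧
          walk τ L2 (walk τ (l :: B) u) = walk τ L u := by
      intro L hL
      induction L with
      | nil => exact Or.inl huK
      | cons l' L ih =>
        rw [pth_cons] at hL
        by_cases hfe : edgeOf τ l' (walk τ L u) = e
        · rw [← hl] at hfe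
          rcases edge_cases τ hfe.symm with ⟨h5, h6⟩ | ⟨h5, h6⟩
          · right
            refine ⟨[], Pth.nil _, ?_⟩
            rw [walk_nil, walk_cons, walk_cons, h5, h6]
          · left
            rw [walk_cons, h5, h6, step_invl]
            exact hBK
        · rcases ih hL.2 with h | ⟨L2, h3, h4⟩
          · left
            rw [walk_cons, hadj _ _ ⟨hL.1, hfe⟩]; exact h
          · right
            refine ⟨l' :: L2, pth_cons.2 ⟨?_, h3⟩, ?_⟩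
            · rw [h4]; exact ⟨hL.1, hfe⟩
            · rw [walk_cons, h4, walk_cons]
    rcases claim L h1 with h | ⟨L2, h3, h4⟩
    · rw [h2] at h; exact absurd h hf'.2
    · exact ⟨L2, (hout L2 _ h3 hu'K).1, h4.trans h2⟩
  · intro h
    exact ((m1 e).1 h).1.2 rfl
  · intro h
    exact ((m2 e).1 h).1.2 rfl

section grp
variable {G : Type} [Group G]

/-- A finite (or not) edge set with base vertex `walk A v` modelling the subgroup `H`. -/
structure Mdl (π : FreeGroup α →* G) (τ : α → Equiv.Perm Ω) (v : Ω) (W : List (α × Bool))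
    (H : Subgroup G) (Γ : Set (Ω × α)) (A : List (α × Bool)) : Prop where
  conn : Conn τ Γ (walk τ A v)
  img : ∀ g, g ∈ H ↔ ∃ q ∈ PG τ Γ (walk τ A v),
    π q = π (FreeGroup.mk A) * g * (π (FreeGroup.mk A))⁻¹
  comp : ∀ q ∈ PG τ Γ (walk τ A v), π q = 1 → q ∈ RG τ Γ W (walk τ A v)

theorem RG_le_ker (π : FreeGroup α →* G) {W : List (α × Bool)} (hW : π (FreeGroup.mk W) = 1)
    (τ : α → Equiv.Perm Ω) (Γ : Set (Ω × α)) (u : Ω) (g : FreeGroup α)
    (hg : g ∈ RG τ Γ W u) : π g = 1 := by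
  have : RG τ Γ W u ≤ π.ker := by
    unfold RG
    rw [Subgroup.closure_le]
    rintro _ ⟨L, -, -, rfl⟩
    rw [SetLike.mem_coe, MonoidHom.mem_ker, map_mul, map_mul, map_inv, hW]
    group
  exact this hg

/-- The modelled subgroup is the group of the filled graph. -/
theorem Mdl.equiv {π : FreeGroup α →* G} {τ : α → Equiv.Perm Ω} {v : Ω} {W : List (α × Bool)}
    {H : Subgroup G} {Γ : Set (Ω × α)} {A : List (α × Bool)} (h : Mdl π τ v W H Γ A)
    (hW : π (FreeGroup.mk W) = 1) : Nonempty (QG τ Γ W (walk τ A v) ≃* H) := by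
  let f : PG τ Γ (walk τ A v) →* H :=
    { toFun := fun q => ⟨(π (FreeGroup.mk A))⁻¹ * π q.1 * π (FreeGroup.mk A), by
        rw [h.img]; exact ⟨q.1, q.2, by group⟩⟩
      map_one' := by ext; simp
      map_mul' := by
        intro a b
        ext
        simp only [Subgroup.coe_mul, map_mul]
        group }
  have hsurj : Function.Surjective f := by
    rintro ⟨g, hg⟩
    obtain ⟨q, hq, hq'⟩ := (h.img g).1 hg
    refine ⟨⟨q, hq⟩, ?_⟩
    ext
    show (π (FreeGroup.mk A))⁻¹ * π q * π (FreeGroup.mk A) = g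
    rw [hq']; group
  have hker : f.ker = (RG τ Γ W (walk τ A v)).subgroupOf (PG τ Γ (walk τ A v)) := by
    ext q
    rw [MonoidHom.mem_ker, Subgroup.mem_subgroupOf]
    constructor
    · intro hq
      apply h.comp q.1 q.2
      have : (π (FreeGroup.mk A))⁻¹ * π q.1 * π (FreeGroup.mk A) = 1 :=
        congrArg Subtype.val hq
      rw [mul_assoc, inv_mul_eq_one] at this
      have h2 : π (FreeGroup.mk A) = π q.1 * π (FreeGroup.mk A) := this
      exact (mul_eq_right.1 h2.symm)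
    · intro hq
      ext
      show (π (FreeGroup.mk A))⁻¹ * π q.1 * π (FreeGroup.mk A) = 1
      rw [RG_le_ker π hW τ Γ _ _ hq]; group
  exact ⟨(QuotientGroup.quotientMulEquivOfEq hker.symm).trans
    (QuotientGroup.quotientKerEquivOfSurjective f hsurj)⟩

theorem coprod_inr_surj {A B : Type} [Group A] [Group B] (hA : Subsingleton A) :
    Function.Surjective (Monoid.Coprod.inr : B →* Monoid.Coprod A B) := by
  have h1 := Monoid.Coprod.range_inl_sup_range_inr (G := A) (H := B)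
  have h2 : (Monoid.Coprod.inl : A →* Monoid.Coprod A B).range = ⊥ := by
    rw [eq_bot_iff]
    rintro _ ⟨a, rfl⟩
    rw [Subsingleton.elim a 1, map_one]
    exact Subgroup.one_mem _
  rw [h2, bot_sup_eq] at h1
  exact MonoidHom.range_eq_top.1 h1

theorem coprod_inl_surj {A B : Type} [Group A] [Group B] (hB : Subsingleton B) :
    Function.Surjective (Monoid.Coprod.inl : A →* Monoid.Coprod A B) := by
  have h1 := Monoid.Coprod.range_inl_sup_range_inr (G := A) (H := B)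
  have h2 : (Monoid.Coprod.inr : B →* Monoid.Coprod A B).range = ⊥ := by
    rw [eq_bot_iff]
    rintro _ ⟨a, rfl⟩
    rw [Subsingleton.elim a 1, map_one]
    exact Subgroup.one_mem _
  rw [h2, sup_bot_eq] at h1
  exact MonoidHom.range_eq_top.1 h1

end grp

end Pool.Agent.Helper122
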