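import Pool.Agent.Helper122.Cohop.Red2

set_option autoImplicit false

namespace Pool.Agent.Helper122

variable {α : Type} {Ω : Type} {G : Type} [Group G]

theorem QG_mk_one {τ : α → Equiv.Perm Ω} {Γ : Set (Ω × α)} {W : List (α × Bool)} {u : Ω}
    (g : FreeGroup α) (h : g ∈ PG τ Γ u) :
    (QuotientGroup.mk (⟨g, h⟩ : PG τ Γ u) : QG τ Γ W u) = 1 ↔ g ∈ RG τ Γ W u := by
  rw [QuotientGroup.eq_one_iff, Subgroup.mem_subgroupOf]

theorem QG_mk_eq {τ : α → Equiv.Perm Ω} {Γ : Set (Ω × α)} {W : List (α × Bool)} {u : Ω}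
    (π : FreeGroup α →* G) (hW : π (FreeGroup.mk W) = 1)
    (g g' : FreeGroup α) (h : g ∈ PG τ Γ u) (h' : g' ∈ PG τ Γ u)
    (he : (QuotientGroup.mk (⟨g, h⟩ : PG τ Γ u) : QG τ Γ W u) =
      QuotientGroup.mk (⟨g', h'⟩ : PG τ Γ u)) : π g = π g' := by
  rw [QuotientGroup.eq, Subgroup.mem_subgroupOf] at he
  have := RG_le_ker π hW τ Γ u _ he
  simp only [Subgroup.coe_mul, Subgroup.coe_inv, map_mul, map_inv] at this
  rwa [inv_mul_eq_one] at this

/-- Keeping the first side of a splitting in which the second factor is trivial. -/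
theorem keep_left {π : FreeGroup α →* G} {τ : α → Equiv.Perm Ω} {v : Ω} {W : List (α × Bool)}
    {H : Subgroup G} {Γ Γ' : Set (Ω × α)} {A : List (α × Bool)} (hM : Mdl π τ v W H Γ A)
    (hW : π (FreeGroup.mk W) = 1) (hs : Γ' ⊆ Γ) (hc : Conn τ Γ' (walk τ A v))
    {B : Type} [Group B] (hB : Subsingleton B)
    (Θ : QG τ Γ W (walk τ A v) ≃* Monoid.Coprod (QG τ Γ' W (walk τ A v)) B)
    (hΘ : ∀ (g : FreeGroup α) (h1 : g ∈ PG τ Γ' (walk τ A v)) (h2 : g ∈ PG τ Γ (walk τ A v)),
        Θ (QuotientGroup.mk ⟨g, h2⟩) = Monoid.Coprod.inl (QuotientGroup.mk ⟨g, h1⟩)) :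
    Mdl π τ v W H Γ' A := by
  refine ⟨hc, ?_, ?_⟩
  · intro g
    rw [hM.img]
    constructor
    · rintro ⟨q, hq, hq'⟩
      obtain ⟨k, hk⟩ := coprod_inl_surj hB (Θ (QuotientGroup.mk ⟨q, hq⟩))
      obtain ⟨⟨q', hq1⟩, rfl⟩ := QuotientGroup.mk_surjective k
      refine ⟨q', hq1, ?_⟩
      rw [← hΘ q' hq1 (PG_mono hs _ hq1)] at hk
      rw [← hq']
      exact QG_mk_eq π hW _ _ _ _ (Θ.injective hk)
    · rintro ⟨q, hq, hq'⟩
      exact ⟨q, PG_mono hs _ hq, hq'⟩
  · intro q hq hq'
    have h2 := hM.comp q (PG_mono hs _ hq) hq'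
    rw [← QG_mk_one q (PG_mono hs _ hq)] at h2
    have h3 := hΘ q hq (PG_mono hs _ hq)
    rw [h2, map_one] at h3
    rw [← QG_mk_one q hq]
    exact (Monoid.Coprod.inl_injective (h3.symm.trans (map_one _).symm))

/-- An irreducible connected subset misses any edge covered at most once. -/
theorem irr_avoid {τ : α → Equiv.Perm Ω} {Γ Δ : Set (Ω × α)} {R : List (α × Bool)} {n : ℕ}
    (hs : Δ ⊆ Γ) (hirr : Irr τ Δ R n) {e : Ω × α}
    (he : ¬ ∃ (c c' : Ω) (i j : ℕ), c ∈ CC τ Γ (rpow R n) ∧ c' ∈ CC τ Γ (rpow R n) ∧ i ≠ j ∧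
      Cov τ R c i e ∧ Cov τ R c' j e) : e ∉ Δ := by
  intro h
  obtain ⟨c, c', i, j, h1, h2, h3, h4, h5⟩ := hirr e h
  exact he ⟨c, c', i, j, CC_mono hs _ h1, CC_mono hs _ h2, h3, h4, h5⟩

/-- One reduction step. -/
theorem red_step (π : FreeGroup α →* G) (τ : α → Equiv.Perm Ω) (v : Ω) (R : List (α × Bool))
    (hRne : R ≠ []) (n : ℕ) (hn : 1 ≤ n) (hW : π (FreeGroup.mk (rpow R n)) = 1)
    (H : Subgroup G)
    (hI : ∀ (A B : Type) [Group A] [Group B], Nontrivial A → Nontrivial B →
      IsEmpty (H ≃* Monoid.Coprod A B))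
    (hZ : ∀ m : ℕ, IsEmpty (H ≃* Multiplicative (ZMod m)))
    (Γ : Set (Ω × α)) (A : List (α × Bool)) (hM : Mdl π τ v (rpow R n) H Γ A)
    (hni : ¬ Irr τ Γ R n) :
    ∃ (Γ' : Set (Ω × α)) (A' : List (α × Bool)), Γ' ⊆ Γ ∧ Γ' ≠ Γ ∧
      Mdl π τ v (rpow R n) H Γ' A' ∧
      ∀ (Δ : Set (Ω × α)) (w : Ω), Δ ⊆ Γ → Irr τ Δ R n → Conn τ Δ w →
        (∃ g ∈ PG τ Δ w, π g ≠ 1) → Δ ⊆ Γ' := by
  classical
  have hWne : rpow R n ≠ [] := by
    intro h
    have := length_rpow R n
    rw [h, List.length_nil] at this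
    have h1 : R.length ≠ 0 := fun h => hRne (List.length_eq_zero_iff.1 h)
    rcases Nat.mul_eq_zero.1 this.symm with h2 | h2
    · omega
    · exact h1 h2
  obtain ⟨e0⟩ := hM.equiv hW
  simp only [Irr, not_forall] at hni
  obtain ⟨e, he, hcov⟩ := hni
  -- use of a nonseparating edge
  have nsuse : ∀ (δ : List (α × Bool)) (m : ℕ), Pth τ (Γ \ {e}) δ e.1 →
      walk τ δ e.1 = τ e.2 e.1 →
      (∀ c ∈ CC τ Γ (rpow R n), c ∈ CC τ (Γ \ {e}) (rpow R n) ∨
        ∃ D, walk τ D e.1 = c ∧ ∃ ε : ℤ, (m : ℤ) ∣ ε ∧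
        (FreeGroup.mk D)⁻¹ * FreeGroup.mk (rpow R n) * FreeGroup.mk D =
          ((FreeGroup.mk δ)⁻¹ * FreeGroup.of e.2) ^ ε) →
      (m = 0 ∨ ∃ D, Pth τ Γ D e.1 ∧ walk τ D e.1 ∈ CC τ Γ (rpow R n) ∧
        ∃ ε : ℤ, (ε = (m : ℤ) ∨ ε = -(m : ℤ)) ∧
        (FreeGroup.mk D)⁻¹ * FreeGroup.mk (rpow R n) * FreeGroup.mk D =
          ((FreeGroup.mk δ)⁻¹ * FreeGroup.of e.2) ^ ε) →
      Mdl π τ v (rpow R n) H (Γ \ {e}) A := by
    intro δ m hδ hδ' H1 H2
    obtain ⟨hc1, hc2⟩ := conn_erase e he δ hδ hδ' hM.conn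
    obtain ⟨Θ, hΘ⟩ := ns_split τ Γ (rpow R n) (walk τ A v) e he δ hδ hδ' hc1 hc2 m H1 H2
    have hm1 : m = 1 := by
      by_contra hm
      have hnt : Nontrivial (Multiplicative (ZMod m)) := by
        rcases Nat.eq_zero_or_pos m with rfl | hpos
        · exact (inferInstance : Nontrivial ℤ)
        · have : Fact (1 < m) := ⟨by omega⟩
          exact (inferInstance : Nontrivial (ZMod m))
      rcases subsingleton_or_nontrivial (QG τ (Γ \ {e}) (rpow R n) (walk τ A v)) with hs | hs
      · have hbij : Function.Bijective (Monoid.Coprod.inr : Multiplicative (ZMod m) →*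
            Monoid.Coprod (QG τ (Γ \ {e}) (rpow R n) (walk τ A v)) (Multiplicative (ZMod m))) :=
          ⟨Monoid.Coprod.inr_injective, coprod_inr_surj hs⟩
        exact (hZ m).false ((e0.symm.trans Θ).trans (MulEquiv.ofBijective _ hbij).symm)
      · exact (hI _ _ hs hnt).false (e0.symm.trans Θ)
    subst hm1
    have hsub : Subsingleton (Multiplicative (ZMod 1)) :=
      (inferInstance : Subsingleton (ZMod 1))
    exact keep_left hM hW Set.sdiff_subset hc1 hsub Θ hΘ
  have hneE : Γ \ {e} ≠ Γ := by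
    intro h
    have : e ∈ Γ \ {e} := by rw [h]; exact he
    exact this.2 rfl
  by_cases hone : ∃ c ∈ CC τ Γ (rpow R n), ∃ i, Cov τ R c i e
  · obtain ⟨c0, hc0, i0, hi0⟩ := hone
    have huniq : ∀ c ∈ CC τ Γ (rpow R n), ∀ i, Cov τ R c i e → c = c0 ∧ i = i0 := by
      intro c hc i hi
      have hii : i = i0 := by
        by_contra hne
        exact hcov ⟨c, c0, i, i0, hc, hc0, hne, hi, hi0⟩
      subst hii
      exact ⟨hi.inj hi0, rfl⟩
    obtain ⟨δ, m, hm, hδ, hδ', H1, H2⟩ := cover_once hn e c0 i0 hc0 hi0 huniq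
    refine ⟨Γ \ {e}, A, Set.sdiff_subset, hneE, nsuse δ m hδ hδ' H1 (Or.inr H2), ?_⟩
    intro Δ w hΔ hirr hconn hg f hf
    refine ⟨hΔ hf, ?_⟩
    rintro rfl
    exact irr_avoid hΔ hirr hcov hf
  · have hunc : ∀ c ∈ CC τ Γ (rpow R n), e ∉ edges τ (rpow R n) c := by
      intro c hc hmem
      obtain ⟨j, hj, hf⟩ := mem_edges_rpow.1 hmem
      obtain ⟨i, hi⟩ := mem_edges_cov.1 hf
      exact hone ⟨_, CC_iter hn hc j, i, hi⟩
    by_cases hδ : ∃ δ, Pth τ (Γ \ {e}) δ e.1 ∧ walk τ δ e.1 = τ e.2 e.1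
    · obtain ⟨δ, hδ, hδ'⟩ := hδ
      refine ⟨Γ \ {e}, A, Set.sdiff_subset, hneE, nsuse δ 0 hδ hδ' ?_ (Or.inl rfl), ?_⟩
      · intro c hc
        left
        refine ⟨hc.1, fun f hf => ⟨hc.2 f hf, ?_⟩⟩
        rintro rfl
        exact hunc c hc hf
      · intro Δ w hΔ hirr hconn hg f hf
        refine ⟨hΔ hf, ?_⟩
        rintro rfl
        exact irr_avoid hΔ hirr hcov hf
    · obtain ⟨K, Γ1, Γ2, B, l, u', hΓ, hK1, hK2, huK, hB, hl, hu', hu'K, hc1, hc2, he1, he2⟩ :=
        sep_data τ Γ (walk τ A v) hM.conn e he hδ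
      have hs1 : Γ1 ⊆ Γ := by rw [hΓ]; intro f hf; exact Or.inl (Or.inl hf)
      have hs2 : Γ2 ⊆ Γ := by rw [hΓ]; intro f hf; exact Or.inl (Or.inr hf)
      have hn1 : Γ1 ≠ Γ := by intro h; apply he1; rw [h]; exact he
      have hn2 : Γ2 ≠ Γ := by intro h; apply he2; rw [h]; exact he
      have hsplit : ∃ Θ : QG τ Γ (rpow R n) (walk τ A v) ≃*
          Monoid.Coprod (QG τ Γ1 (rpow R n) (walk τ A v)) (QG τ Γ2 (rpow R n) u'),
          (∀ (g : FreeGroup α) (h1 : g ∈ PG τ Γ1 (walk τ A v)) (h2 : g ∈ PG τ Γ (walk τ A v)),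
            Θ (QuotientGroup.mk ⟨g, h2⟩) = Monoid.Coprod.inl (QuotientGroup.mk ⟨g, h1⟩)) ∧
          (∀ (g : FreeGroup α) (h1 : g ∈ PG τ Γ2 u')
            (h2 : (FreeGroup.mk (l :: B))⁻¹ * g * FreeGroup.mk (l :: B) ∈
              PG τ Γ (walk τ A v)),
            Θ (QuotientGroup.mk ⟨_, h2⟩) = Monoid.Coprod.inr (QuotientGroup.mk ⟨g, h1⟩)) := by
        have := sep_split τ Γ1 Γ2 (rpow R n) hWne (walk τ A v) u' e K hK1 hK2 huK B hB l hl hu'
          hu'K hc1 hc2 (by rw [← hΓ]; exact hunc)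
        rw [← hΓ] at this
        exact this
      obtain ⟨Θ, hΘ1, hΘ2⟩ := hsplit
      -- sides of an irreducible subset
      have hside : ∀ (Δ : Set (Ω × α)) (w : Ω), Δ ⊆ Γ → Irr τ Δ R n → Conn τ Δ w →
          (∃ g ∈ PG τ Δ w, π g ≠ 1) → (w ∈ K ∧ Δ ⊆ Γ1) ∨ (w ∉ K ∧ Δ ⊆ Γ2) := by
        intro Δ w hΔ hirr hconn hg
        have heΔ := irr_avoid hΔ hirr hcov
        have hΔ12 : ∀ f ∈ Δ, f ∈ Γ1 ∨ f ∈ Γ2 := by
          intro f hf
          have := hΔ hf
          rw [hΓ] at this
          rcases this with h | h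
          · exact h
          · rw [Set.mem_singleton_iff] at h
            subst h
            exact absurd hf heΔ
        have hstep : ∀ (L : List (α × Bool)), Pth τ Δ L w →
            (walk τ L w ∈ K ↔ w ∈ K) := by
          intro L hL
          induction L with
          | nil => exact Iff.rfl
          | cons l' L ih =>
            rw [pth_cons] at hL
            rw [← ih hL.2, walk_cons]
            have h12 := hΔ12 _ hL.1
            rcases edgeOf_ends τ l' (walk τ L w) with ⟨-, h3, h4⟩ | ⟨-, h3, h4⟩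
            · rcases h12 with h | h
              · have := hK1 _ h
                rw [h3] at this
                rw [h3] at h4
                rw [← h4]
                exact ⟨fun _ => this.1, fun _ => this.2⟩
              · have := hK2 _ h
                rw [h3] at this
                rw [h3] at h4
                rw [← h4]
                exact ⟨fun h => absurd h this.2, fun h => absurd h this.1⟩
            · rcases h12 with h | h
              · have := hK1 _ h
                rw [h4, h3] at this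
                exact ⟨fun _ => this.2, fun _ => this.1⟩
              · have := hK2 _ h
                rw [h4, h3] at this
                exact ⟨fun h => absurd h this.1, fun h => absurd h this.2⟩
        by_cases hw : w ∈ K
        · left
          refine ⟨hw, fun f hf => ?_⟩
          obtain ⟨L, h1, h2⟩ := hconn f hf
          have h3 := (hstep L h1).2 hw
          rw [h2] at h3
          rcases hΔ12 f hf with h | h
          · exact h
          · exact absurd h3 (hK2 f h).1
        · right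
          refine ⟨hw, fun f hf => ?_⟩
          obtain ⟨L, h1, h2⟩ := hconn f hf
          have h3 := fun h => hw ((hstep L h1).1 h)
          rw [h2] at h3
          rcases hΔ12 f hf with h | h
          · exact absurd (hK1 f h).1 h3
          · exact h
      -- a side with trivial group cannot carry an element with nontrivial image
      have htriv : ∀ (Γ' Δ : Set (Ω × α)) (u w : Ω), Conn τ Γ' u →
          Subsingleton (QG τ Γ' (rpow R n) u) → Δ ⊆ Γ' →
          (∃ g ∈ PG τ Δ w, π g ≠ 1) → False := by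
        intro Γ' Δ u w hcn hsub hΔ hg
        obtain ⟨g, ⟨L, hL1, hL2, rfl⟩, hg1⟩ := hg
        -- w is reachable from u
        obtain ⟨P, hP1, hP2⟩ : ∃ P, Pth τ Γ' P u ∧ walk τ P u = w := by
          rcases List.eq_nil_or_concat L with rfl | ⟨L0, l0, rfl⟩
          · exfalso; apply hg1
            show π 1 = 1
            exact map_one π
          · rw [List.concat_eq_append] at *
            rw [pth_append] at hL1
            have h1 := hL1.2
            rw [pth_cons] at h1
            have h2 := hΔ h1.1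
            rw [walk_nil] at h2
            obtain ⟨P, hP1, hP2⟩ := hcn _ h2
            rcases edgeOf_ends τ l0 w with ⟨-, h3, -⟩ | ⟨-, h3, h4⟩
            · exact ⟨P, hP1, hP2.trans h3⟩
            · refine ⟨((edgeOf τ l0 w).2, true) :: P, ?_, ?_⟩
              · rw [pth_cons, hP2]
                refine ⟨?_, hP1⟩
                simpa [edgeOf] using h2
              · rw [walk_cons, hP2]
                simpa [step] using h4
        have hgw : FreeGroup.mk L ∈ PG τ Γ' w := ⟨L, hL1.mono hΔ, hL2, rfl⟩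
        have h5 : (FreeGroup.mk P)⁻¹ * FreeGroup.mk L * FreeGroup.mk P ∈ PG τ Γ' u := by
          rw [← PG_conj hP1 hP2]
          convert hgw using 1
          group
        have h6 : (FreeGroup.mk P)⁻¹ * FreeGroup.mk L * FreeGroup.mk P ∈
            RG τ Γ' (rpow R n) u := by
          rw [← QG_mk_one _ h5]
          exact Subsingleton.elim _ _
        have h7 := RG_le_ker π hW τ Γ' u _ h6
        rw [map_mul, map_mul, map_inv] at h7
        apply hg1
        rw [mul_assoc, inv_mul_eq_one] at h7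
        exact mul_eq_right.1 h7.symm
      by_cases ht2 : Subsingleton (QG τ Γ2 (rpow R n) u')
      · refine ⟨Γ1, A, hs1, hn1, keep_left hM hW hs1 hc1 ht2 Θ hΘ1, ?_⟩
        intro Δ w hΔ hirr hconn hg
        rcases hside Δ w hΔ hirr hconn hg with h | h
        · exact h.2
        · exact (htriv Γ2 Δ u' w hc2 ht2 h.2 hg).elim
      · have ht1 : Subsingleton (QG τ Γ1 (rpow R n) (walk τ A v)) := by
          rw [not_subsingleton_iff_nontrivial] at ht2
          by_contra h
          rw [not_subsingleton_iff_nontrivial] at h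
          exact (hI _ _ h ht2).false (e0.symm.trans Θ)
        refine ⟨Γ2, l :: B ++ A, hs2, hn2, ?_, ?_⟩
        · have hwalk : walk τ (l :: B ++ A) v = u' := by rw [walk_append]; exact hu'
          have hpath : Pth τ Γ (l :: B) (walk τ A v) := by
            rw [pth_cons, hl]; exact ⟨he, hB.mono hs1⟩
          have hback : ∀ g, g ∈ PG τ Γ2 u' →
              (FreeGroup.mk (l :: B))⁻¹ * g * FreeGroup.mk (l :: B) ∈
              PG τ Γ (walk τ A v) := by
            intro g hg
            rw [← PG_conj hpath hu']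
            convert PG_mono hs2 _ hg using 1
            group
          have hmk : (FreeGroup.mk (l :: B ++ A) : FreeGroup α) =
            FreeGroup.mk (l :: B) * FreeGroup.mk A := mk_app _ _
          refine ⟨by rw [hwalk]; exact hc2, ?_, ?_⟩
          · intro g
            rw [hM.img, hwalk]
            constructor
            · rintro ⟨q, hq, hq'⟩
              obtain ⟨k, hk⟩ := coprod_inr_surj ht1 (Θ (QuotientGroup.mk ⟨q, hq⟩))
              obtain ⟨⟨q', hq1⟩, rfl⟩ := QuotientGroup.mk_surjective k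
              refine ⟨q', hq1, ?_⟩
              rw [← hΘ2 q' hq1 (hback q' hq1)] at hk
              have h8 := QG_mk_eq π hW _ _ _ _ (Θ.injective hk)
              rw [hq', map_mul, map_mul, map_inv] at h8
              rw [hmk, map_mul]
              have : π q' = π (FreeGroup.mk (l :: B)) *
                ((π (FreeGroup.mk (l :: B)))⁻¹ * π q' * π (FreeGroup.mk (l :: B))) *
                (π (FreeGroup.mk (l :: B)))⁻¹ := by group
              rw [this, h8]
              group
            · rintro ⟨q, hq, hq'⟩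
              refine ⟨_, hback q hq, ?_⟩
              rw [map_mul, map_mul, map_inv, hq', hmk, map_mul]
              group
          · intro q hq hq'
            rw [hwalk] at hq ⊢
            have h9 := hM.comp _ (hback q hq) (by
              rw [map_mul, map_mul, map_inv, hq']; group)
            rw [← QG_mk_one _ (hback q hq)] at h9
            have h10 := hΘ2 q hq (hback q hq)
            rw [h9, map_one] at h10
            rw [← QG_mk_one q hq]
            exact (Monoid.Coprod.inr_injective (h10.symm.trans (map_one _).symm))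
        · intro Δ w hΔ hirr hconn hg
          rcases hside Δ w hΔ hirr hconn hg with h | h
          · exact (htriv Γ1 Δ (walk τ A v) w hc1 ht1 h.2 hg).elim
          · exact h.2

/-- Reduction to an irreducible model. -/
theorem reduction (π : FreeGroup α →* G) (τ : α → Equiv.Perm Ω) (v : Ω) (R : List (α × Bool))
    (hRne : R ≠ []) (n : ℕ) (hn : 1 ≤ n) (hW : π (FreeGroup.mk (rpow R n)) = 1)
    (H : Subgroup G)
    (hI : ∀ (A B : Type) [Group A] [Group B], Nontrivial A → Nontrivial B →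
      IsEmpty (H ≃* Monoid.Coprod A B))
    (hZ : ∀ m : ℕ, IsEmpty (H ≃* Multiplicative (ZMod m))) (N : ℕ) :
    ∀ (Γ : Set (Ω × α)) (A : List (α × Bool)), Γ.Finite → Γ.ncard = N →
      Mdl π τ v (rpow R n) H Γ A →
    ∃ (Γ' : Set (Ω × α)) (A' : List (α × Bool)), Γ' ⊆ Γ ∧
      Mdl π τ v (rpow R n) H Γ' A' ∧ Irr τ Γ' R n ∧
      ∀ (Δ : Set (Ω × α)) (w : Ω), Δ ⊆ Γ → Irr τ Δ R n → Conn τ Δ w →
        (∃ g ∈ PG τ Δ w, π g ≠ 1) → Δ ⊆ Γ' := by
  induction N using Nat.strong_induction_on with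
  | _ N ih =>
    intro Γ A hfin hN hM
    by_cases hirr : Irr τ Γ R n
    · exact ⟨Γ, A, Set.Subset.refl _, hM, hirr, fun Δ w h _ _ _ => h⟩
    · obtain ⟨Γ1, A1, h1, h2, h3, h4⟩ := red_step π τ v R hRne n hn hW H hI hZ Γ A hM hirr
      have hlt : Γ1.ncard < N := by
        rw [← hN]
        exact Set.ncard_lt_ncard (lt_of_le_of_ne h1 h2) hfin
      obtain ⟨Γ2, A2, g1, g2, g3, g4⟩ := ih _ hlt Γ1 A1 (hfin.subset h1) rfl h3
      refine ⟨Γ2, A2, g1.trans h1, g2, g3, ?_⟩
      intro Δ w hΔ hi hc hg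
      exact g4 Δ w (h4 Δ w hΔ hi hc hg) hi hc hg

end Pool.Agent.Helper122
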