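import Pool.Agent.Helper122.OneRel
import Pool.Agent.Helper122.Cohop.Defs

set_option autoImplicit false

namespace Pool.Agent.Helper122

variable {α : Type} {Ω : Type}

theorem isReduced_of_rdc {L : List (α × Bool)} (h : Rdc L) : FreeGroup.IsReduced L := by
  rw [FreeGroup.isReduced_iff_not_step]
  intro L2 hs
  cases hs with
  | @not L₁ L₂ x b => exact h L₁ L₂ x b rfl

theorem isCR_of_crdc {R : List (α × Bool)} (h : CRdc R) : FreeGroup.IsCyclicallyReduced R := by
  refine ⟨isReduced_of_rdc (by simpa using h R [] (by simp)), ?_⟩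
  intro a ha b hb hab
  rcases List.eq_nil_or_concat R with rfl | ⟨M, a', rfl⟩
  · simp at ha
  · rw [List.concat_eq_append] at *
    rw [List.getLast?_append] at ha
    simp only [List.getLast?_singleton, Option.some_or, Option.mem_def, Option.some.injEq] at ha
    subst ha
    have h1 := h M [a'] rfl
    rcases M with _ | ⟨m, M⟩
    · simp only [List.nil_append, List.head?_cons, Option.mem_def, Option.some.injEq] at hb
      rw [hb]
    · simp only [List.cons_append, List.head?_cons, Option.mem_def, Option.some.injEq] at hb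
      subst hb
      by_contra hne
      apply h1 [] M a'.1 a'.2
      have h2 : m.2 = !a'.2 := by
        cases hA : a'.2 <;> cases hB : m.2 <;> simp_all
      have : m = (a'.1, !a'.2) := Prod.ext hab.symm h2
      rw [this]
      simp

/-- Powers of a cyclically reduced word are long. -/
theorem len_pow {R A : List (α × Bool)} (hR : CRdc R) (hA : Rdc A) (k : ℤ) (hk : k ≠ 0)
    (h : (FreeGroup.mk A : FreeGroup α) = FreeGroup.mk R ^ k) : R.length ≤ A.length := by
  classical
  have hRc := isCR_of_crdc hR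
  obtain ⟨j, hj⟩ : ∃ j : ℕ, k.natAbs = j + 1 := ⟨k.natAbs - 1, by omega⟩
  have key : ∀ L : List (α × Bool), FreeGroup.IsReduced L →
      (FreeGroup.mk L : FreeGroup α) = FreeGroup.mk R ^ (j + 1) → R.length ≤ L.length := by
    intro L hL he
    rw [← mk_rpow] at he
    have h1 : FreeGroup.reduce L = FreeGroup.reduce (rpow R (j + 1)) :=
      FreeGroup.reduce.sound he
    have h2 : FreeGroup.reduce (rpow R (j + 1)) = rpow R (j + 1) :=
      (hRc.flatten_replicate (j + 1)).isReduced.reduce_eq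
    rw [hL.reduce_eq, h2] at h1
    rw [h1, length_rpow]
    nlinarith
  rcases Int.natAbs_eq k with hk' | hk'
  · apply key A (isReduced_of_rdc hA)
    rw [h, hk', hj]
    exact_mod_cast rfl
  · have h1 : (FreeGroup.mk (FreeGroup.invRev A) : FreeGroup α) = FreeGroup.mk R ^ (j + 1) := by
      rw [← FreeGroup.inv_mk, h, hk', hj, ← zpow_neg, neg_neg]
      exact_mod_cast rfl
    have h2 : FreeGroup.IsReduced (FreeGroup.invRev A) := by
      apply FreeGroup.IsReduced.of_reduce_eq
      rw [FreeGroup.reduce_invRev, (isReduced_of_rdc hA).reduce_eq]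
    have := key _ h2 h1
    simpa using this

/-- Acyclicity of the support and primitivity force the vertices to be distinct. -/
theorem distinct_of_acyc [LinearOrder Ω] (τ : α → Equiv.Perm Ω) (hτ : ∀ y, StrictMono (τ y))
    (R : List (α × Bool)) (hR : CRdc R) (hRp : NotPow (FreeGroup.mk R)) (v : Ω)
    (Γ : Set (Ω × α)) (hv : walk τ R v = v) (hΓ : ∀ e ∈ edges τ R v, e ∈ Γ)
    (hA : Acyc τ R Γ {v}) (A1 A2 A3 : List (α × Bool)) (hRA : R = A1 ++ A2 ++ A3)
    (h2 : A2 ≠ []) (h1 : A1 ++ A3 ≠ []) (hcl : walk τ A2 (walk τ A3 v) = walk τ A3 v) : False := by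
  classical
  obtain ⟨x, hx⟩ : ∃ x, ∃ b, (x, b) ∈ R := by
    obtain ⟨⟨x, b⟩, A', rfl⟩ := List.exists_cons_of_ne_nil h2
    exact ⟨x, b, by rw [hRA]; simp⟩
  have g0 : ∀ c ∈ ({v} : Finset Ω), walk τ R c = c ∧ ∀ e ∈ edges τ R c, e ∈ Γ := by
    intro c hc
    rw [Finset.mem_singleton] at hc
    subst hc
    exact ⟨hv, hΓ⟩
  obtain ⟨ωe, hg⟩ := exists_greatest_edge τ R x hx v
  have hmax : ∀ c ∈ ({v} : Finset Ω), c ≤ v := by
    intro c hc; rw [Finset.mem_singleton] at hc; rw [hc]
  have hε : zs τ (delta (ωe, x)) R v ≠ 0 := by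
    refine exp_ne_zero τ hτ R hR x Γ {v} ?_ g0 hA v (by simp) hmax ωe hg
    intro Γ' C' hcard g1 g2
    exact forest_least τ hτ R hR x hx Γ' C' g1 g2
  obtain ⟨-, g2⟩ := acyc_erase τ hτ R x Γ {v} g0 hA v hmax ωe hg hε
  have he : ({v} : Finset Ω).erase v = ∅ := by simp
  rw [he] at g2
  have hF := acyc_empty_forest τ R _ g2
  obtain ⟨ψ, hψ⟩ := hF.pot (fun f : Ω × α => FreeGroup.of f.2)
  obtain ⟨θ, hθ⟩ : ∃ θ, θ = (ψ (τ x ωe))⁻¹ * FreeGroup.of x * ψ ωe := ⟨_, rfl⟩
  have hid : FreeGroup.lift (FreeGroup.of : α → FreeGroup α) = MonoidHom.id _ := by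
    apply FreeGroup.ext_hom; intro a; simp
  have key : ∀ (L : List (α × Bool)) (ω : Ω), (∀ f ∈ edges τ L ω, f ∈ Γ) →
      (FreeGroup.mk L : FreeGroup α) =
        ψ (walk τ L ω) * θ ^ (zs τ (delta (ωe, x)) L ω) * (ψ ω)⁻¹ := by
    intro L ω hL
    have := tele τ (Γ \ {(ωe, x)}) (ωe, x) (fun f : Ω × α => FreeGroup.of f.2) ψ θ
      (fun ω y hy _ => hψ ω y hy) (by rw [hθ]; simp only; group) L ω (by
        intro f hf
        by_cases hfe : f = (ωe, x)
        · exact Or.inr hfe
        · exact Or.inl ⟨hL f hf, hfe⟩)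
    rw [pr_gen, hid, MonoidHom.id_apply] at this
    exact this
  obtain ⟨w, hw⟩ : ∃ w, w = walk τ A3 v := ⟨_, rfl⟩
  rw [← hw] at hcl
  have hA1 : walk τ A1 w = v := by
    have := hv
    rw [hRA, walk_append, walk_append, ← hw, hcl] at this
    exact this
  have hedges : ∀ f, (f ∈ edges τ A1 w ∨ f ∈ edges τ A2 w ∨ f ∈ edges τ A3 v) → f ∈ Γ := by
    intro f hf
    apply hΓ
    rw [hRA, edges_append, edges_append, ← hw, hcl]
    simp only [List.mem_append]
    tauto
  have k2 := key A2 w (fun f hf => hedges f (Or.inr (Or.inl hf)))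
  have kC := key (A3 ++ A1) w (by
    intro f hf
    rw [edges_append, hA1, List.mem_append] at hf
    exact hedges f (by tauto))
  have kR := key R v hΓ
  rw [hcl] at k2
  rw [walk_append, hA1, ← hw] at kC
  rw [hv] at kR
  obtain ⟨a, ha⟩ : ∃ a, a = zs τ (delta (ωe, x)) A2 w := ⟨_, rfl⟩
  obtain ⟨b, hb⟩ : ∃ b, b = zs τ (delta (ωe, x)) (A3 ++ A1) w := ⟨_, rfl⟩
  rw [← ha] at k2
  rw [← hb] at kC
  have hab : zs τ (delta (ωe, x)) R v = a + b := by
    rw [ha, hb, hRA, zs_append, zs_append, zs_append, ← hw, hcl, hA1]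
    ring
  rw [hab] at kR
  have hone : a + b = 1 ∨ a + b = -1 := by
    rw [← conj_zpow] at kR
    exact hRp _ _ kR
  have hrot : CRdc (A2 ++ (A3 ++ A1)) := by
    intro A B hAB
    -- rotation of a rotation
    have hR' : R = A1 ++ (A2 ++ A3) := by rw [hRA]; simp
    -- A ++ B = (A2 ++ A3) ++ A1
    have h3 : A ++ B = (A2 ++ A3) ++ A1 := by rw [← hAB]; simp
    rcases List.append_eq_append_iff.1 h3 with ⟨C, hC1, hC2⟩ | ⟨C, hC1, hC2⟩
    · -- A2 ++ A3 = A ++ C, B = C ++ A1
      rw [hC2]
      have := hR (A1 ++ A) C (by rw [hR', hC1]; simp)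
      simpa using this
    · -- A = A2 ++ A3 ++ C, A1 = C ++ B
      rw [hC1]
      have := hR C (B ++ (A2 ++ A3)) (by rw [hR', hC2]; simp)
      simpa using this
  have hmk : (FreeGroup.mk (A2 ++ (A3 ++ A1)) : FreeGroup α) = (ψ w * θ * (ψ w)⁻¹) ^ (a + b) := by
    rw [mk_app, k2, kC, conj_zpow, zpow_add]
    group
  have hk2 : (FreeGroup.mk A2 : FreeGroup α) = (ψ w * θ * (ψ w)⁻¹) ^ a := by
    rw [k2, conj_zpow]
  have ha0 : a ≠ 0 := by
    intro h0
    rw [h0, zpow_zero] at hk2
    have hred : FreeGroup.IsReduced A2 := isReduced_of_rdc (by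
      have := hrot (A2 ++ (A3 ++ A1)) [] (by simp)
      exact this.sub (A := []) (C := A3 ++ A1) (by simp))
    have : FreeGroup.reduce A2 = [] := by
      have h5 : (FreeGroup.mk A2 : FreeGroup α) = FreeGroup.mk [] := hk2
      have := FreeGroup.reduce.sound h5
      simpa using this
    rw [hred.reduce_eq] at this
    exact h2 this
  have hlen : (A2 ++ (A3 ++ A1)).length ≤ A2.length := by
    have hred : Rdc A2 := by
      have := hrot (A2 ++ (A3 ++ A1)) [] (by simp)
      exact this.sub (A := []) (C := A3 ++ A1) (by simp)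
    rcases hone with h | h
    · refine len_pow hrot hred a ha0 ?_
      rw [hmk, h, zpow_one, hk2]
    · refine len_pow hrot hred (-a) (by omega) ?_
      rw [hmk, h, hk2, ← zpow_mul]
      congr 1
      ring
  have : (A3 ++ A1).length = 0 := by
    rw [List.length_append] at hlen
    omega
  apply h1
  simp only [List.length_append] at this
  have e1 : A3 = [] := List.length_eq_zero_iff.1 (by omega)
  have e2 : A1 = [] := List.length_eq_zero_iff.1 (by omega)
  rw [e1, e2]; rfl

/-- An ordered action in which the root word fixes a point and traces an embedded cycle. -/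
def Stacked (R : List (α × Bool)) : Prop :=
  ∃ (Θ : Type) (_ : LinearOrder Θ) (σ : α → Equiv.Perm Θ) (θ : Θ),
    (∀ y, StrictMono (σ y)) ∧ walk σ R θ = θ ∧
    (∀ (A B A' B' : List (α × Bool)) (l l' : α × Bool), R = A ++ l :: B →
      R = A' ++ l' :: B' → walk σ B θ = walk σ B' θ → B = B') ∧
    (∀ (A B : List (α × Bool)), R = A ++ B → θ ≤ walk σ B θ)

theorem exists_stack0 (R : List (α × Bool)) (hR : CRdc R) (hRp : NotPow (FreeGroup.mk R)) :
    ∃ (Θ : Type) (_ : LinearOrder Θ) (σ : α → Equiv.Perm Θ) (θ : Θ),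
    (∀ y, StrictMono (σ y)) ∧ walk σ R θ = θ ∧
    (∀ (A1 A2 A3 : List (α × Bool)), R = A1 ++ A2 ++ A3 → A2 ≠ [] → A1 ++ A3 ≠ [] →
      walk σ A2 (walk σ A3 θ) ≠ walk σ A3 θ) := by
  obtain ⟨Θ, inst, σ, θ, h1, h2, h3⟩ := exists_acyc (∅ : Set (FreeGroup α)) {1} R (by simp) [R]
    [[]] (by
      intro g hg
      rw [Set.mem_singleton_iff] at hg
      subst hg
      exact ⟨[], by simp, by simp [← FreeGroup.one_eq_mk]⟩)
  have hfix : walk σ R θ = θ := by
    have := h2.2 1 rfl
    rw [mem_stab, one_mul, inv_one, mul_one, lift_mk_eq_walk] at this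
    exact this
  refine ⟨Θ, inst, σ, θ, h1, hfix, ?_⟩
  intro A1 A2 A3 hRA hA2 hA13 hcl
  have h4 := h3 {θ} (by
    intro c
    simp only [Finset.mem_singleton, List.mem_singleton, exists_eq_left, walk_nil]
    exact eq_comm)
  exact distinct_of_acyc σ h1 R hR hRp θ _ hfix (by
    intro e he; exact ⟨R, by simp, he⟩) h4 A1 A2 A3 hRA hA2 hA13 hcl

/-- Some rotation of the root word is stacked with lowest base point. -/
theorem exists_stack (R : List (α × Bool)) (hR : CRdc R) (hne : R ≠ [])
    (hRp : NotPow (FreeGroup.mk R)) :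
    ∃ A B, R = A ++ B ∧ Stacked (B ++ A) := by
  classical
  obtain ⟨Θ, inst, σ, θ, h1, h2, h3⟩ := exists_stack0 R hR hRp
  -- the lowest vertex
  obtain ⟨B0, hB0, hmin⟩ : ∃ B0, (∃ A0, R = A0 ++ B0) ∧
      ∀ A B, R = A ++ B → walk σ B0 θ ≤ walk σ B θ := by
    have hfin : (R.tails.toFinset.image (fun B => walk σ B θ)).Nonempty := by
      refine ⟨walk σ [] θ, Finset.mem_image.2 ⟨[], ?_, rfl⟩⟩
      simp
    have hm := Finset.min'_mem _ hfin
    rw [Finset.mem_image] at hm
    obtain ⟨B0, hB0, hB0'⟩ := hm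
    refine ⟨B0, ?_, ?_⟩
    · simp only [List.mem_toFinset, List.mem_tails] at hB0
      obtain ⟨A0, hA0⟩ := hB0
      exact ⟨A0, hA0.symm⟩
    · intro A B hAB
      rw [hB0']
      apply Finset.min'_le
      refine Finset.mem_image.2 ⟨B, ?_, rfl⟩
      simp only [List.mem_toFinset, List.mem_tails]
      exact ⟨A, hAB.symm⟩
  obtain ⟨A0, hA0⟩ := hB0
  refine ⟨A0, B0, hA0, Θ, inst, σ, walk σ B0 θ, h1, ?_, ?_, ?_⟩
  · have : walk σ A0 (walk σ B0 θ) = θ := by
      rw [← walk_append, ← hA0]; exact h2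
    rw [walk_append, this]
  · have hA0' : walk σ A0 (walk σ B0 θ) = θ := by
      rw [← walk_append, ← hA0]; exact h2
    -- general: closed proper subword of the rotation
    have main : ∀ C1 C2 C3 : List (α × Bool), B0 ++ A0 = C1 ++ C2 ++ C3 → C2 ≠ [] →
        C1 ++ C3 ≠ [] → walk σ C2 (walk σ C3 (walk σ B0 θ)) ≠ walk σ C3 (walk σ B0 θ) := by
      intro C1 C2 C3 hC hC2 hC13 hcl
      have hC' : B0 ++ A0 = C1 ++ (C2 ++ C3) := by rw [hC]; simp
      rcases List.append_eq_append_iff.1 hC' with ⟨D, hD1, hD2⟩ | ⟨D, hD1, hD2⟩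
      · -- C1 = B0 ++ D, A0 = D ++ (C2 ++ C3)
        apply h3 D C2 (C3 ++ B0) (by rw [hA0, hD2]; simp) hC2
        · intro h
          apply hC13
          have h5 : D = [] ∧ C3 = [] ∧ B0 = [] := by simpa using h
          rw [hD1, h5.1, h5.2.1, h5.2.2]; rfl
        · rw [walk_append]; exact hcl
      · -- B0 = C1 ++ D, C2 ++ C3 = D ++ A0
        rcases List.append_eq_append_iff.1 hD2 with ⟨E, hE1, hE2⟩ | ⟨E, hE1, hE2⟩
        · -- D = C2 ++ E, C3 = E ++ A0
          apply h3 (A0 ++ C1) C2 E (by rw [hA0, hD1, hE1]; simp) hC2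
          · intro h
            apply hC13
            have h5 : A0 = [] ∧ C1 = [] ∧ E = [] := by simpa using h
            rw [hE2, h5.1, h5.2.1, h5.2.2]; rfl
          · have : walk σ C3 (walk σ B0 θ) = walk σ E θ := by
              rw [hE2, walk_append, hA0']
            rw [this] at hcl
            exact hcl
        · -- C2 = D ++ E, A0 = E ++ C3
          -- complement closed path C1 ; C3
          have hA0C : walk σ A0 (walk σ B0 θ) = walk σ E (walk σ C3 (walk σ B0 θ)) := by
            rw [hE2, walk_append]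
          -- walk D θ = walk C3 (walk B0 θ)
          have hD' : walk σ D θ = walk σ C3 (walk σ B0 θ) := by
            rw [hE1, walk_append, ← hA0C, hA0'] at hcl
            exact hcl
          -- so C1 followed by C3 is closed at walk D θ
          -- R = A0 ++ B0 = E ++ C3 ++ C1 ++ D
          apply h3 E (C3 ++ C1) D (by rw [hA0, hE2, hD1]; simp)
          · intro h
            apply hC13
            have h5 : C3 = [] ∧ C1 = [] := by simpa using h
            rw [h5.1, h5.2]; rfl
          · intro h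
            apply hC2
            have h5 : E = [] ∧ D = [] := by simpa using h
            rw [hE1, h5.1, h5.2]; rfl
          · rw [walk_append, hD']
            have : walk σ C1 (walk σ C3 (walk σ B0 θ)) = walk σ B0 θ := by
              rw [← hD', ← walk_append, ← hD1]
            rw [this]
    intro A B A' B' l l' hAB hAB' hw
    -- both suffixes
    have hsuf : B <:+ B' ∨ B' <:+ B := by
      apply List.suffix_or_suffix_of_suffix (l₃ := B0 ++ A0)
      · exact ⟨A ++ [l], by rw [hAB]; simp⟩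
      · exact ⟨A' ++ [l'], by rw [hAB']; simp⟩
    rcases hsuf with ⟨C, hC⟩ | ⟨C, hC⟩
    · by_contra hne'
      apply main (A' ++ [l']) C B (by rw [hAB', ← hC]; simp)
      · rintro rfl
        exact hne' (by simpa using hC)
      · simp
      · rw [← walk_append, hC]; exact hw.symm
    · by_contra hne'
      apply main (A ++ [l]) C B' (by rw [hAB, ← hC]; simp)
      · rintro rfl
        exact hne' (by simpa using hC.symm)
      · simp
      · rw [← walk_append, hC]; exact hw
  · intro A B hAB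
    have hA0' : walk σ A0 (walk σ B0 θ) = θ := by
      rw [← walk_append, ← hA0]; exact h2
    rcases List.append_eq_append_iff.1 hAB with ⟨D, hD1, hD2⟩ | ⟨D, hD1, hD2⟩
    · -- A = B0 ++ D, A0 = D ++ B
      have : walk σ B (walk σ B0 θ) = walk σ (B ++ B0) θ := by rw [walk_append]
      rw [this]
      apply hmin D
      rw [hA0, hD2]; simp
    · -- B0 = A ++ D, B = D ++ A0
      rw [hD2, walk_append, hA0']
      apply hmin (A0 ++ A)
      rw [hA0, hD1]; simp

end Pool.Agent.Helper122
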