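import Pool.Agent.Helper122.Cohop.Defs

set_option autoImplicit false

namespace Pool.Agent.Helper122

variable {α : Type} {Ω : Type}



section strands

variable {R : List (α × Bool)}

/-- previous position (cyclically) -/
def pn (i : Fin R.length) : Fin R.length :=
  if h : i.val = 0 then ⟨R.length - 1, by have := i.2; omega⟩ else ⟨i.val - 1, by have := i.2; omega⟩

/-- the next strand -/
def nx (τ : α → Equiv.Perm Ω) (s : Ω × Fin R.length) : Ω × Fin R.length :=
  (if s.2.val = 0 then walk τ R s.1 else s.1, pn s.2)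

/-- vertex of a strand -/
def vt (τ : α → Equiv.Perm Ω) (s : Ω × Fin R.length) : Ω := walk τ (R.drop (s.2.val + 1)) s.1

/-- edge of a strand -/
def ed (τ : α → Equiv.Perm Ω) (s : Ω × Fin R.length) : Ω × α :=
  edgeOf τ (R.get s.2) (vt τ s)

theorem split_at (i : Fin R.length) : R = R.take i.val ++ R.get i :: R.drop (i.val + 1) := by
  conv_lhs => rw [← List.take_append_drop i.val R]
  congr 1
  rw [List.drop_eq_getElem_cons i.2]
  rfl

theorem drop_eq (i : Fin R.length) : R.drop i.val = R.get i :: R.drop (i.val + 1) := by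
  rw [List.drop_eq_getElem_cons i.2]
  rfl

theorem vt_nx (τ : α → Equiv.Perm Ω) (s : Ω × Fin R.length) :
    vt τ (nx τ s) = step τ (R.get s.2) (vt τ s) := by
  obtain ⟨c, i⟩ := s
  unfold vt nx pn
  by_cases h : i.val = 0
  · simp only [h, if_true, dif_pos]
    have h1 : R.length - 1 + 1 = R.length := by have := i.2; omega
    rw [h1, List.drop_length, walk_nil]
    have h2 := drop_eq i
    rw [h, List.drop_zero] at h2
    conv_lhs => rw [h2]
    rw [walk_cons]
  · simp only [h, if_false, dif_neg, not_false_eq_true]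
    have h1 : i.val - 1 + 1 = i.val := by omega
    rw [h1, drop_eq i, walk_cons]

theorem vt_inj (τ : α → Equiv.Perm Ω) {s s' : Ω × Fin R.length} (h1 : s.2 = s'.2)
    (h2 : vt τ s = vt τ s') : s = s' := by
  obtain ⟨c, i⟩ := s
  obtain ⟨c', j⟩ := s'
  simp only at h1
  subst h1
  have h3 : walk τ (invL (R.drop (i.val + 1))) (vt τ (c, i)) =
      walk τ (invL (R.drop (i.val + 1))) (vt τ (c', i)) := by rw [h2]
  unfold vt at h3
  simp only [walk_invL] at h3
  rw [h3]

theorem edge_fst (τ : α → Equiv.Perm Ω) (l : α × Bool) (ω : Ω) :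
    (edgeOf τ l ω).1 = if l.2 then ω else step τ l ω := by
  rcases l with ⟨x, b⟩
  cases b <;> simp [edgeOf, step]

theorem edge_end (τ : α → Equiv.Perm Ω) (l : α × Bool) (ω : Ω) :
    τ l.1 (edgeOf τ l ω).1 = if l.2 then step τ l ω else ω := by
  rcases l with ⟨x, b⟩
  cases b <;> simp [edgeOf, step]

/-- strand at the start of the edge -/
def st (τ : α → Equiv.Perm Ω) (s : Ω × Fin R.length) : Ω × Fin R.length :=
  if (R.get s.2).2 then s else nx τ s

/-- strand at the end of the edge -/
def en (τ : α → Equiv.Perm Ω) (s : Ω × Fin R.length) : Ω × Fin R.length :=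
  if (R.get s.2).2 then nx τ s else s

theorem vt_st (τ : α → Equiv.Perm Ω) (s : Ω × Fin R.length) : vt τ (st τ s) = (ed τ s).1 := by
  unfold st ed
  rw [edge_fst]
  split_ifs with h
  · rfl
  · exact vt_nx τ s

theorem vt_en (τ : α → Equiv.Perm Ω) (s : Ω × Fin R.length) :
    vt τ (en τ s) = τ (ed τ s).2 (ed τ s).1 := by
  unfold en ed
  have : (edgeOf τ (R.get s.2) (vt τ s)).2 = (R.get s.2).1 := rfl
  rw [this, edge_end]
  split_ifs with h
  · exact vt_nx τ s
  · rfl

theorem st_snd (τ : α → Equiv.Perm Ω) {Θ : Type} (σ : α → Equiv.Perm Θ)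
    (s : Ω × Fin R.length) (θ : Θ) : (st τ s).2 = (st σ (θ, s.2)).2 := by
  unfold st nx
  split_ifs <;> rfl

theorem en_snd (τ : α → Equiv.Perm Ω) {Θ : Type} (σ : α → Equiv.Perm Θ)
    (s : Ω × Fin R.length) (θ : Θ) : (en τ s).2 = (en σ (θ, s.2)).2 := by
  unfold en nx
  split_ifs <;> rfl

theorem st_fst {Θ : Type} (σ : α → Equiv.Perm Θ) {θ : Θ} (hfix : walk σ R θ = θ)
    (i : Fin R.length) : (st σ (θ, i)).1 = θ := by
  unfold st nx
  simp only [hfix]
  split_ifs <;> rfl

theorem en_fst {Θ : Type} (σ : α → Equiv.Perm Θ) {θ : Θ} (hfix : walk σ R θ = θ)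
    (i : Fin R.length) : (en σ (θ, i)).1 = θ := by
  unfold en nx
  simp only [hfix]
  split_ifs <;> rfl

/-- no two cyclically adjacent letters cancel -/
theorem cr_adj (hR : CRdc R) (j : Fin R.length) : R.get (pn j) ≠ invl (R.get j) := by
  intro h
  by_cases h0 : j.val = 0
  · have hpn : pn j = ⟨R.length - 1, by have := j.2; omega⟩ := by
      unfold pn; rw [dif_pos h0]
    by_cases h1 : R.length = 1
    · have : pn j = j := by
        rw [hpn]; apply Fin.ext; simp; omega
      rw [this] at h
      rcases hx : R.get j with ⟨x, b⟩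
      rw [hx] at h
      simp [invl] at h
    · -- rotation
      have e1 := drop_eq j
      rw [h0, List.drop_zero] at e1
      have e2 := split_at (pn j)
      have hp : (pn j).val = R.length - 1 := by rw [hpn]
      have e3 : R.drop ((pn j).val + 1) = [] := by
        rw [hp, List.drop_eq_nil_iff]; omega
      rw [e3] at e2
      -- R = l0 :: R.drop 1, R.take (N-1) ++ [last]
      have hlen : 1 ≤ (R.take (pn j).val).length := by
        rw [List.length_take, hp]
        have := j.2
        omega
      obtain ⟨m, M, hM⟩ : ∃ m M, R.take (pn j).val = m :: M := by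
        cases hc : R.take (pn j).val with
        | nil => rw [hc] at hlen; simp at hlen
        | cons m M => exact ⟨m, M, rfl⟩
      rw [hM, h] at e2
      have hm : m = R.get j := by
        have := e2.symm.trans e1
        simp only [List.cons_append, List.cons.injEq] at this
        exact this.1
      have hrot := hR [m] (M ++ [invl (R.get j)]) (e2.trans (by simp))
      apply hrot M [] (R.get j).1 (!(R.get j).2)
      rw [hm]
      simp [invl]
  · have hpn : (pn j).val = j.val - 1 := by
      unfold pn; rw [dif_neg h0]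
    have e2 := split_at (pn j)
    have e3 : R.drop ((pn j).val + 1) = R.get j :: R.drop (j.val + 1) := by
      rw [hpn, show j.val - 1 + 1 = j.val by omega, drop_eq]
    rw [e3, h] at e2
    have hrot := hR [] R (by simp)
    apply hrot (R.take (pn j).val) (R.drop (j.val + 1)) (R.get j).1 (!(R.get j).2)
    rw [List.append_nil]
    conv_lhs => rw [e2]
    simp [invl]

theorem cov_iff {τ : α → Equiv.Perm Ω} {c : Ω} {i : ℕ} {e : Ω × α} (h : Cov τ R c i e) :
    ∃ hi : i < R.length, ed τ (c, (⟨i, hi⟩ : Fin R.length)) = e := by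
  obtain ⟨A, B, l, h1, h2, h3⟩ := h
  have hi : i < R.length := by rw [h1, ← h2]; simp
  refine ⟨hi, ?_⟩
  have e1 := split_at (⟨i, hi⟩ : Fin R.length)
  have e2 : R.take i = A ∧ R.get ⟨i, hi⟩ :: R.drop (i + 1) = l :: B := by
    apply List.append_inj (by rw [← h1]; exact e1.symm)
    rw [List.length_take, h2]
    omega
  simp only [List.cons.injEq] at e2
  unfold ed vt
  rw [h3]
  simp only [e2.2.1, e2.2.2]

end strands

/-- W-cycles inequality. -/
theorem wcycles {Θ : Type} [LinearOrder Θ] (σ : α → Equiv.Perm Θ) (hσ : ∀ y, StrictMono (σ y))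
    (R : List (α × Bool)) (hR : CRdc R) (hne : R ≠ []) (θ : Θ) (hfix : walk σ R θ = θ)
    (hdist : ∀ (A B A' B' : List (α × Bool)) (l l' : α × Bool), R = A ++ l :: B →
      R = A' ++ l' :: B' → walk σ B θ = walk σ B' θ → B = B')
    (hmin : ∀ (A B : List (α × Bool)), R = A ++ B → θ ≤ walk σ B θ)
    (τ : α → Equiv.Perm Ω) (Γ : Finset (Ω × α)) (n : ℕ) (hn : 1 ≤ n)
    (hΓ : Irr τ (Γ : Set (Ω × α)) R n) (C V : Finset Ω)
    (hC : ∀ c, c ∈ C ↔ c ∈ CC τ (Γ : Set (Ω × α)) (rpow R n))
    (hV : ∀ w, w ∈ V ↔ ∃ e ∈ Γ, w = e.1 ∨ w = τ e.2 e.1) :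
    C.card + V.card ≤ Γ.card ∧ 2 * Γ.card ≤ C.card * R.length := by
  classical
  have hN : 0 < R.length := List.length_pos_iff.2 hne
  set S : Finset (Ω × Fin R.length) := C ×ˢ Finset.univ with hS
  have hmemS : ∀ s : Ω × Fin R.length, s ∈ S ↔ s.1 ∈ C := by
    intro s; simp [hS]
  -- edges of strands lie in Γ
  have hedΓ : ∀ s ∈ S, ed τ s ∈ Γ := by
    intro s hs
    have h1 := CC_pth hn ((hC _).1 ((hmemS s).1 hs))
    apply h1
    rw [mem_edges_cov]
    exact ⟨s.2.val, R.take s.2.val, R.drop (s.2.val + 1), R.get s.2, split_at s.2, by simp, rfl⟩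
  have hnxS : ∀ s ∈ S, nx τ s ∈ S := by
    intro s hs
    rw [hmemS] at hs ⊢
    unfold nx
    simp only
    split_ifs with h
    · rw [hC] at hs ⊢
      exact CC_step hn hs
    · exact hs
  have hstS : ∀ s ∈ S, st τ s ∈ S := by
    intro s hs
    unfold st
    split_ifs
    · exact hs
    · exact hnxS s hs
  have henS : ∀ s ∈ S, en τ s ∈ S := by
    intro s hs
    unfold en
    split_ifs
    · exact hnxS s hs
    · exact hs
  -- heights
  set hh : Fin R.length → Θ := fun i => vt σ (θ, i) with hhh
  have hhinj : Function.Injective hh := by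
    intro i j hij
    have h1 := hdist _ _ _ _ _ _ (split_at i) (split_at j) hij
    have h2 := congrArg List.length h1
    simp only [List.length_drop] at h2
    apply Fin.ext
    have := i.2
    have := j.2
    omega
  have hhmin : ∀ i, θ ≤ hh i := by
    intro i
    exact hmin (R.take (i.val + 1)) _ (List.take_append_drop _ _).symm
  set he : Fin R.length → Θ := fun i => (ed σ (θ, i)).1 with hhe
  have hh_st : ∀ s : Ω × Fin R.length, hh (st τ s).2 = he s.2 := by
    intro s
    simp only [hhh, hhe]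
    rw [← vt_st, st_snd τ σ s θ]
    congr 1
    rw [← st_fst σ hfix s.2]
    rw [st_fst σ hfix s.2]
    exact Prod.ext (st_fst σ hfix s.2).symm rfl
  have hh_en : ∀ s : Ω × Fin R.length, hh (en τ s).2 = σ (R.get s.2).1 (he s.2) := by
    intro s
    simp only [hhh, hhe]
    have h1 := vt_en σ ((θ, s.2) : Θ × Fin R.length)
    have h2 : (ed σ ((θ, s.2) : Θ × Fin R.length)).2 = (R.get s.2).1 := rfl
    rw [h2] at h1
    rw [← h1, en_snd τ σ s θ]
    congr 1
    exact Prod.ext (en_fst σ hfix s.2).symm rfl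
  set TV := S.filter (fun s => ∀ s' ∈ S, vt τ s' = vt τ s → hh s'.2 ≤ hh s.2) with hTV
  set TE := S.filter (fun s => ∀ s' ∈ S, ed τ s' = ed τ s → he s'.2 ≤ he s.2) with hTE
  -- (1)
  have h_st_TV : ∀ s ∈ S, st τ s ∈ TV → s ∈ TE := by
    intro s hs h
    rw [hTV, Finset.mem_filter] at h
    rw [hTE, Finset.mem_filter]
    refine ⟨hs, fun s' hs' he' => ?_⟩
    have h1 := h.2 (st τ s') (hstS s' hs') (by rw [vt_st, vt_st, he'])
    rwa [hh_st, hh_st] at h1
  have h_en_TV : ∀ s ∈ S, en τ s ∈ TV → s ∈ TE := by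
    intro s hs h
    rw [hTV, Finset.mem_filter] at h
    rw [hTE, Finset.mem_filter]
    refine ⟨hs, fun s' hs' he' => ?_⟩
    have h1 := h.2 (en τ s') (henS s' hs') (by rw [vt_en, vt_en, he'])
    rw [hh_en, hh_en] at h1
    have h2 : (R.get s'.2).1 = (R.get s.2).1 := congrArg Prod.snd he'
    rw [h2] at h1
    exact (hσ _).le_iff_le.1 h1
  have hTV_sub : TV ⊆ TE := by
    intro s hs
    have hsS : s ∈ S := (Finset.mem_filter.1 hs).1
    by_cases hb : (R.get s.2).2
    · apply h_st_TV s hsS
      unfold st; rw [if_pos hb]; exact hs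
    · apply h_en_TV s hsS
      unfold en; rw [if_neg hb]; exact hs
  have hnx_TV : ∀ s ∈ S, nx τ s ∈ TV → s ∈ TE := by
    intro s hs h
    by_cases hb : (R.get s.2).2
    · apply h_en_TV s hs
      unfold en; rw [if_pos hb]; exact h
    · apply h_st_TV s hs
      unfold st; rw [if_neg hb]; exact h
  -- (2) injectivity on TE
  have hinjE : ∀ s ∈ TE, ∀ s' ∈ TE, ed τ s = ed τ s' → s = s' := by
    intro s hs s' hs' h
    rw [hTE, Finset.mem_filter] at hs hs'
    have h1 : he s.2 = he s'.2 := le_antisymm (hs'.2 s hs.1 h) (hs.2 s' hs'.1 h.symm)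
    have hx : (R.get s.2).1 = (R.get s'.2).1 := congrArg Prod.snd h
    have h2 : st τ s = st τ s' := by
      apply vt_inj τ
      · apply hhinj; rw [hh_st, hh_st, h1]
      · rw [vt_st, vt_st, h]
    have h3 : en τ s = en τ s' := by
      apply vt_inj τ
      · apply hhinj; rw [hh_en, hh_en, h1, hx]
      · rw [vt_en, vt_en, h]
    unfold st at h2
    unfold en at h3
    by_cases hb : (R.get s.2).2 <;> by_cases hb' : (R.get s'.2).2
    · rw [if_pos hb, if_pos hb'] at h2; exact h2
    · exfalso
      rw [if_pos hb, if_neg hb'] at h2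
      have h4 : s.2 = pn s'.2 := congrArg Prod.snd h2
      apply cr_adj hR s'.2
      rw [← h4]
      apply Prod.ext
      · exact hx
      · simp only [invl]
        simp only [Bool.not_eq_true] at hb'
        rw [hb, hb']; rfl
    · exfalso
      rw [if_neg hb, if_pos hb'] at h2
      have h4 : pn s.2 = s'.2 := congrArg Prod.snd h2
      apply cr_adj hR s.2
      rw [h4]
      apply Prod.ext
      · exact hx.symm
      · simp only [invl]
        simp only [Bool.not_eq_true] at hb
        rw [hb, hb']; rfl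
    · rw [if_neg hb, if_neg hb'] at h3; exact h3
  have hcardTE : TE.card ≤ Γ.card := by
    apply Finset.card_le_card_of_injOn (fun s => ed τ s)
    · intro s hs
      exact hedΓ s (Finset.mem_filter.1 hs).1
    · intro s hs s' hs' h
      exact hinjE s hs s' hs' h
  -- vertices are covered
  have hcov : ∀ e ∈ Γ, ∃ s ∈ S, ∃ s' ∈ S, s ≠ s' ∧ s.2 ≠ s'.2 ∧ ed τ s = e ∧ ed τ s' = e := by
    intro e he
    obtain ⟨c, c', i, j, hc, hc', hij, h1, h2⟩ := hΓ e (by exact_mod_cast he)
    obtain ⟨hi, h3⟩ := cov_iff h1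
    obtain ⟨hj, h4⟩ := cov_iff h2
    refine ⟨(c, ⟨i, hi⟩), (hmemS _).2 ((hC c).2 hc), (c', ⟨j, hj⟩), (hmemS _).2 ((hC c').2 hc'),
      ?_, ?_, h3, h4⟩
    · intro h
      apply hij
      have := congrArg (fun z => z.2.val) h
      exact this
    · intro h
      apply hij
      exact congrArg Fin.val h
  have hcardV : V.card ≤ TV.card := by
    have hsub : V ⊆ TV.image (vt τ) := by
      intro w hw
      obtain ⟨e, he, hwe⟩ := (hV w).1 hw
      obtain ⟨s, hs, -, -, -, -, hse, -⟩ := hcov e he
      obtain ⟨s0, hs0, hs0w⟩ : ∃ s0 ∈ S, vt τ s0 = w := by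
        rcases hwe with h | h
        · exact ⟨st τ s, hstS s hs, by rw [vt_st, hse, h]⟩
        · exact ⟨en τ s, henS s hs, by rw [vt_en, hse, h]⟩
      obtain ⟨s1, hs1, hmax⟩ := Finset.exists_max_image (S.filter (fun s => vt τ s = w))
        (fun s => hh s.2) ⟨s0, Finset.mem_filter.2 ⟨hs0, hs0w⟩⟩
      rw [Finset.mem_filter] at hs1
      refine Finset.mem_image.2 ⟨s1, ?_, hs1.2⟩
      rw [hTV, Finset.mem_filter]
      refine ⟨hs1.1, fun s' hs' h' => hmax s' (Finset.mem_filter.2 ⟨hs', ?_⟩)⟩
      rw [h', hs1.2]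
    exact (Finset.card_le_card hsub).trans Finset.card_image_le
  -- (3)
  set last : Fin R.length := ⟨R.length - 1, by omega⟩ with hlast
  have hlastθ : hh last = θ := by
    simp only [hhh, vt, hlast]
    have : R.length - 1 + 1 = R.length := by omega
    rw [this, List.drop_length, walk_nil]
  have hlastc : ∀ c, vt τ (c, last) = c := by
    intro c
    simp only [vt, hlast]
    have : R.length - 1 + 1 = R.length := by omega
    rw [this, List.drop_length, walk_nil]
  have hlast_not : ∀ c ∈ C, (c, last) ∉ TV := by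
    intro c hc hmem
    rw [hTV, Finset.mem_filter] at hmem
    -- a strand over the same edge with different position
    obtain ⟨s', hs', hpos, hed⟩ : ∃ s' ∈ S, s'.2 ≠ last ∧ ed τ (c, last) = ed τ s' := by
      obtain ⟨s, hs, s', hs', -, hne', h1, h2⟩ := hcov (ed τ (c, last)) (hedΓ _ hmem.1)
      by_cases h : s.2 = last
      · exact ⟨s', hs', fun h' => hne' (h.trans h'.symm), h2.symm⟩
      · exact ⟨s, hs, h, h1.symm⟩
    have hbad : ∀ s0 ∈ S, s0.2 ≠ last → vt τ s0 = c → False := by
      intro s0 hs0 h0 hv0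
      have h1 := hmem.2 s0 hs0 (by rw [hv0, hlastc])
      simp only at h1
      rw [hlastθ] at h1
      have h2 : hh s0.2 = hh last := by
        rw [hlastθ]; exact le_antisymm h1 (hhmin _)
      exact h0 (hhinj h2)
    rcases edge_cases τ hed with ⟨h1, h2⟩ | ⟨h1, h2⟩
    · exact hbad s' hs' hpos (by rw [h2, hlastc])
    · refine hbad (nx τ s') (hnxS s' hs') ?_ ?_
      · intro h3
        -- pn s'.2 = last
        have h4 : pn s'.2 = last := h3
        apply cr_adj hR s'.2
        rw [h4, h1]
        simp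
      · rw [vt_nx, h1, h2]
        simp only
        rw [step_invl, hlastc]
  have hkey : ∀ c ∈ C, ∃ i, (c, i) ∈ TE \ TV := by
    intro c hc
    obtain ⟨im, -, him⟩ := Finset.exists_max_image (Finset.univ : Finset (Fin R.length)) hh
      ⟨last, Finset.mem_univ _⟩
    have himTV : (c, im) ∈ TV := by
      rw [hTV, Finset.mem_filter]
      exact ⟨(hmemS _).2 hc, fun s' _ _ => him s'.2 (Finset.mem_univ _)⟩
    by_contra hcon
    push Not at hcon
    have hdown : ∀ k : ℕ, ∀ i : Fin R.length, i.val + k = R.length - 1 → (c, i) ∉ TV := by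
      intro k
      induction k with
      | zero =>
        intro i hi
        have : i = last := Fin.ext (by simpa using hi)
        rw [this]; exact hlast_not c hc
      | succ k ih =>
        intro i hi hmem
        have hlt : i.val + 1 < R.length := by omega
        have h1 := ih ⟨i.val + 1, hlt⟩ (by simp only; omega)
        apply hcon ⟨i.val + 1, hlt⟩
        rw [Finset.mem_sdiff]
        refine ⟨?_, h1⟩
        apply hnx_TV _ ((hmemS _).2 hc)
        have : nx τ (c, (⟨i.val + 1, hlt⟩ : Fin R.length)) = (c, i) := by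
          unfold nx pn
          simp
        rw [this]; exact hmem
    exact hdown (R.length - 1 - im.val) im (by have := im.2; omega) himTV
  have hcardC : C.card ≤ (TE \ TV).card := by
    have hsub : C ⊆ (TE \ TV).image Prod.fst := by
      intro c hc
      obtain ⟨i, hi⟩ := hkey c hc
      exact Finset.mem_image.2 ⟨(c, i), hi, rfl⟩
    exact (Finset.card_le_card hsub).trans Finset.card_image_le
  constructor
  · have h1 := Finset.card_sdiff_add_card_eq_card hTV_sub
    omega
  · have h1 : S.card = C.card * R.length := by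
      rw [hS, Finset.card_product, Finset.card_univ, Fintype.card_fin]
    rw [← h1, Finset.card_eq_sum_card_fiberwise (f := fun s => ed τ s) (t := Γ) (fun s hs => hedΓ s hs)]
    calc 2 * Γ.card = ∑ e ∈ Γ, 2 := by rw [Finset.sum_const, smul_eq_mul, mul_comm]
      _ ≤ _ := by
        apply Finset.sum_le_sum
        intro e he
        obtain ⟨s, hs, s', hs', hne', -, h2, h3⟩ := hcov e he
        have : 1 < (S.filter (fun a => ed τ a = e)).card :=
          Finset.one_lt_card.2 ⟨s, Finset.mem_filter.2 ⟨hs, h2⟩, s', Finset.mem_filter.2 ⟨hs', h3⟩,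
            hne'⟩
        exact this

end Pool.Agent.Helper122
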